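import Pool.Agent.BddInt.Defs

/-!
Exact statements of the modules. Module `M` is the file `Pool/Agent/BddInt/M.lean` with
`theorem M_proof : Stmt_M` in the namespace `Pool.Agent.BddInt`.
Paper proofs: /team-store/MP_132c09_PROOF.md
-/

namespace Pool.Agent.BddInt

open Finset

/-- Factorisation with small average norms (singular value decomposition). -/
def Stmt_Fact : Prop :=
  ∀ (X Y : Type) [Fintype X] [Fintype Y] [Nonempty X] [Nonempty Y] (M : X → Y → ℝ) (r : ℕ),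
    (Matrix.of M).rank ≤ r →
    ∃ (ι : Type) (_ : Fintype ι) (u : X → ι → ℝ) (v : Y → ι → ℝ),
      (∀ x y, ∑ i, u x i * v y i = M x y) ∧
      (∑ x, ∑ i, u x i ^ 2 ≤
        √(r * ((∑ x, ∑ y, M x y ^ 2) / (Fintype.card X * Fintype.card Y))) * Fintype.card X) ∧
      (∑ y, ∑ i, v y i ^ 2 ≤
        √(r * ((∑ x, ∑ y, M x y ^ 2) / (Fintype.card X * Fintype.card Y))) * Fintype.card Y)

/-- Exponential tilting by random rectangles. -/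
def Stmt_Tilt : Prop :=
  ∀ (X Y ι : Type) [Fintype ι] (A : Finset X) (B : Finset Y) (u : X → ι → ℝ) (v : Y → ι → ℝ)
    (W : X → Y → ℝ) (D R L : ℝ),
    0 ≤ L → 0 ≤ R →
    (∀ x ∈ A, ∑ i, u x i ^ 2 ≤ D) → (∀ y ∈ B, ∑ i, v y i ^ 2 ≤ D) →
    (∀ x ∈ A, ∀ y ∈ B, ∑ i, u x i * v y i ≤ R) →
    ∃ A' ⊆ A, ∃ B' ⊆ B,
      3 / 4 * (∑ x ∈ A, ∑ y ∈ B, max (W x y) 0 * Real.exp (L * ∑ i, u x i * v y i)) -
          (∑ x ∈ A, ∑ y ∈ B, max (-W x y) 0 * Real.exp (L * ∑ i, u x i * v y i)) ≤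
        64 * Real.exp (2 * L * (D + R)) * ∑ x ∈ A', ∑ y ∈ B', W x y

/-- Amplification: from bad density `η` for some value to bad density `τ` for some value. -/
def Stmt_GSL : Prop :=
  ∃ C : ℝ, 0 < C ∧ ∀ (X Y : Type) (N : X → Y → ℤ) (A : Finset X) (B : Finset Y) (K r : ℕ) (b : ℤ)
    (η τ : ℝ), 1 ≤ K → 1 ≤ r → A.Nonempty → B.Nonempty → Bdd N A B K → |b| ≤ (K : ℤ) →
    rk N A B ≤ r → 0 ≤ η → η ≤ 1 → (bad N b A B : ℝ) ≤ η * (A.card * B.card) →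
    0 < τ → τ ≤ 1 / 2 →
    ∃ b' : ℤ, |b'| ≤ (K : ℤ) ∧ ∃ A' ⊆ A, ∃ B' ⊆ B, A'.Nonempty ∧ B'.Nonempty ∧
      (bad N b' A' B' : ℝ) ≤ τ * (A'.card * B'.card) ∧
      Real.exp (-(C * K ^ 2 * Real.log (2 / τ) * (√(r * η) + 1))) * ((A.card : ℝ) * B.card) ≤
        (A'.card : ℝ) * B'.card

/-- Very few bad entries compared with the rank. -/
def Stmt_RankFin : Prop :=
  ∀ (X Y : Type) (N : X → Y → ℤ) (A : Finset X) (B : Finset Y) (k : ℕ) (η : ℝ),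
    rk N A B ≤ k → 0 ≤ η → η * k ≤ 1 / 4 → (bad N 0 A B : ℝ) ≤ η * (A.card * B.card) →
    HasRect N 0 A B (4 * √(η * k))

/-- Monochromatic rectangle. -/
def Stmt_MT : Prop :=
  ∃ C : ℝ, 0 < C ∧ ∀ (X Y : Type) (N : X → Y → ℤ) (A : Finset X) (B : Finset Y) (K k : ℕ)
    (ε : ℝ), 1 ≤ K → A.Nonempty → B.Nonempty → Bdd N A B K →
    rk N A B ≤ k → 0 < ε → ε ≤ 1 → 1 / 4 ≤ ε * k → (bad N 0 A B : ℝ) ≤ ε * (A.card * B.card) →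
    ∃ b : ℤ, HasRect N b A B (C * K ^ 2 * √(ε * k) * Real.log (2 / ε))

/-- Rank of the two strips through a monochromatic rectangle (Nisan-Wigderson). -/
def Stmt_NW : Prop :=
  ∀ (X Y : Type) (N : X → Y → ℤ) (A A' : Finset X) (B B' : Finset Y) (c : ℤ) (k : ℕ),
    A' ⊆ A → B' ⊆ B → (∀ x ∈ A', ∀ y ∈ B', N x y = c) → rk N A B ≤ k →
    2 * rk N A' B ≤ k + 3 ∨ 2 * rk N A B' ≤ k + 3

/-- Cleaning, many zeros version. -/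
def Stmt_CleanA : Prop :=
  ∀ (X Y : Type) (N : X → Y → ℤ) (A : Finset X) (B : Finset Y) (z : ℝ),
    A.Nonempty → B.Nonempty → 0 < z → z * (A.card * B.card) ≤ (cnt N 0 A B : ℝ) →
    ∃ A₁ ⊆ A, ∃ B₁ ⊆ B, ∃ z₁ : ℝ, A₁.Nonempty ∧ B₁.Nonempty ∧ z ≤ z₁ ∧ z₁ ≤ 1 ∧
      z ^ 2 * ((A.card : ℝ) * B.card) ≤ z₁ ^ 2 * ((A₁.card : ℝ) * B₁.card) ∧
      (∀ A₂ ⊆ A₁, z₁ / 2 * ((A₂.card : ℝ) * B₁.card) ≤ (cnt N 0 A₂ B₁ : ℝ)) ∧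
      (∀ B₂ ⊆ B₁, z₁ / 2 * ((A₁.card : ℝ) * B₂.card) ≤ (cnt N 0 A₁ B₂ : ℝ))

/-- Small rank. -/
def Stmt_Base : Prop :=
  ∀ k : ℕ, ∃ e : ℝ, 0 ≤ e ∧
    ∀ (X Y : Type) (N : X → Y → ℤ) (A : Finset X) (B : Finset Y) (z : ℝ),
      rk N A B ≤ k → 0 < z → z ≤ 1 → z * (A.card * B.card) ≤ (cnt N 0 A B : ℝ) →
      HasRect N 0 A B (e * Real.log (2 / z))

/-- Zero rectangle from a positive density of zeros. -/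
def Stmt_CR : Prop :=
  ∃ C : ℝ, 0 < C ∧ ∀ (X Y : Type) (N : X → Y → ℤ) (A : Finset X) (B : Finset Y) (K k : ℕ)
    (z : ℝ), 1 ≤ K → A.Nonempty → B.Nonempty → Bdd N A B K → rk N A B ≤ k → 0 < z → z ≤ 1 →
    z * (A.card * B.card) ≤ (cnt N 0 A B : ℝ) →
    HasRect N 0 A B (C * K ^ 2 * (Real.log (1 / z) + 10) * √k)

/-- Cleaning, few bad entries version. -/
def Stmt_CleanB : Prop :=
  ∀ (X Y : Type) (N : X → Y → ℤ) (A : Finset X) (B : Finset Y) (ε₀ t : ℝ),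
    A.Nonempty → B.Nonempty → 0 < t → t ≤ ε₀ → (bad N 0 A B : ℝ) = ε₀ * (A.card * B.card) →
    ∃ A₁ ⊆ A, ∃ B₁ ⊆ B, ∃ ε₁ : ℝ, A₁.Nonempty ∧ B₁.Nonempty ∧ 0 ≤ ε₁ ∧ ε₁ ≤ ε₀ ∧
      (bad N 0 A₁ B₁ : ℝ) = ε₁ * (A₁.card * B₁.card) ∧
      ((t ≤ ε₁ ∧
          (ε₁ / ε₀) ^ 4 * ((A.card : ℝ) * B.card) ≤ (A₁.card : ℝ) * B₁.card ∧
          (∀ A₂ ⊆ A₁, (bad N 0 A₂ B₁ : ℝ) ≤ 5 / 4 * ε₁ * ((A₂.card : ℝ) * B₁.card)) ∧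
          (∀ B₂ ⊆ B₁, (bad N 0 A₁ B₂ : ℝ) ≤ 5 / 4 * ε₁ * ((A₁.card : ℝ) * B₂.card))) ∨
        (ε₁ < t ∧ 1 / 2 * (t / ε₀) ^ 4 * ((A.card : ℝ) * B.card) ≤ (A₁.card : ℝ) * B₁.card))

/-- The matrix theorem. -/
def Stmt_Main : Prop :=
  ∃ C : ℝ, 0 < C ∧ ∀ (X Y : Type) (N : X → Y → ℤ) (A : Finset X) (B : Finset Y) (K k : ℕ)
    (ε : ℝ), 1 ≤ K → A.Nonempty → B.Nonempty → Bdd N A B K → 1 ≤ k → rk N A B ≤ k →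
    0 < ε → ε ≤ 1 / 2 → (bad N 0 A B : ℝ) ≤ ε * (A.card * B.card) →
    HasRect N 0 A B (C * K ^ 2 * √(ε * k) * Real.log (4 / ε))

end Pool.Agent.BddInt
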