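import Pool.Agent.BddInt.Basic
import Pool.Agent.BddInt.Stmts

/-!
Small rank: `Stmt_Base`.
-/

namespace Pool.Agent.BddInt

open Finset

variable {X Y : Type}

/-- deleting the columns on which a nonzero row does not vanish decreases the rank -/
lemma rk_lt_of_row (N : X → Y → ℤ) {A : Finset X} {B B0 : Finset Y} (hB : B0 ⊆ B) {x0 : X}
    (hx0 : x0 ∈ A) {y0 : Y} (hy0 : y0 ∈ B) (hne : N x0 y0 ≠ 0) (hz : ∀ y ∈ B0, N x0 y = 0) :
    rk N A B0 < rk N A B := by
  classical
  unfold rk
  rw [Matrix.rank_eq_finrank_span_row, Matrix.rank_eq_finrank_span_row]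
  set M : Matrix A B ℝ := Matrix.of fun (x : A) (y : B) => (N x.1 y.1 : ℝ) with hM
  set M0 : Matrix A B0 ℝ := Matrix.of fun (x : A) (y : B0) => (N x.1 y.1 : ℝ) with hM0
  let incl : B0 → B := fun y => ⟨y.1, hB y.2⟩
  let f : (B → ℝ) →ₗ[ℝ] (B0 → ℝ) := LinearMap.funLeft ℝ ℝ incl
  let S : Submodule ℝ (B → ℝ) := Submodule.span ℝ (Set.range M.row)
  have hmap : Submodule.map f S = Submodule.span ℝ (Set.range M0.row) := by
    rw [Submodule.map_span]
    congr 1
    rw [← Set.range_comp]
    rfl
  rw [← hmap]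
  change Module.finrank ℝ (Submodule.map f S) < Module.finrank ℝ S
  have h1 := LinearMap.finrank_range_add_finrank_ker (f.domRestrict S)
  rw [LinearMap.range_domRestrict] at h1
  have h2 : 0 < Module.finrank ℝ (LinearMap.ker (f.domRestrict S)) := by
    apply Nat.pos_of_ne_zero
    intro h0
    rw [Submodule.finrank_eq_zero] at h0
    have hmem : (⟨M.row ⟨x0, hx0⟩, Submodule.subset_span ⟨_, rfl⟩⟩ : S) ∈
        LinearMap.ker (f.domRestrict S) := by
      rw [LinearMap.mem_ker]
      funext y
      change ((N x0 y.1 : ℤ) : ℝ) = 0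
      rw [hz y.1 y.2, Int.cast_zero]
    rw [h0, Submodule.mem_bot] at hmem
    have h3 := congrArg (fun w : S => (w.1 : B → ℝ) ⟨y0, hy0⟩) hmem
    have h4 : ((N x0 y0 : ℤ) : ℝ) = 0 := h3
    exact hne (by exact_mod_cast h4)
  omega

theorem Base_proof : Stmt_Base := by
  classical
  intro k
  induction k with
  | zero =>
    refine ⟨0, le_rfl, fun X Y N A B z hr _ _ _ => ?_⟩
    exact HasRect.of_all (by simp) (eq_zero_of_rk_eq_zero (Nat.le_zero.1 hr))
  | succ k ih =>
    obtain ⟨e, he0, he⟩ := ih
    refine ⟨3 * e + 3, by linarith, fun X Y N A B z hr hz0 hz1 hcnt => ?_⟩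
    have hL0 : 0 < Real.log (2 / z) := Real.log_pos (by rw [lt_div_iff₀ hz0]; linarith)
    have hc0 : 0 ≤ (3 * e + 3) * Real.log (2 / z) := by positivity
    rcases A.eq_empty_or_nonempty with hA | hA
    · exact HasRect.of_all hc0 (by simp [hA])
    rcases B.eq_empty_or_nonempty with hB | hB
    · exact HasRect.of_all hc0 (by simp [hB])
    have hA' : (0 : ℝ) < A.card := by exact_mod_cast hA.card_pos
    have hB' : (0 : ℝ) < B.card := by exact_mod_cast hB.card_pos
    set A0 := A.filter (fun x => ∀ y ∈ B, N x y = 0) with hA0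
    set A1 := A.filter (fun x => ¬ ∀ y ∈ B, N x y = 0) with hA1
    have hA01 : (A0.card : ℝ) + A1.card = A.card := by
      exact_mod_cast Finset.card_filter_add_card_filter_not (s := A) (fun x => ∀ y ∈ B, N x y = 0)
    by_cases hcase : z / 2 * A.card ≤ A0.card
    · -- many zero rows
      refine HasRect.mono (c := Real.log (2 / z)) ?_ (by nlinarith)
      refine ⟨A0, Finset.filter_subset _ _, B, subset_rfl, ?_, ?_⟩
      · intro x hx y hy
        exact (Finset.mem_filter.1 hx).2 y hy
      · rw [← Real.log_inv, Real.exp_log (by positivity), inv_div]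
        nlinarith
    · have hcase' := not_le.1 hcase
      -- many zeros in the nonzero rows
      have hsplit : (cnt N 0 A B : ℝ) = cnt N 0 A0 B + cnt N 0 A1 B := by
        rw [cnt_eq_sum, cnt_eq_sum, cnt_eq_sum]
        exact (Finset.sum_filter_add_sum_filter_not A _ _).symm
      have hD : z / 2 * (A.card * B.card) ≤ (cnt N 0 A1 B : ℝ) := by
        have h1 := cnt_le N 0 A0 B
        nlinarith
      set d : Y → ℝ := fun y => ((A1.filter fun x => N x y = 0).card : ℝ) with hd
      have hDsum : (cnt N 0 A1 B : ℝ) = ∑ y ∈ B, d y := by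
        rw [cnt_cols]
        push_cast
        rfl
      have hCS : (cnt N 0 A1 B : ℝ) ^ 2 ≤ B.card * ∑ y ∈ B, d y ^ 2 := by
        rw [hDsum]
        exact sq_sum_le_card_mul_sum_sq
      have hswap : ∑ y ∈ B, d y ^ 2 = ∑ x0 ∈ A1, ∑ y ∈ B.filter (fun y => N x0 y = 0), d y := by
        have h1 : ∀ x0 ∈ A1, ∑ y ∈ B.filter (fun y => N x0 y = 0), d y =
            ∑ y ∈ B, (if N x0 y = 0 then d y else 0) := fun x0 _ => Finset.sum_filter _ _
        rw [Finset.sum_congr rfl h1, Finset.sum_comm]
        refine Finset.sum_congr rfl fun y _ => ?_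
        rw [← Finset.sum_filter, Finset.sum_const, nsmul_eq_mul, sq]
      have hsq : (z / 2) ^ 2 * ((A.card : ℝ) ^ 2 * B.card) ≤ ∑ y ∈ B, d y ^ 2 := by
        have h1 : (z / 2 * (A.card * B.card)) ^ 2 ≤ (cnt N 0 A1 B : ℝ) ^ 2 := by
          gcongr
        have h2 := h1.trans hCS
        have h3 : (z / 2 * (A.card * B.card)) ^ 2 =
            B.card * ((z / 2) ^ 2 * ((A.card : ℝ) ^ 2 * B.card)) := by ring
        rw [h3] at h2
        exact le_of_mul_le_mul_left h2 hB'
      have hA1ne : A1.Nonempty := by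
        rw [Finset.nonempty_iff_ne_empty]
        intro h
        rw [hswap, h, Finset.sum_empty] at hsq
        have : 0 < (z / 2) ^ 2 * ((A.card : ℝ) ^ 2 * B.card) := by positivity
        linarith
      obtain ⟨x0, hx0, hx0d⟩ : ∃ x0 ∈ A1, (z / 2) ^ 2 * ((A.card : ℝ) * B.card) ≤
          ∑ y ∈ B.filter (fun y => N x0 y = 0), d y := by
        by_contra hcon
        push Not at hcon
        have h1 : ∑ x0 ∈ A1, ∑ y ∈ B.filter (fun y => N x0 y = 0), d y <
            ∑ x0 ∈ A1, (z / 2) ^ 2 * ((A.card : ℝ) * B.card) :=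
          Finset.sum_lt_sum_of_nonempty hA1ne hcon
        rw [← hswap, Finset.sum_const, nsmul_eq_mul] at h1
        have h2 : (A1.card : ℝ) ≤ A.card := by
          have : (0 : ℝ) ≤ A0.card := Nat.cast_nonneg _
          linarith
        have h3 : (A1.card : ℝ) * ((z / 2) ^ 2 * ((A.card : ℝ) * B.card)) ≤
            A.card * ((z / 2) ^ 2 * ((A.card : ℝ) * B.card)) := by
          gcongr
        nlinarith
      set B0 := B.filter (fun y => N x0 y = 0) with hB0
      have hcnt0 : (z / 2) ^ 2 * ((A.card : ℝ) * B.card) ≤ (cnt N 0 A B0 : ℝ) := by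
        have h1 : (cnt N 0 A1 B0 : ℝ) = ∑ y ∈ B0, d y := by
          rw [cnt_cols]
          push_cast
          rfl
        have h2 : (cnt N 0 A1 B0 : ℝ) ≤ cnt N 0 A B0 := by
          exact_mod_cast cnt_mono N 0 (Finset.filter_subset _ _) subset_rfl
        linarith
      have hB0card : (z / 2) ^ 2 * (B.card : ℝ) ≤ B0.card := by
        have h1 := hcnt0.trans (cnt_le N 0 A B0)
        have h2 : (A.card : ℝ) * ((z / 2) ^ 2 * B.card) ≤ A.card * B0.card := by linarith
        exact le_of_mul_le_mul_left h2 hA'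
      have hB0pos : (0 : ℝ) < B0.card := lt_of_lt_of_le (by positivity) hB0card
      -- the rank decreases
      obtain ⟨y0, hy0, hne⟩ : ∃ y0 ∈ B, N x0 y0 ≠ 0 := by
        have := (Finset.mem_filter.1 hx0).2
        push Not at this
        exact this
      have hrk : rk N A B0 ≤ k := by
        have h1 : rk N A B0 < rk N A B := rk_lt_of_row N
          (Finset.filter_subset (fun y => N x0 y = 0) B)
          (Finset.mem_filter.1 hx0).1 hy0 hne (fun y hy => (Finset.mem_filter.1 hy).2)
        omega
      set z' : ℝ := (z / 2) ^ 2 * B.card / B0.card with hz'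
      have hz'1 : z' ≤ 1 := by
        rw [hz', div_le_one hB0pos]
        exact hB0card
      have hz'0 : (z / 2) ^ 2 ≤ z' := by
        rw [hz', le_div_iff₀ hB0pos]
        have h1 : (B0.card : ℝ) ≤ B.card := by
          exact_mod_cast Finset.card_le_card (Finset.filter_subset _ _)
        gcongr
      have hz'pos : 0 < z' := lt_of_lt_of_le (by positivity) hz'0
      have hrec := he X Y N A B0 z' hrk hz'pos hz'1 (by
        have h1 : z' * (A.card * B0.card) = (z / 2) ^ 2 * ((A.card : ℝ) * B.card) := by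
          rw [hz']
          field_simp
        rw [h1]
        exact hcnt0)
      have htr := HasRect.trans (A := A) (B := B) (A₁ := A) (B₁ := B0)
        (c₁ := Real.log (B.card / B0.card)) subset_rfl (Finset.filter_subset _ _) (by
        rw [← Real.log_inv, Real.exp_log (by positivity), inv_div]
        apply le_of_eq
        field_simp) hrec
      refine htr.mono ?_
      have hlog1 : Real.log (B.card / B0.card) ≤ 2 * Real.log (2 / z) := by
        have h1 : 2 * Real.log (2 / z) = Real.log ((2 / z) ^ 2) := by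
          rw [Real.log_pow]
          norm_num
        rw [h1]
        apply Real.log_le_log (by positivity)
        rw [div_le_iff₀ hB0pos]
        have h2 : (B.card : ℝ) = (2 / z) ^ 2 * ((z / 2) ^ 2 * B.card) := by
          field_simp
        calc (B.card : ℝ) = (2 / z) ^ 2 * ((z / 2) ^ 2 * B.card) := h2
          _ ≤ (2 / z) ^ 2 * B0.card := by gcongr
      have hlog2 : Real.log (2 / z') ≤ 3 * Real.log (2 / z) := by
        have h1 : 3 * Real.log (2 / z) = Real.log ((2 / z) ^ 3) := by
          rw [Real.log_pow]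
          norm_num
        rw [h1]
        apply Real.log_le_log (by positivity)
        calc 2 / z' ≤ 2 / (z / 2) ^ 2 := by gcongr
          _ = 8 / z ^ 2 := by field_simp; ring
          _ ≤ 8 / z ^ 3 := by
            have : z ^ 3 ≤ z ^ 2 := by nlinarith [sq_nonneg z]
            gcongr
          _ = (2 / z) ^ 3 := by field_simp; ring
      have h5 := mul_le_mul_of_nonneg_left hlog2 he0
      calc Real.log (B.card / B0.card) + e * Real.log (2 / z')
          ≤ 2 * Real.log (2 / z) + e * (3 * Real.log (2 / z)) := add_le_add hlog1 h5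
        _ ≤ (3 * e + 3) * Real.log (2 / z) := by linarith

end Pool.Agent.BddInt
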