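import Pool.Agent.BddInt.Defs

/-!
Elementary facts on `cnt`, `bad`, `rk`, `HasRect` for all modules.
-/

namespace Pool.Agent.BddInt

open Finset

variable {X Y : Type}

/-! ### counting -/

lemma cnt_add_bad (N : X → Y → ℤ) (b : ℤ) (A : Finset X) (B : Finset Y) :
    cnt N b A B + bad N b A B = A.card * B.card := by
  unfold cnt bad
  rw [Finset.card_filter_add_card_filter_not, Finset.card_product]

lemma cnt_add_bad_real (N : X → Y → ℤ) (b : ℤ) (A : Finset X) (B : Finset Y) :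
    (cnt N b A B : ℝ) + bad N b A B = (A.card : ℝ) * B.card := by
  exact_mod_cast cnt_add_bad N b A B

lemma cnt_le (N : X → Y → ℤ) (b : ℤ) (A : Finset X) (B : Finset Y) :
    (cnt N b A B : ℝ) ≤ (A.card : ℝ) * B.card := by
  have := cnt_add_bad_real N b A B
  have h : (0 : ℝ) ≤ bad N b A B := Nat.cast_nonneg _
  linarith

lemma bad_le (N : X → Y → ℤ) (b : ℤ) (A : Finset X) (B : Finset Y) :
    (bad N b A B : ℝ) ≤ (A.card : ℝ) * B.card := by
  have := cnt_add_bad_real N b A B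
  have h : (0 : ℝ) ≤ cnt N b A B := Nat.cast_nonneg _
  linarith

lemma cnt_mono (N : X → Y → ℤ) (b : ℤ) {A A' : Finset X} {B B' : Finset Y} (hA : A' ⊆ A)
    (hB : B' ⊆ B) : cnt N b A' B' ≤ cnt N b A B :=
  Finset.card_le_card (Finset.filter_subset_filter _ (Finset.product_subset_product hA hB))

lemma bad_mono (N : X → Y → ℤ) (b : ℤ) {A A' : Finset X} {B B' : Finset Y} (hA : A' ⊆ A)
    (hB : B' ⊆ B) : bad N b A' B' ≤ bad N b A B :=
  Finset.card_le_card (Finset.filter_subset_filter _ (Finset.product_subset_product hA hB))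

/-- `cnt` as a double sum -/
lemma cnt_eq_sum (N : X → Y → ℤ) (b : ℤ) (A : Finset X) (B : Finset Y) :
    (cnt N b A B : ℝ) = ∑ x ∈ A, ∑ y ∈ B, (if N x y = b then (1 : ℝ) else 0) := by
  unfold cnt
  rw [← Finset.sum_product', Finset.card_filter]
  push_cast
  rfl

/-- `bad` as a double sum -/
lemma bad_eq_sum (N : X → Y → ℤ) (b : ℤ) (A : Finset X) (B : Finset Y) :
    (bad N b A B : ℝ) = ∑ x ∈ A, ∑ y ∈ B, (if N x y ≠ b then (1 : ℝ) else 0) := by
  unfold bad
  rw [← Finset.sum_product', Finset.card_filter]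
  push_cast
  rfl

/-- `cnt` as a sum over the rows -/
lemma cnt_rows (N : X → Y → ℤ) (b : ℤ) (A : Finset X) (B : Finset Y) :
    cnt N b A B = ∑ x ∈ A, (B.filter fun y => N x y = b).card := by
  have h : (cnt N b A B : ℝ) = ((∑ x ∈ A, (B.filter fun y => N x y = b).card : ℕ) : ℝ) := by
    rw [cnt_eq_sum]
    push_cast
    refine Finset.sum_congr rfl fun x _ => ?_
    rw [Finset.card_filter]
    push_cast
    rfl
  exact_mod_cast h

/-- `cnt` as a sum over the columns -/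
lemma cnt_cols (N : X → Y → ℤ) (b : ℤ) (A : Finset X) (B : Finset Y) :
    cnt N b A B = ∑ y ∈ B, (A.filter fun x => N x y = b).card := by
  have h : (cnt N b A B : ℝ) = ((∑ y ∈ B, (A.filter fun x => N x y = b).card : ℕ) : ℝ) := by
    rw [cnt_eq_sum, Finset.sum_comm]
    push_cast
    refine Finset.sum_congr rfl fun x _ => ?_
    rw [Finset.card_filter]
    push_cast
    rfl
  exact_mod_cast h

lemma bad_rows (N : X → Y → ℤ) (b : ℤ) (A : Finset X) (B : Finset Y) :
    bad N b A B = ∑ x ∈ A, (B.filter fun y => N x y ≠ b).card := by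
  have h : (bad N b A B : ℝ) = ((∑ x ∈ A, (B.filter fun y => N x y ≠ b).card : ℕ) : ℝ) := by
    rw [bad_eq_sum]
    push_cast
    refine Finset.sum_congr rfl fun x _ => ?_
    rw [Finset.card_filter]
    push_cast
    rfl
  exact_mod_cast h

lemma bad_cols (N : X → Y → ℤ) (b : ℤ) (A : Finset X) (B : Finset Y) :
    bad N b A B = ∑ y ∈ B, (A.filter fun x => N x y ≠ b).card := by
  have h : (bad N b A B : ℝ) = ((∑ y ∈ B, (A.filter fun x => N x y ≠ b).card : ℕ) : ℝ) := by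
    rw [bad_eq_sum, Finset.sum_comm]
    push_cast
    refine Finset.sum_congr rfl fun x _ => ?_
    rw [Finset.card_filter]
    push_cast
    rfl
  exact_mod_cast h

/-! ### transposition -/

lemma cnt_swap (N : X → Y → ℤ) (b : ℤ) (A : Finset X) (B : Finset Y) :
    cnt (fun y x => N x y) b B A = cnt N b A B := by
  rw [cnt_cols, cnt_rows]

lemma bad_swap (N : X → Y → ℤ) (b : ℤ) (A : Finset X) (B : Finset Y) :
    bad (fun y x => N x y) b B A = bad N b A B := by
  rw [bad_cols, bad_rows]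

lemma rk_swap (N : X → Y → ℤ) (A : Finset X) (B : Finset Y) :
    rk (fun y x => N x y) B A = rk N A B := by
  unfold rk
  rw [← Matrix.rank_transpose]
  rfl

/-! ### shifting the values -/

lemma bad_shift (N : X → Y → ℤ) (b : ℤ) (A : Finset X) (B : Finset Y) :
    bad (fun x y => N x y - b) 0 A B = bad N b A B := by
  unfold bad
  congr 1
  refine Finset.filter_congr fun p _ => ?_
  rw [ne_eq, ne_eq, sub_eq_zero]

lemma HasRect.of_shift {N : X → Y → ℤ} {b : ℤ} {A : Finset X} {B : Finset Y} {c : ℝ}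
    (h : HasRect (fun x y => N x y - b) 0 A B c) : HasRect N b A B c := by
  obtain ⟨A', hA, B', hB, h1, h2⟩ := h
  exact ⟨A', hA, B', hB, fun x hx y hy => sub_eq_zero.mp (h1 x hx y hy), h2⟩

/-! ### rank -/

lemma rank_add_le' {m n : Type} [Fintype m] [Fintype n] (P Q : Matrix m n ℝ) :
    (P + Q).rank ≤ P.rank + Q.rank := by
  unfold Matrix.rank
  rw [Matrix.mulVecLin_add]
  refine le_trans (Submodule.finrank_mono ?_)
    (Submodule.finrank_add_le_finrank_add_finrank _ _)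
  rintro _ ⟨v, rfl⟩
  exact Submodule.add_mem_sup ⟨v, rfl⟩ ⟨v, rfl⟩

lemma eq_zero_of_rank_eq_zero {m n : Type} [Fintype m] [Fintype n] [DecidableEq n]
    (P : Matrix m n ℝ) (h : P.rank = 0) : P = 0 := by
  unfold Matrix.rank at h
  rw [Submodule.finrank_eq_zero, LinearMap.range_eq_bot] at h
  ext i j
  have := congrFun (LinearMap.congr_fun h (Pi.single j 1)) i
  simpa using this

lemma rk_mono (N : X → Y → ℤ) {A A' : Finset X} {B B' : Finset Y} (hA : A' ⊆ A)
    (hB : B' ⊆ B) : rk N A' B' ≤ rk N A B := by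
  classical
  unfold rk
  have : (Matrix.of fun (x : A') (y : B') => (N x.1 y.1 : ℝ)) =
      (Matrix.of fun (x : A) (y : B) => (N x.1 y.1 : ℝ)).submatrix
        (fun x : A' => (⟨x.1, hA x.2⟩ : A)) (fun y : B' => (⟨y.1, hB y.2⟩ : B)) := by
    ext x y
    simp
  rw [this]
  exact Matrix.rank_submatrix_le _ _ _

lemma rk_sub_le (N : X → Y → ℤ) (b : ℤ) (A : Finset X) (B : Finset Y) :
    rk (fun x y => N x y - b) A B ≤ rk N A B + 1 := by
  unfold rk
  have h1 : (Matrix.of fun (x : A) (y : B) => ((N x.1 y.1 - b : ℤ) : ℝ)) =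
      (Matrix.of fun (x : A) (y : B) => (N x.1 y.1 : ℝ)) +
        Matrix.vecMulVec (fun _ : A => (-b : ℝ)) (fun _ : B => (1 : ℝ)) := by
    ext x y
    simp [Matrix.vecMulVec]
    ring
  rw [h1]
  refine (rank_add_le' _ _).trans ?_
  gcongr
  exact Matrix.rank_vecMulVec_le _ _

lemma eq_zero_of_rk_eq_zero {N : X → Y → ℤ} {A : Finset X} {B : Finset Y} (h : rk N A B = 0) :
    ∀ x ∈ A, ∀ y ∈ B, N x y = 0 := by
  classical
  intro x hx y hy
  unfold rk at h
  have := congrFun (congrFun (eq_zero_of_rank_eq_zero _ h) ⟨x, hx⟩) ⟨y, hy⟩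
  simpa using this

/-! ### rectangles -/

lemma HasRect.mono {N : X → Y → ℤ} {b : ℤ} {A : Finset X} {B : Finset Y} {c c' : ℝ}
    (h : HasRect N b A B c) (hc : c ≤ c') : HasRect N b A B c' := by
  obtain ⟨A', hA, B', hB, h1, h2⟩ := h
  refine ⟨A', hA, B', hB, h1, le_trans ?_ h2⟩
  gcongr

lemma HasRect.trans {N : X → Y → ℤ} {b : ℤ} {A A₁ : Finset X} {B B₁ : Finset Y} {c c₁ : ℝ}
    (hA : A₁ ⊆ A) (hB : B₁ ⊆ B)
    (hd : Real.exp (-c₁) * ((A.card : ℝ) * B.card) ≤ (A₁.card : ℝ) * B₁.card)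
    (h : HasRect N b A₁ B₁ c) : HasRect N b A B (c₁ + c) := by
  obtain ⟨A', hA', B', hB', h1, h2⟩ := h
  refine ⟨A', hA'.trans hA, B', hB'.trans hB, h1, le_trans ?_ h2⟩
  calc Real.exp (-(c₁ + c)) * ((A.card : ℝ) * B.card)
      = Real.exp (-c) * (Real.exp (-c₁) * ((A.card : ℝ) * B.card)) := by
        rw [neg_add, Real.exp_add]; ring
    _ ≤ Real.exp (-c) * ((A₁.card : ℝ) * B₁.card) := by gcongr

lemma HasRect.of_all {N : X → Y → ℤ} {b : ℤ} {A : Finset X} {B : Finset Y} {c : ℝ} (hc : 0 ≤ c)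
    (h : ∀ x ∈ A, ∀ y ∈ B, N x y = b) : HasRect N b A B c := by
  refine ⟨A, subset_rfl, B, subset_rfl, h, ?_⟩
  have h1 : Real.exp (-c) ≤ 1 := Real.exp_le_one_iff.mpr (by linarith)
  have h2 : (0 : ℝ) ≤ (A.card : ℝ) * B.card := by positivity
  nlinarith

lemma HasRect.swap {N : X → Y → ℤ} {b : ℤ} {A : Finset X} {B : Finset Y} {c : ℝ}
    (h : HasRect (fun y x => N x y) b B A c) : HasRect N b A B c := by
  obtain ⟨B', hB, A', hA, h1, h2⟩ := h
  refine ⟨A', hA, B', hB, fun x hx y hy => h1 y hy x hx, ?_⟩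
  rw [mul_comm (A.card : ℝ), mul_comm (A'.card : ℝ)]
  exact h2

lemma Bdd.mono {N : X → Y → ℤ} {A A' : Finset X} {B B' : Finset Y} {K : ℕ} (h : Bdd N A B K)
    (hA : A' ⊆ A) (hB : B' ⊆ B) : Bdd N A' B' K :=
  fun x hx y hy => h x (hA hx) y (hB hy)

end Pool.Agent.BddInt
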