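import Pool.Agent.BddInt.Basic
import Pool.Agent.BddInt.Stmts

/-!
Zero rectangle from a positive density of zeros.
-/

namespace Pool.Agent.BddInt

open Finset

/-- the numerical inequality of the induction step of `CR` -/
lemma cr_num {C C1 P s s' l d : ℝ} (hC : 2 ≤ C) (hC1 : 0 ≤ C1) (hCC : 2 * C1 ≤ C) (hP : 1 ≤ P)
    (hs : 1 ≤ s) (hs'0 : 0 ≤ s') (hs' : s' ≤ 0.867 * s) (hl : 0 ≤ l) (hd : 0 ≤ d) :
    2 * d + (C1 * P * s * Real.log 2 + C * P * (Real.log 2 + l + 10) * s') ≤
      C * P * (l + d + 10) * s := by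
  have hl2 : Real.log 2 ≤ 0.7 := by linarith [Real.log_two_lt_d9]
  have hl20 : 0 ≤ Real.log 2 := Real.log_nonneg (by norm_num)
  have hC0 : 0 ≤ C := by linarith
  have hP0 : 0 ≤ P := by linarith
  have hs0 : 0 ≤ s := by linarith
  have h1 : 2 * d ≤ C * P * d * s := by
    have : 2 ≤ C * P * s := by
      calc (2 : ℝ) ≤ C * 1 * 1 := by linarith
        _ ≤ C * P * s := by gcongr
    nlinarith
  have h2 : C1 * P * s * Real.log 2 ≤ C * P * s * 0.35 := by
    have : C1 * Real.log 2 ≤ C * 0.35 := by nlinarith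
    calc C1 * P * s * Real.log 2 = (C1 * Real.log 2) * (P * s) := by ring
      _ ≤ (C * 0.35) * (P * s) := by gcongr
      _ = _ := by ring
  have h3 : C * P * (Real.log 2 + l + 10) * s' ≤ C * P * (l + 10.7) * (0.867 * s) := by
    have : Real.log 2 + l + 10 ≤ l + 10.7 := by linarith
    gcongr
  have h4 : C * P * s * 0.35 + C * P * (l + 10.7) * (0.867 * s) ≤ C * P * (l + 10) * s := by
    have : 0.35 + (l + 10.7) * 0.867 ≤ l + 10 := by nlinarith
    calc C * P * s * 0.35 + C * P * (l + 10.7) * (0.867 * s)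
        = C * P * s * (0.35 + (l + 10.7) * 0.867) := by ring
      _ ≤ C * P * s * (l + 10) := by gcongr
      _ = _ := by ring
  nlinarith

lemma sqrt_three_quarters {k k' : ℕ} (h : 4 * k' ≤ 3 * k) :
    √(k' : ℝ) ≤ 0.867 * √(k : ℝ) := by
  have h1 : (4 : ℝ) * k' ≤ 3 * k := by exact_mod_cast h
  rw [show (0.867 : ℝ) * √(k : ℝ) = √(0.867 ^ 2 * k) by
    rw [Real.sqrt_mul (by positivity), Real.sqrt_sq (by norm_num)]]
  apply Real.sqrt_le_sqrt
  have : (0 : ℝ) ≤ k := Nat.cast_nonneg _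
  nlinarith

theorem CR_proof (hBase : Stmt_Base) (hClean : Stmt_CleanA) (hMT : Stmt_MT) (hNW : Stmt_NW) :
    Stmt_CR := by
  obtain ⟨C1, hC1, hMT⟩ := hMT
  obtain ⟨e, he, hBase⟩ := hBase 5
  refine ⟨2 + e + 2 * C1, by positivity, ?_⟩
  intro X Y N A B K k z hK
  have hK1 : (1 : ℝ) ≤ (K : ℝ) ^ 2 := by
    have : (1 : ℝ) ≤ K := by exact_mod_cast hK
    nlinarith
  have hC2 : 2 ≤ 2 + e + 2 * C1 := by linarith
  have hCe : e ≤ 2 + e + 2 * C1 := by linarith
  have hCC : 2 * C1 ≤ 2 + e + 2 * C1 := by linarith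
  generalize 2 + e + 2 * C1 = C at hC2 hCe hCC ⊢
  have hC0 : 0 ≤ C := by linarith
  induction k using Nat.strong_induction_on generalizing A B z with
  | _ k ih =>
  intro hA hB hbd hrk hz hz1 hcnt
  have hlz : 0 ≤ Real.log (1 / z) := Real.log_nonneg (by rw [le_div_iff₀ hz]; linarith)
  rcases Nat.eq_zero_or_pos k with hk0 | hkpos
  · subst hk0
    exact HasRect.of_all (by positivity) (eq_zero_of_rk_eq_zero (Nat.le_zero.mp hrk))
  have hsk : 1 ≤ √(k : ℝ) := by
    rw [Real.one_le_sqrt]; exact_mod_cast hkpos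
  rcases Nat.lt_or_ge 5 k with hk5 | hk5
  swap
  · have h := hBase X Y N A B z (hrk.trans hk5) hz hz1 hcnt
    apply h.mono
    rw [show 2 / z = 2 * (1 / z) by ring, Real.log_mul (by norm_num) (by positivity)]
    have hl2 : Real.log 2 ≤ 10 := by linarith [Real.log_two_lt_d9]
    calc e * (Real.log 2 + Real.log (1 / z)) ≤ C * (Real.log (1 / z) + 10) := by
          have : Real.log 2 + Real.log (1 / z) ≤ Real.log (1 / z) + 10 := by linarith
          gcongr
      _ = C * 1 * (Real.log (1 / z) + 10) * 1 := by ring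
      _ ≤ C * K ^ 2 * (Real.log (1 / z) + 10) * √k := by gcongr
  · obtain ⟨A₁, hA₁, B₁, hB₁, z₁, hA₁n, hB₁n, hzz, hz₁, hsz, hrow, hcol⟩ :=
      hClean X Y N A B z hA hB hz hcnt
    have hz₁0 : 0 < z₁ := lt_of_lt_of_le hz hzz
    have hrk₁ : rk N A₁ B₁ ≤ k := (rk_mono N hA₁ hB₁).trans hrk
    have hbd₁ := hbd.mono hA₁ hB₁
    obtain ⟨b, A₂, hA₂, B₂, hB₂, hmono, hsz₂⟩ := hMT X Y N A₁ B₁ K k 1 hK hA₁n hB₁n hbd₁ hrk₁
      one_pos le_rfl (by
        have : (1 : ℝ) ≤ k := by exact_mod_cast hkpos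
        linarith) (by
        have := bad_le N 0 A₁ B₁
        linarith)
    rw [one_mul, div_one] at hsz₂
    have hpos : 0 < (A₁.card : ℝ) * B₁.card := by
      have h1 : 0 < A₁.card := hA₁n.card_pos
      have h2 : 0 < B₁.card := hB₁n.card_pos
      positivity
    have hpos₂ : 0 < (A₂.card : ℝ) * B₂.card := lt_of_lt_of_le (by positivity) hsz₂
    have hA₂n : A₂.Nonempty := by
      rw [← Finset.card_pos]
      by_contra hcon
      have : A₂.card = 0 := by omega
      rw [this] at hpos₂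
      simp at hpos₂
    have hB₂n : B₂.Nonempty := by
      rw [← Finset.card_pos]
      by_contra hcon
      have : B₂.card = 0 := by omega
      rw [this] at hpos₂
      simp at hpos₂
    -- size of the first cleaning step
    have hl₁ : 0 ≤ Real.log (1 / z₁) := Real.log_nonneg (by rw [le_div_iff₀ hz₁0]; linarith)
    have hd : 0 ≤ Real.log (z₁ / z) := Real.log_nonneg (by rw [le_div_iff₀ hz]; linarith)
    have hsum : Real.log (1 / z) = Real.log (1 / z₁) + Real.log (z₁ / z) := by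
      rw [← Real.log_mul (by positivity) (by positivity)]
      congr 1
      field_simp
    have hsz₁ : Real.exp (-(2 * Real.log (z₁ / z))) * ((A.card : ℝ) * B.card) ≤
        (A₁.card : ℝ) * B₁.card := by
      have h1 : Real.exp (-(2 * Real.log (z₁ / z))) = (z / z₁) ^ 2 := by
        rw [← mul_neg, ← Real.log_inv, inv_div, mul_comm, Real.exp_mul, Real.exp_log (by positivity)]
        norm_cast
      rw [h1, div_pow, div_mul_eq_mul_div, div_le_iff₀ (by positivity)]
      linarith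
    have hk' : (k + 3) / 2 < k := by omega
    have hk'' : 4 * ((k + 3) / 2) ≤ 3 * k := by omega
    have hs' := sqrt_three_quarters hk''
    have hlog : Real.log (1 / (z₁ / 2)) = Real.log 2 + Real.log (1 / z₁) := by
      rw [← Real.log_mul (by norm_num) (by positivity)]
      congr 1
      field_simp
    have hnum := cr_num (C := C) (C1 := C1) (P := (K : ℝ) ^ 2) (s := √(k : ℝ))
      (s' := √(((k + 3) / 2 : ℕ) : ℝ)) (l := Real.log (1 / z₁)) (d := Real.log (z₁ / z))
      hC2 hC1.le hCC hK1 hsk (Real.sqrt_nonneg _) hs' hl₁ hd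
    rw [← hsum] at hnum
    rcases hNW X Y N A₁ A₂ B₁ B₂ b k hA₂ hB₂ hmono hrk₁ with h | h
    · have hih := ih ((k + 3) / 2) hk' A₂ B₁ (z₁ / 2) hA₂n hB₁n (hbd₁.mono hA₂ subset_rfl)
        (by omega) (by positivity) (by linarith) (hrow A₂ hA₂)
      rw [hlog] at hih
      have hsz₂' : Real.exp (-(C1 * K ^ 2 * √(k : ℝ) * Real.log 2)) * ((A₁.card : ℝ) * B₁.card) ≤
          (A₂.card : ℝ) * B₁.card := by
        refine hsz₂.trans ?_
        have := Finset.card_le_card hB₂
        gcongr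
      have := HasRect.trans hA₁ hB₁ hsz₁ (HasRect.trans hA₂ subset_rfl hsz₂' hih)
      exact this.mono hnum
    · have hih := ih ((k + 3) / 2) hk' A₁ B₂ (z₁ / 2) hA₁n hB₂n (hbd₁.mono subset_rfl hB₂)
        (by omega) (by positivity) (by linarith) (hcol B₂ hB₂)
      rw [hlog] at hih
      have hsz₂' : Real.exp (-(C1 * K ^ 2 * √(k : ℝ) * Real.log 2)) * ((A₁.card : ℝ) * B₁.card) ≤
          (A₁.card : ℝ) * B₂.card := by
        refine hsz₂.trans ?_
        have := Finset.card_le_card hA₂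
        gcongr
      have := HasRect.trans hA₁ hB₁ hsz₁ (HasRect.trans subset_rfl hB₂ hsz₂' hih)
      exact this.mono hnum

end Pool.Agent.BddInt
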