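import Pool.Agent.BddInt.Defs

/-!
Second round: linear dependence on `K` when the density of the zero entries is bounded below.
Paper proofs: section LINEAR of /team-store/MP_132c09_PROOF.md
-/

namespace Pool.Agent.BddInt

open Finset

/-- sum over the rectangle of the squared distance to the integer `b` -/
noncomputable def mom {X Y : Type} (N : X → Y → ℤ) (b : ℤ) (A : Finset X) (B : Finset Y) : ℝ :=
  ∑ x ∈ A, ∑ y ∈ B, ((N x y : ℝ) - b) ^ 2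

/-- Restriction to rows and columns of small norm. -/
def Stmt_Norm : Prop :=
  ∀ (X Y : Type) (N : X → Y → ℤ) (A : Finset X) (B : Finset Y) (r : ℕ) (b : ℤ) (σ : ℝ),
    1 ≤ r → A.Nonempty → B.Nonempty → rk N A B ≤ r → 0 ≤ σ →
    mom N b A B ≤ σ ^ 2 * (A.card * B.card) →
    ∃ (ι : Type) (_ : Fintype ι) (u : X → ι → ℝ) (v : Y → ι → ℝ),
      ∃ A₁ ⊆ A, ∃ B₁ ⊆ B, 15 / 16 * (A.card : ℝ) ≤ A₁.card ∧ 15 / 16 * (B.card : ℝ) ≤ B₁.card ∧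
        (∀ x ∈ A₁, ∀ y ∈ B₁, ∑ i, u x i * v y i = (N x y : ℝ) - b) ∧
        (∀ x ∈ A₁, ∑ i, u x i ^ 2 ≤ 16 * √(2 * r) * σ) ∧
        (∀ y ∈ B₁, ∑ i, v y i ^ 2 ≤ 16 * √(2 * r) * σ)

/-- Concentration at a suitable tilt gives a rectangle with small second moment. -/
def Stmt_Conc : Prop :=
  ∀ (X Y ι : Type) [Fintype ι] (N : X → Y → ℤ) (A₁ : Finset X) (B₁ : Finset Y) (b b' : ℤ)
    (u : X → ι → ℝ) (v : Y → ι → ℝ) (D L τ : ℝ),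
    A₁.Nonempty → B₁.Nonempty → 0 ≤ D → 0 ≤ L → 0 < τ →
    (∀ x ∈ A₁, ∀ y ∈ B₁, ∑ i, u x i * v y i = (N x y : ℝ) - b) →
    (∀ x ∈ A₁, ∑ i, u x i ^ 2 ≤ D) → (∀ y ∈ B₁, ∑ i, v y i ^ 2 ≤ D) →
    ∑ x ∈ A₁, ∑ y ∈ B₁, ((N x y : ℝ) - b') ^ 2 * Real.exp (L * ((N x y : ℝ) - b)) ≤
      τ / 4 * ∑ x ∈ A₁, ∑ y ∈ B₁, Real.exp (L * ((N x y : ℝ) - b)) →
    ∃ A' ⊆ A₁, ∃ B' ⊆ B₁, A'.Nonempty ∧ B'.Nonempty ∧
      mom N b' A' B' ≤ τ * ((A'.card : ℝ) * B'.card) ∧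
      Real.exp (-(6 + 5 * L * D)) * ((A₁.card : ℝ) * B₁.card) ≤ (A'.card : ℝ) * B'.card

/-- Variance reduction at large scales. -/
def Stmt_VR : Prop :=
  ∃ C : ℝ, 0 < C ∧ ∀ (X Y : Type) (N : X → Y → ℤ) (A : Finset X) (B : Finset Y) (K r : ℕ) (b : ℤ)
    (σ : ℝ), 1 ≤ K → 1 ≤ r → A.Nonempty → B.Nonempty → Bdd N A B K → |b| ≤ (K : ℤ) →
    rk N A B ≤ r → 3 ≤ σ → σ ≤ 2 * K → mom N b A B ≤ σ ^ 2 * (A.card * B.card) →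
    ∃ b' : ℤ, |b'| ≤ (K : ℤ) ∧ ∃ A' ⊆ A, ∃ B' ⊆ B, A'.Nonempty ∧ B'.Nonempty ∧
      mom N b' A' B' ≤ (σ / 2) ^ 2 * (A'.card * B'.card) ∧
      Real.exp (-(C * K * √r / σ)) * ((A.card : ℝ) * B.card) ≤ (A'.card : ℝ) * B'.card

/-- Reduction of the second moment at small scales. -/
def Stmt_GM : Prop :=
  ∃ C : ℝ, 0 < C ∧ ∀ (X Y : Type) (N : X → Y → ℤ) (A : Finset X) (B : Finset Y) (K r : ℕ) (b : ℤ)
    (σ τ : ℝ), 1 ≤ K → 1 ≤ r → A.Nonempty → B.Nonempty → Bdd N A B K → |b| ≤ (K : ℤ) →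
    rk N A B ≤ r → 1 ≤ 16 * √(2 * r) * σ → mom N b A B ≤ σ ^ 2 * (A.card * B.card) →
    0 < τ → τ ≤ 1 / 2 →
    ∃ b' : ℤ, |b'| ≤ (K : ℤ) ∧ ∃ A' ⊆ A, ∃ B' ⊆ B, A'.Nonempty ∧ B'.Nonempty ∧
      mom N b' A' B' ≤ τ * (A'.card * B'.card) ∧
      Real.exp (-(C * K * √r * σ * Real.log (2 / τ))) * ((A.card : ℝ) * B.card) ≤
        (A'.card : ℝ) * B'.card

/-- Monochromatic rectangle, linear dependence on `K`. -/
def Stmt_MTL : Prop :=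
  ∃ C : ℝ, 0 < C ∧ ∀ (X Y : Type) (N : X → Y → ℤ) (A : Finset X) (B : Finset Y) (K k : ℕ),
    1 ≤ K → A.Nonempty → B.Nonempty → Bdd N A B K → rk N A B ≤ k → 1 ≤ k →
    ∃ b : ℤ, HasRect N b A B (C * K * √k)

/-- Zero rectangle from a positive density of zeros, linear dependence on `K`. -/
def Stmt_CRL : Prop :=
  ∃ C : ℝ, 0 < C ∧ ∀ (X Y : Type) (N : X → Y → ℤ) (A : Finset X) (B : Finset Y) (K k : ℕ)
    (z : ℝ), 1 ≤ K → A.Nonempty → B.Nonempty → Bdd N A B K → rk N A B ≤ k → 0 < z → z ≤ 1 →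
    z * (A.card * B.card) ≤ (cnt N 0 A B : ℝ) →
    HasRect N 0 A B (C * K * (Real.log (1 / z) + 10) * √k)

end Pool.Agent.BddInt
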