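import Pool.Agent.BddInt.Basic
import Pool.Agent.BddInt.Stmts
import Pool.Agent.BddInt.Stmts2
import Pool.Agent.BddInt.CR

/-!
Zero rectangle from a positive density of zeros.
-/

namespace Pool.Agent.BddInt

open Finset

theorem CRL_proof (hBase : Stmt_Base) (hClean : Stmt_CleanA) (hMT : Stmt_MTL) (hNW : Stmt_NW) :
    Stmt_CRL := by
  obtain ⟨C1, hC1, hMT⟩ : ∃ C : ℝ, 0 < C ∧ ∀ (X Y : Type) (N : X → Y → ℤ) (A : Finset X)
      (B : Finset Y) (K k : ℕ), 1 ≤ K → A.Nonempty → B.Nonempty → Bdd N A B K → rk N A B ≤ k →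
      1 ≤ k → ∃ b : ℤ, HasRect N b A B (C * K * √k * Real.log 2) := by
    obtain ⟨C, hC, h⟩ := hMT
    refine ⟨2 * C, by positivity, ?_⟩
    intro X Y N A B K k h1 h2 h3 h4 h5 h6
    obtain ⟨b, hb⟩ := h X Y N A B K k h1 h2 h3 h4 h5 h6
    refine ⟨b, hb.mono ?_⟩
    have hl2 : 1 ≤ 2 * Real.log 2 := by linarith [Real.log_two_gt_d9]
    calc C * K * √k = C * K * √k * 1 := by ring
      _ ≤ C * K * √k * (2 * Real.log 2) := by gcongr
      _ = _ := by ring
  obtain ⟨e, he, hBase⟩ := hBase 5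
  refine ⟨2 + e + 2 * C1, by positivity, ?_⟩
  intro X Y N A B K k z hK
  have hK1 : (1 : ℝ) ≤ (K : ℝ) := by exact_mod_cast hK
  have hC2 : 2 ≤ 2 + e + 2 * C1 := by linarith
  have hCe : e ≤ 2 + e + 2 * C1 := by linarith
  have hCC : 2 * C1 ≤ 2 + e + 2 * C1 := by linarith
  generalize 2 + e + 2 * C1 = C at hC2 hCe hCC ⊢
  have hC0 : 0 ≤ C := by linarith
  induction k using Nat.strong_induction_on generalizing A B z with
  | _ k ih =>
  intro hA hB hbd hrk hz hz1 hcnt
  have hlz : 0 ≤ Real.log (1 / z) := Real.log_nonneg (by rw [le_div_iff₀ hz]; linarith)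
  rcases Nat.eq_zero_or_pos k with hk0 | hkpos
  · subst hk0
    exact HasRect.of_all (by positivity) (eq_zero_of_rk_eq_zero (Nat.le_zero.mp hrk))
  have hsk : 1 ≤ √(k : ℝ) := by
    rw [Real.one_le_sqrt]; exact_mod_cast hkpos
  rcases Nat.lt_or_ge 5 k with hk5 | hk5
  swap
  · have h := hBase X Y N A B z (hrk.trans hk5) hz hz1 hcnt
    apply h.mono
    rw [show 2 / z = 2 * (1 / z) by ring, Real.log_mul (by norm_num) (by positivity)]
    have hl2 : Real.log 2 ≤ 10 := by linarith [Real.log_two_lt_d9]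
    calc e * (Real.log 2 + Real.log (1 / z)) ≤ C * (Real.log (1 / z) + 10) := by
          have : Real.log 2 + Real.log (1 / z) ≤ Real.log (1 / z) + 10 := by linarith
          gcongr
      _ = C * 1 * (Real.log (1 / z) + 10) * 1 := by ring
      _ ≤ C * K * (Real.log (1 / z) + 10) * √k := by gcongr
  · obtain ⟨A₁, hA₁, B₁, hB₁, z₁, hA₁n, hB₁n, hzz, hz₁, hsz, hrow, hcol⟩ :=
      hClean X Y N A B z hA hB hz hcnt
    have hz₁0 : 0 < z₁ := lt_of_lt_of_le hz hzz
    have hrk₁ : rk N A₁ B₁ ≤ k := (rk_mono N hA₁ hB₁).trans hrk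
    have hbd₁ := hbd.mono hA₁ hB₁
    obtain ⟨b, A₂, hA₂, B₂, hB₂, hmono, hsz₂⟩ := hMT X Y N A₁ B₁ K k hK hA₁n hB₁n hbd₁ hrk₁
      hkpos
    have hpos : 0 < (A₁.card : ℝ) * B₁.card := by
      have h1 : 0 < A₁.card := hA₁n.card_pos
      have h2 : 0 < B₁.card := hB₁n.card_pos
      positivity
    have hpos₂ : 0 < (A₂.card : ℝ) * B₂.card := lt_of_lt_of_le (by positivity) hsz₂
    have hA₂n : A₂.Nonempty := by
      rw [← Finset.card_pos]
      by_contra hcon
      have : A₂.card = 0 := by omega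
      rw [this] at hpos₂
      simp at hpos₂
    have hB₂n : B₂.Nonempty := by
      rw [← Finset.card_pos]
      by_contra hcon
      have : B₂.card = 0 := by omega
      rw [this] at hpos₂
      simp at hpos₂
    -- size of the first cleaning step
    have hl₁ : 0 ≤ Real.log (1 / z₁) := Real.log_nonneg (by rw [le_div_iff₀ hz₁0]; linarith)
    have hd : 0 ≤ Real.log (z₁ / z) := Real.log_nonneg (by rw [le_div_iff₀ hz]; linarith)
    have hsum : Real.log (1 / z) = Real.log (1 / z₁) + Real.log (z₁ / z) := by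
      rw [← Real.log_mul (by positivity) (by positivity)]
      congr 1
      field_simp
    have hsz₁ : Real.exp (-(2 * Real.log (z₁ / z))) * ((A.card : ℝ) * B.card) ≤
        (A₁.card : ℝ) * B₁.card := by
      have h1 : Real.exp (-(2 * Real.log (z₁ / z))) = (z / z₁) ^ 2 := by
        rw [← mul_neg, ← Real.log_inv, inv_div, mul_comm, Real.exp_mul, Real.exp_log (by positivity)]
        norm_cast
      rw [h1, div_pow, div_mul_eq_mul_div, div_le_iff₀ (by positivity)]
      linarith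
    have hk' : (k + 3) / 2 < k := by omega
    have hk'' : 4 * ((k + 3) / 2) ≤ 3 * k := by omega
    have hs' := sqrt_three_quarters hk''
    have hlog : Real.log (1 / (z₁ / 2)) = Real.log 2 + Real.log (1 / z₁) := by
      rw [← Real.log_mul (by norm_num) (by positivity)]
      congr 1
      field_simp
    have hnum := cr_num (C := C) (C1 := C1) (P := (K : ℝ)) (s := √(k : ℝ))
      (s' := √(((k + 3) / 2 : ℕ) : ℝ)) (l := Real.log (1 / z₁)) (d := Real.log (z₁ / z))
      hC2 hC1.le hCC hK1 hsk (Real.sqrt_nonneg _) hs' hl₁ hd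
    rw [← hsum] at hnum
    rcases hNW X Y N A₁ A₂ B₁ B₂ b k hA₂ hB₂ hmono hrk₁ with h | h
    · have hih := ih ((k + 3) / 2) hk' A₂ B₁ (z₁ / 2) hA₂n hB₁n (hbd₁.mono hA₂ subset_rfl)
        (by omega) (by positivity) (by linarith) (hrow A₂ hA₂)
      rw [hlog] at hih
      have hsz₂' : Real.exp (-(C1 * K * √(k : ℝ) * Real.log 2)) * ((A₁.card : ℝ) * B₁.card) ≤
          (A₂.card : ℝ) * B₁.card := by
        refine hsz₂.trans ?_
        have := Finset.card_le_card hB₂
        gcongr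
      have := HasRect.trans hA₁ hB₁ hsz₁ (HasRect.trans hA₂ subset_rfl hsz₂' hih)
      exact this.mono hnum
    · have hih := ih ((k + 3) / 2) hk' A₁ B₂ (z₁ / 2) hA₁n hB₂n (hbd₁.mono subset_rfl hB₂)
        (by omega) (by positivity) (by linarith) (hcol B₂ hB₂)
      rw [hlog] at hih
      have hsz₂' : Real.exp (-(C1 * K * √(k : ℝ) * Real.log 2)) * ((A₁.card : ℝ) * B₁.card) ≤
          (A₁.card : ℝ) * B₂.card := by
        refine hsz₂.trans ?_
        have := Finset.card_le_card hA₂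
        gcongr
      have := HasRect.trans hA₁ hB₁ hsz₁ (HasRect.trans subset_rfl hB₂ hsz₂' hih)
      exact this.mono hnum

end Pool.Agent.BddInt
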