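import Pool.Agent.BddInt.Stmts
import Pool.Agent.BddInt.Basic

/-!
Module CleanA: cleaning, many zeros version.
-/

namespace Pool.Agent.BddInt

open Finset

variable {X Y : Type}

/-- existence of a maximising pair of nonempty subsets among those satisfying `P` -/
lemma exists_max_pair (A : Finset X) (B : Finset Y) (P : Finset X → Finset Y → Prop)
    (F : Finset X → Finset Y → ℝ) (h0 : P A B) (hA : A.Nonempty) (hB : B.Nonempty) :
    ∃ A₁ ⊆ A, ∃ B₁ ⊆ B, A₁.Nonempty ∧ B₁.Nonempty ∧ P A₁ B₁ ∧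
      ∀ A' ⊆ A, ∀ B' ⊆ B, A'.Nonempty → B'.Nonempty → P A' B' → F A' B' ≤ F A₁ B₁ := by
  classical
  let S : Finset (Finset X × Finset Y) :=
    (A.powerset ×ˢ B.powerset).filter fun p => p.1.Nonempty ∧ p.2.Nonempty ∧ P p.1 p.2
  have hS : S.Nonempty := ⟨(A, B), by simp [S, hA, hB, h0]⟩
  obtain ⟨p, hp, hmax⟩ := S.exists_max_image (fun p => F p.1 p.2) hS
  simp only [S, mem_filter, mem_product, mem_powerset] at hp
  refine ⟨p.1, hp.1.1, p.2, hp.1.2, hp.2.1, hp.2.2.1, hp.2.2.2, ?_⟩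
  intro A' hA' B' hB' h1 h2 h3
  refine hmax (A', B') ?_
  simp only [S, mem_filter, mem_product, mem_powerset]
  exact ⟨⟨hA', hB'⟩, h1, h2, h3⟩

lemma cnt_erase [DecidableEq X] (N : X → Y → ℤ) (b : ℤ) (A : Finset X) (B : Finset Y) {x : X}
    (hx : x ∈ A) :
    (cnt N b (A.erase x) B : ℝ) = cnt N b A B - (B.filter fun y => N x y = b).card := by
  have h : cnt N b (A.erase x) B + (B.filter fun y => N x y = b).card = cnt N b A B := by
    rw [cnt_rows, cnt_rows, Finset.sum_erase_add _ _ hx]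
  rw [← h]; push_cast; ring

lemma bad_erase [DecidableEq X] (N : X → Y → ℤ) (b : ℤ) (A : Finset X) (B : Finset Y) {x : X}
    (hx : x ∈ A) :
    (bad N b (A.erase x) B : ℝ) = bad N b A B - (B.filter fun y => N x y ≠ b).card := by
  have h : bad N b (A.erase x) B + (B.filter fun y => N x y ≠ b).card = bad N b A B := by
    rw [bad_rows, bad_rows, Finset.sum_erase_add _ _ hx]
  rw [← h]; push_cast; ring

/-- in a maximal pair all rows contain many zeros -/
lemma cleanA_rows (N : X → Y → ℤ) (A : Finset X) (B : Finset Y) (hA : A.Nonempty)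
    (hc : 0 < (cnt N 0 A B : ℝ))
    (hmax : ∀ A' ⊆ A, A'.Nonempty →
      (cnt N 0 A' B : ℝ) ^ 2 * A.card ≤ (cnt N 0 A B : ℝ) ^ 2 * A'.card) :
    ∀ A₂ ⊆ A, (cnt N 0 A B : ℝ) / (2 * A.card) * A₂.card ≤ (cnt N 0 A₂ B : ℝ) := by
  classical
  have hrow : ∀ x ∈ A, (cnt N 0 A B : ℝ) / (2 * A.card) ≤ (B.filter fun y => N x y = 0).card := by
    intro x hx
    by_contra hlt
    push Not at hlt
    have ha : (0 : ℝ) < A.card := by exact_mod_cast hA.card_pos
    set c : ℝ := (cnt N 0 A B : ℝ) with hcdef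
    set r : ℝ := ((B.filter fun y => N x y = 0).card : ℝ) with hr
    have hr0 : 0 ≤ r := by rw [hr]; exact Nat.cast_nonneg _
    have herase := cnt_erase N 0 A B hx
    have hcard : ((A.erase x).card : ℝ) = A.card - 1 := by
      rw [Finset.card_erase_of_mem hx, Nat.cast_sub (Finset.card_pos.mpr hA)]; simp
    rw [lt_div_iff₀ (by positivity)] at hlt
    by_cases hne : (A.erase x).Nonempty
    · have h := hmax _ (Finset.erase_subset x A) hne
      rw [herase, hcard] at h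
      -- (c - r)^2 a ≤ c^2 (a - 1)
      set a : ℝ := (A.card : ℝ) with hadef
      have h1 : 0 < c - r * 1 := by
        have : (1 : ℝ) ≤ a := by
          rw [hadef]; exact_mod_cast hA.card_pos
        nlinarith
      have h2 : c * (2 * a - 1) < (c - r) * (2 * a) := by nlinarith
      have h3 : (c * (2 * a - 1)) ^ 2 < ((c - r) * (2 * a)) ^ 2 := by
        have ha1 : (1 : ℝ) ≤ a := by
          rw [hadef]; exact_mod_cast hA.card_pos
        have : 0 ≤ c * (2 * a - 1) := by nlinarith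
        exact pow_lt_pow_left₀ h2 this (by norm_num)
      have h4 : (c - r) ^ 2 * a * (4 * a) ≤ c ^ 2 * (a - 1) * (4 * a) := by
        exact mul_le_mul_of_nonneg_right h (by positivity)
      have h5 : 0 < c ^ 2 := by positivity
      nlinarith
    · rw [Finset.not_nonempty_iff_eq_empty] at hne
      rw [hne] at herase hcard
      simp only [Finset.card_empty, Nat.cast_zero] at hcard
      have : (cnt N 0 (∅ : Finset X) B : ℝ) = 0 := by simp [cnt]
      rw [this] at herase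
      have ha1 : (A.card : ℝ) = 1 := by linarith
      rw [ha1] at hlt
      change r * (2 * 1) < c at hlt
      have : c - r = 0 := herase.symm
      linarith
  intro A₂ hA₂
  have : (cnt N 0 A₂ B : ℝ) = ∑ x ∈ A₂, ((B.filter fun y => N x y = 0).card : ℝ) := by
    rw [cnt_rows]; push_cast; rfl
  rw [this, mul_comm, ← nsmul_eq_mul]
  exact Finset.card_nsmul_le_sum _ _ _ fun x hx => hrow x (hA₂ hx)

theorem CleanA_proof : Stmt_CleanA := by
  classical
  intro X Y N A B z hA hB hz hzc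
  obtain ⟨A₁, hA₁, B₁, hB₁, hA₁n, hB₁n, -, hmax⟩ :=
    exists_max_pair A B (fun _ _ => True)
      (fun A B => (cnt N 0 A B : ℝ) ^ 2 / ((A.card : ℝ) * B.card)) trivial hA hB
  have hpos : ∀ {T : Type} {S : Finset T}, S.Nonempty → (0 : ℝ) < S.card := by
    intro T S hS; exact_mod_cast hS.card_pos
  have ha := hpos hA
  have hb := hpos hB
  have ha₁ := hpos hA₁n
  have hb₁ := hpos hB₁n
  have h0 := hmax A subset_rfl B subset_rfl hA hB trivial
  beta_reduce at h0
  set c : ℝ := (cnt N 0 A₁ B₁ : ℝ) with hcdef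
  set c0 : ℝ := (cnt N 0 A B : ℝ) with hc0def
  have hc0 : 0 < c0 := lt_of_lt_of_le (by positivity) hzc
  have hcpos : 0 < c := by
    have h1 : 0 < c0 ^ 2 / ((A.card : ℝ) * B.card) := by positivity
    have h2 : 0 < c ^ 2 / ((A₁.card : ℝ) * B₁.card) := lt_of_lt_of_le h1 h0
    have h3 : 0 ≤ c := by rw [hcdef]; exact Nat.cast_nonneg _
    rcases h3.lt_or_eq with h | h
    · exact h
    · rw [← h] at h2; simp at h2
  have hle : (A₁.card : ℝ) * B₁.card ≤ (A.card : ℝ) * B.card := by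
    have h1 : (A₁.card : ℝ) ≤ A.card := by exact_mod_cast Finset.card_le_card hA₁
    have h2 : (B₁.card : ℝ) ≤ B.card := by exact_mod_cast Finset.card_le_card hB₁
    gcongr
  set z₁ : ℝ := c / ((A₁.card : ℝ) * B₁.card) with hz₁
  have hz₁pos : 0 < z₁ := by positivity
  have hkey : z ^ 2 * ((A.card : ℝ) * B.card) ≤ z₁ ^ 2 * ((A₁.card : ℝ) * B₁.card) := by
    have e1 : z₁ ^ 2 * ((A₁.card : ℝ) * B₁.card) = c ^ 2 / ((A₁.card : ℝ) * B₁.card) := by
      rw [hz₁]; field_simp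
    rw [e1]
    refine le_trans ?_ h0
    rw [le_div_iff₀ (by positivity)]
    calc z ^ 2 * ((A.card : ℝ) * B.card) * ((A.card : ℝ) * B.card)
        = (z * ((A.card : ℝ) * B.card)) ^ 2 := by ring
      _ ≤ c0 ^ 2 := by gcongr
  refine ⟨A₁, hA₁, B₁, hB₁, z₁, hA₁n, hB₁n, ?_, ?_, hkey, ?_, ?_⟩
  · have h1 : z ^ 2 * ((A.card : ℝ) * B.card) ≤ z₁ ^ 2 * ((A.card : ℝ) * B.card) :=
      hkey.trans (by gcongr)
    have h2 : z ^ 2 ≤ z₁ ^ 2 := le_of_mul_le_mul_right h1 (by positivity)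
    exact le_of_sq_le_sq h2 hz₁pos.le
  · rw [hz₁, div_le_one (by positivity)]
    exact cnt_le N 0 A₁ B₁
  · intro A₂ hA₂
    have h := cleanA_rows N A₁ B₁ hA₁n hcpos (fun A' hA' hA'n => by
      have h := hmax A' (hA'.trans hA₁) B₁ hB₁ hA'n hB₁n trivial
      beta_reduce at h
      have ha' := hpos hA'n
      rw [div_le_div_iff₀ (by positivity) (by positivity)] at h
      have h2 : ((cnt N 0 A' B₁ : ℝ) ^ 2 * A₁.card) * B₁.card ≤
          ((cnt N 0 A₁ B₁ : ℝ) ^ 2 * A'.card) * B₁.card := by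
        calc ((cnt N 0 A' B₁ : ℝ) ^ 2 * A₁.card) * B₁.card
            = (cnt N 0 A' B₁ : ℝ) ^ 2 * ((A₁.card : ℝ) * B₁.card) := by ring
          _ ≤ (cnt N 0 A₁ B₁ : ℝ) ^ 2 * ((A'.card : ℝ) * B₁.card) := h
          _ = _ := by ring
      exact le_of_mul_le_mul_right h2 hb₁) A₂ hA₂
    calc z₁ / 2 * ((A₂.card : ℝ) * B₁.card) = c / (2 * A₁.card) * A₂.card := by
          rw [hz₁]; field_simp
      _ ≤ _ := h
  · intro B₂ hB₂
    have h := cleanA_rows (fun y x => N x y) B₁ A₁ hB₁n (by rw [cnt_swap N]; exact hcpos)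
      (fun B' hB' hB'n => by
        rw [cnt_swap N 0 A₁ B', cnt_swap N 0 A₁ B₁]
        have h := hmax A₁ hA₁ B' (hB'.trans hB₁) hA₁n hB'n trivial
        beta_reduce at h
        have hb' := hpos hB'n
        rw [div_le_div_iff₀ (by positivity) (by positivity)] at h
        have h2 : ((cnt N 0 A₁ B' : ℝ) ^ 2 * B₁.card) * A₁.card ≤
            ((cnt N 0 A₁ B₁ : ℝ) ^ 2 * B'.card) * A₁.card := by
          calc ((cnt N 0 A₁ B' : ℝ) ^ 2 * B₁.card) * A₁.card
              = (cnt N 0 A₁ B' : ℝ) ^ 2 * ((A₁.card : ℝ) * B₁.card) := by ring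
            _ ≤ (cnt N 0 A₁ B₁ : ℝ) ^ 2 * ((A₁.card : ℝ) * B'.card) := h
            _ = _ := by ring
        exact le_of_mul_le_mul_right h2 ha₁) B₂ hB₂
    rw [cnt_swap N 0 A₁ B₂, cnt_swap N 0 A₁ B₁] at h
    calc z₁ / 2 * ((A₁.card : ℝ) * B₂.card) = c / (2 * B₁.card) * B₂.card := by
          rw [hz₁]; field_simp
      _ ≤ _ := h

end Pool.Agent.BddInt
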