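import Pool.Agent.BddInt.CleanA

/-!
Module CleanB: cleaning, few bad entries version.
-/

namespace Pool.Agent.BddInt

open Finset

variable {X Y : Type}

/-- in a maximal pair, deleting a row with too many bad entries leads below the density `t` -/
lemma cleanB_row (N : X → Y → ℤ) (A : Finset X) (B : Finset Y) (t : ℝ) (hA : A.Nonempty)
    (hm : 0 < (bad N 0 A B : ℝ))
    (hmax : ∀ A' ⊆ A, A'.Nonempty → t * ((A'.card : ℝ) * B.card) ≤ (bad N 0 A' B : ℝ) →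
      (A'.card : ℝ) ^ 5 * (bad N 0 A B : ℝ) ^ 4 ≤ (A.card : ℝ) ^ 5 * (bad N 0 A' B : ℝ) ^ 4)
    (h : ¬ ∀ A₂ ⊆ A, (bad N 0 A₂ B : ℝ) ≤ 5 / 4 * ((bad N 0 A B : ℝ) / A.card) * A₂.card) :
    ∃ A' ⊆ A, A'.Nonempty ∧ (bad N 0 A' B : ℝ) < t * ((A'.card : ℝ) * B.card) ∧
      (A.card : ℝ) / 2 ≤ A'.card := by
  classical
  have ha : (0 : ℝ) < A.card := by exact_mod_cast hA.card_pos
  have hex : ∃ x ∈ A, 5 / 4 * ((bad N 0 A B : ℝ) / A.card) <
      ((B.filter fun y => N x y ≠ 0).card : ℝ) := by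
    by_contra hcon
    push Not at hcon
    refine h fun A₂ hA₂ => ?_
    have h1 : (bad N 0 A₂ B : ℝ) = ∑ x ∈ A₂, ((B.filter fun y => N x y ≠ 0).card : ℝ) := by
      rw [bad_rows]; push_cast; rfl
    rw [h1, mul_comm _ (A₂.card : ℝ), ← nsmul_eq_mul]
    exact Finset.sum_le_card_nsmul _ _ _ fun x hx => hcon x (hA₂ hx)
  obtain ⟨x, hx, hr⟩ := hex
  have herase := bad_erase N 0 A B hx
  have hcard : ((A.erase x).card : ℝ) = A.card - 1 := by
    rw [Finset.card_erase_of_mem hx, Nat.cast_sub (Finset.card_pos.mpr hA)]; simp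
  have hnn : (0 : ℝ) ≤ bad N 0 (A.erase x) B := Nat.cast_nonneg _
  set m : ℝ := (bad N 0 A B : ℝ) with hmdef
  set r : ℝ := ((B.filter fun y => N x y ≠ 0).card : ℝ) with hrdef
  set a : ℝ := (A.card : ℝ) with hadef
  have hr' : 5 * m < 4 * (r * a) := by
    have : 5 / 4 * (m / a) = 5 * m / (4 * a) := by field_simp
    rw [this, div_lt_iff₀ (by positivity)] at hr
    linarith
  have hmr : r ≤ m := by rw [herase] at hnn; linarith
  have hne : (A.erase x).Nonempty := by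
    by_contra hne
    rw [Finset.not_nonempty_iff_eq_empty] at hne
    rw [hne] at hcard
    simp only [Finset.card_empty, Nat.cast_zero] at hcard
    have ha1 : a = 1 := by linarith
    rw [ha1] at hr'
    linarith
  have ha2 : 2 ≤ a := by
    have h1 : 1 ≤ (A.erase x).card := hne.card_pos
    have h2 : (1 : ℝ) ≤ (A.erase x).card := by exact_mod_cast h1
    linarith
  refine ⟨A.erase x, Finset.erase_subset x A, hne, ?_, by rw [hcard]; linarith⟩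
  by_contra hcon
  push Not at hcon
  have h1 := hmax _ (Finset.erase_subset x A) hne hcon
  rw [herase, hcard] at h1
  -- (a-1)^5 m^4 ≤ a^5 (m-r)^4
  have h2 : 0 ≤ 4 * (a * (m - r)) := by
    have : 0 ≤ m - r := by linarith
    positivity
  have h3 : 4 * (a * (m - r)) < m * (4 * a - 5) := by nlinarith
  have h4 : (4 * (a * (m - r))) ^ 4 < (m * (4 * a - 5)) ^ 4 :=
    pow_lt_pow_left₀ h3 h2 (by norm_num)
  have h5 : (4 * (a * (m - r))) ^ 4 * a < (m * (4 * a - 5)) ^ 4 * a :=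
    mul_lt_mul_of_pos_right h4 ha
  have h6 : (4 * (a * (m - r))) ^ 4 * a = 256 * (a ^ 5 * (m - r) ^ 4) := by ring
  have h7 : 256 * ((a - 1) ^ 5 * m ^ 4) < (m * (4 * a - 5)) ^ 4 * a := by
    rw [h6] at h5
    linarith
  have h8 : (m * (4 * a - 5)) ^ 4 * a ≤ 256 * ((a - 1) ^ 5 * m ^ 4) := by
    have hpoly : (4 * a - 5) ^ 4 * a ≤ 256 * (a - 1) ^ 5 := by
      have hq : 0 ≤ 160 * a ^ 3 - 560 * a ^ 2 + 655 * a - 256 := by
        nlinarith [mul_nonneg (mul_nonneg (by linarith : (0:ℝ) ≤ a - 2) (by linarith : (0:ℝ) ≤ a))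
          (by linarith : (0:ℝ) ≤ a), mul_nonneg (by linarith : (0:ℝ) ≤ a - 2)
          (by linarith : (0:ℝ) ≤ a)]
      nlinarith
    have hm4 : 0 ≤ m ^ 4 := by positivity
    calc (m * (4 * a - 5)) ^ 4 * a = ((4 * a - 5) ^ 4 * a) * m ^ 4 := by ring
      _ ≤ (256 * (a - 1) ^ 5) * m ^ 4 := by gcongr
      _ = _ := by ring
  linarith

theorem CleanB_proof : Stmt_CleanB := by
  classical
  intro X Y N A B ε₀ t hA hB ht htε hbad
  have hpos : ∀ {T : Type} {S : Finset T}, S.Nonempty → (0 : ℝ) < S.card := by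
    intro T S hS; exact_mod_cast hS.card_pos
  have hε₀ : 0 < ε₀ := lt_of_lt_of_le ht htε
  have ha := hpos hA
  have hb := hpos hB
  obtain ⟨A₁, hA₁, B₁, hB₁, hA₁n, hB₁n, hP, hmax⟩ :=
    exists_max_pair A B (fun A B => t * ((A.card : ℝ) * B.card) ≤ (bad N 0 A B : ℝ))
      (fun A B => ((A.card : ℝ) * B.card) ^ 5 / (bad N 0 A B : ℝ) ^ 4)
      (by rw [hbad]; gcongr) hA hB
  have ha₁ := hpos hA₁n
  have hb₁ := hpos hB₁n
  beta_reduce at hP hmax
  have hmpos : 0 < (bad N 0 A₁ B₁ : ℝ) := lt_of_lt_of_le (by positivity) hP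
  have hm0pos : 0 < (bad N 0 A B : ℝ) := by rw [hbad]; positivity
  have hle : (A₁.card : ℝ) * B₁.card ≤ (A.card : ℝ) * B.card := by
    have h1 : (A₁.card : ℝ) ≤ A.card := by exact_mod_cast Finset.card_le_card hA₁
    have h2 : (B₁.card : ℝ) ≤ B.card := by exact_mod_cast Finset.card_le_card hB₁
    gcongr
  have h0 := hmax A subset_rfl B subset_rfl hA hB (by rw [hbad]; gcongr)
  set m : ℝ := (bad N 0 A₁ B₁ : ℝ) with hmdef
  obtain ⟨e, hedef⟩ : ∃ e : ℝ, e = m / ((A₁.card : ℝ) * B₁.card) := ⟨_, rfl⟩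
  have hepos : 0 < e := by rw [hedef]; positivity
  have hte : t ≤ e := by
    rw [hedef, le_div_iff₀ (by positivity)]; exact hP
  have hme : m = e * ((A₁.card : ℝ) * B₁.card) := by rw [hedef]; field_simp
  clear hedef
  have hkey : (e / ε₀) ^ 4 * ((A.card : ℝ) * B.card) ≤ (A₁.card : ℝ) * B₁.card := by
    rw [hbad, hme] at h0
    have e1 : ((A.card : ℝ) * B.card) ^ 5 / (ε₀ * ((A.card : ℝ) * B.card)) ^ 4 =
        ((A.card : ℝ) * B.card) / ε₀ ^ 4 := by field_simp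
    have e2 : ((A₁.card : ℝ) * B₁.card) ^ 5 / (e * ((A₁.card : ℝ) * B₁.card)) ^ 4 =
        ((A₁.card : ℝ) * B₁.card) / e ^ 4 := by field_simp
    rw [e1, e2, div_le_div_iff₀ (by positivity) (by positivity)] at h0
    rw [div_pow, div_mul_eq_mul_div, div_le_iff₀ (by positivity)]
    linarith
  have heε : e ≤ ε₀ := by
    have h1 : (e / ε₀) ^ 4 * ((A.card : ℝ) * B.card) ≤ 1 * ((A.card : ℝ) * B.card) := by
      rw [one_mul]; exact hkey.trans hle
    have h2 : (e / ε₀) ^ 4 ≤ 1 := le_of_mul_le_mul_right h1 (by positivity)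
    have h3 : e / ε₀ ≤ 1 := by
      by_contra hcon
      push Not at hcon
      have : 1 < (e / ε₀) ^ 4 := one_lt_pow₀ hcon (by norm_num)
      linarith
    rwa [div_le_one hε₀] at h3
  -- the two possible deletions
  have hsecond : ∀ A' ⊆ A₁, ∀ B' ⊆ B₁, A'.Nonempty → B'.Nonempty →
      (bad N 0 A' B' : ℝ) < t * ((A'.card : ℝ) * B'.card) →
      ((A₁.card : ℝ) * B₁.card) / 2 ≤ (A'.card : ℝ) * B'.card →
      ∃ A₁ ⊆ A, ∃ B₁ ⊆ B, ∃ ε₁ : ℝ, A₁.Nonempty ∧ B₁.Nonempty ∧ 0 ≤ ε₁ ∧ ε₁ ≤ ε₀ ∧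
      (bad N 0 A₁ B₁ : ℝ) = ε₁ * (A₁.card * B₁.card) ∧
      ((t ≤ ε₁ ∧
          (ε₁ / ε₀) ^ 4 * ((A.card : ℝ) * B.card) ≤ (A₁.card : ℝ) * B₁.card ∧
          (∀ A₂ ⊆ A₁, (bad N 0 A₂ B₁ : ℝ) ≤ 5 / 4 * ε₁ * ((A₂.card : ℝ) * B₁.card)) ∧
          (∀ B₂ ⊆ B₁, (bad N 0 A₁ B₂ : ℝ) ≤ 5 / 4 * ε₁ * ((A₁.card : ℝ) * B₂.card))) ∨
        (ε₁ < t ∧ 1 / 2 * (t / ε₀) ^ 4 * ((A.card : ℝ) * B.card) ≤ (A₁.card : ℝ) * B₁.card)) := by
    intro A' hA' B' hB' hA'n hB'n h1 h2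
    have ha' := hpos hA'n
    have hb' := hpos hB'n
    have hnn : (0 : ℝ) ≤ bad N 0 A' B' := Nat.cast_nonneg _
    have hlt : (bad N 0 A' B' : ℝ) / ((A'.card : ℝ) * B'.card) < t := by
      rw [div_lt_iff₀ (by positivity)]; exact h1
    refine ⟨A', hA'.trans hA₁, B', hB'.trans hB₁,
      (bad N 0 A' B' : ℝ) / ((A'.card : ℝ) * B'.card), hA'n, hB'n, by positivity,
      hlt.le.trans htε, by field_simp, Or.inr ⟨hlt, ?_⟩⟩
    calc 1 / 2 * (t / ε₀) ^ 4 * ((A.card : ℝ) * B.card)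
        ≤ 1 / 2 * (e / ε₀) ^ 4 * ((A.card : ℝ) * B.card) := by gcongr
      _ = ((e / ε₀) ^ 4 * ((A.card : ℝ) * B.card)) / 2 := by ring
      _ ≤ ((A₁.card : ℝ) * B₁.card) / 2 := by gcongr
      _ ≤ _ := h2
  by_cases hrows : ∀ A₂ ⊆ A₁, (bad N 0 A₂ B₁ : ℝ) ≤ 5 / 4 * (m / A₁.card) * A₂.card
  · by_cases hcols : ∀ B₂ ⊆ B₁, (bad (fun y x => N x y) 0 B₂ A₁ : ℝ) ≤
        5 / 4 * ((bad (fun y x => N x y) 0 B₁ A₁ : ℝ) / B₁.card) * B₂.card
    · refine ⟨A₁, hA₁, B₁, hB₁, e, hA₁n, hB₁n, hepos.le, heε, hme, Or.inl ⟨hte, hkey, ?_, ?_⟩⟩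
      · intro A₂ hA₂
        refine (hrows A₂ hA₂).trans (le_of_eq ?_)
        rw [hme]; field_simp
      · intro B₂ hB₂
        have h := hcols B₂ hB₂
        rw [bad_swap N 0 A₁ B₂, bad_swap N 0 A₁ B₁] at h
        refine h.trans (le_of_eq ?_)
        change 5 / 4 * (m / B₁.card) * B₂.card = _
        rw [hme]; field_simp
    · obtain ⟨B', hB', hB'n, hlt, hhalf⟩ := cleanB_row (fun y x => N x y) B₁ A₁ t hB₁n
        (by rw [bad_swap N 0 A₁ B₁]; exact hmpos)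
        (fun B' hB' hB'n hP' => by
          rw [bad_swap N 0 A₁ B'] at hP' ⊢
          rw [bad_swap N 0 A₁ B₁]
          have hb' := hpos hB'n
          have hP'' : t * ((A₁.card : ℝ) * B'.card) ≤ (bad N 0 A₁ B' : ℝ) := by
            rw [mul_comm (A₁.card : ℝ)]; exact hP'
          have hbp : 0 < (bad N 0 A₁ B' : ℝ) := lt_of_lt_of_le (by positivity) hP''
          have h := hmax A₁ hA₁ B' (hB'.trans hB₁) hA₁n hB'n hP''
          rw [div_le_div_iff₀ (by positivity) (by positivity)] at h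
          have h2 : ((B'.card : ℝ) ^ 5 * m ^ 4) * (A₁.card : ℝ) ^ 5 ≤
              ((B₁.card : ℝ) ^ 5 * (bad N 0 A₁ B' : ℝ) ^ 4) * (A₁.card : ℝ) ^ 5 := by
            calc ((B'.card : ℝ) ^ 5 * m ^ 4) * (A₁.card : ℝ) ^ 5
                = ((A₁.card : ℝ) * B'.card) ^ 5 * m ^ 4 := by ring
              _ ≤ ((A₁.card : ℝ) * B₁.card) ^ 5 * (bad N 0 A₁ B' : ℝ) ^ 4 := h
              _ = _ := by ring
          exact le_of_mul_le_mul_right h2 (by positivity)) hcols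
      rw [bad_swap N 0 A₁ B'] at hlt
      refine hsecond A₁ subset_rfl B' hB' hA₁n hB'n (by rw [mul_comm (A₁.card : ℝ)]; exact hlt) ?_
      calc (A₁.card : ℝ) * B₁.card / 2 = A₁.card * (B₁.card / 2) := by ring
        _ ≤ _ := by gcongr
  · obtain ⟨A', hA', hA'n, hlt, hhalf⟩ := cleanB_row N A₁ B₁ t hA₁n hmpos
      (fun A' hA' hA'n hP' => by
        have ha' := hpos hA'n
        have hbp : 0 < (bad N 0 A' B₁ : ℝ) := lt_of_lt_of_le (by positivity) hP'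
        have h := hmax A' (hA'.trans hA₁) B₁ hB₁ hA'n hB₁n hP'
        rw [div_le_div_iff₀ (by positivity) (by positivity)] at h
        have h2 : ((A'.card : ℝ) ^ 5 * m ^ 4) * (B₁.card : ℝ) ^ 5 ≤
            ((A₁.card : ℝ) ^ 5 * (bad N 0 A' B₁ : ℝ) ^ 4) * (B₁.card : ℝ) ^ 5 := by
          calc ((A'.card : ℝ) ^ 5 * m ^ 4) * (B₁.card : ℝ) ^ 5
              = ((A'.card : ℝ) * B₁.card) ^ 5 * m ^ 4 := by ring
            _ ≤ ((A₁.card : ℝ) * B₁.card) ^ 5 * (bad N 0 A' B₁ : ℝ) ^ 4 := h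
            _ = _ := by ring
        exact le_of_mul_le_mul_right h2 (by positivity)) hrows
    refine hsecond A' hA' B₁ subset_rfl hA'n hB₁n hlt ?_
    calc (A₁.card : ℝ) * B₁.card / 2 = (A₁.card / 2) * B₁.card := by ring
      _ ≤ _ := by gcongr

end Pool.Agent.BddInt
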