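import Mathlib

/-!
MP_132c09_co: large exactly-lambda-intersecting subfamilies, bounded differences.
Definitions for integer matrices `N : X → Y → ℤ` restricted to finite rectangles `A × B`.
-/

namespace Pool.Agent.BddInt

open Finset

/-- number of pairs of `A × B` at which `N` takes the value `b` -/
def cnt {X Y : Type} (N : X → Y → ℤ) (b : ℤ) (A : Finset X) (B : Finset Y) : ℕ :=
  ((A ×ˢ B).filter fun p => N p.1 p.2 = b).card

/-- number of pairs of `A × B` at which `N` does not take the value `b` -/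
def bad {X Y : Type} (N : X → Y → ℤ) (b : ℤ) (A : Finset X) (B : Finset Y) : ℕ :=
  ((A ×ˢ B).filter fun p => N p.1 p.2 ≠ b).card

/-- the rank over the reals of the submatrix `A × B` of `N` -/
noncomputable def rk {X Y : Type} (N : X → Y → ℤ) (A : Finset X) (B : Finset Y) : ℕ :=
  (Matrix.of fun (x : A) (y : B) => (N x.1 y.1 : ℝ)).rank

/-- there is a rectangle inside `A × B`, of density at least `exp (-c)` in `A × B`,
on which `N` is constantly equal to `b` -/
def HasRect {X Y : Type} (N : X → Y → ℤ) (b : ℤ) (A : Finset X) (B : Finset Y) (c : ℝ) : Prop :=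
  ∃ A' ⊆ A, ∃ B' ⊆ B, (∀ x ∈ A', ∀ y ∈ B', N x y = b) ∧
    Real.exp (-c) * ((A.card : ℝ) * B.card) ≤ (A'.card : ℝ) * B'.card

/-- all entries of `N` on `A × B` are at most `K` in absolute value -/
def Bdd {X Y : Type} (N : X → Y → ℤ) (A : Finset X) (B : Finset Y) (K : ℕ) : Prop :=
  ∀ x ∈ A, ∀ y ∈ B, |N x y| ≤ (K : ℤ)

end Pool.Agent.BddInt
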