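import Pool.Agent.BddInt.Stmts

/-!
# Module `Fact` of `MP_132c09_co`: factorisation with small average norms
-/

namespace Pool.Agent.BddInt

open Finset

theorem Fact_proof : Stmt_Fact := by
  classical
  intro X Y _ _ _ _ M r hr
  set A : Matrix X Y ℝ := Matrix.of M with hA
  set G : Matrix Y Y ℝ := A.conjTranspose * A with hGdef
  have hG : G.IsHermitian := Matrix.isHermitian_conjTranspose_mul_self A
  have hpos : G.PosSemidef := Matrix.posSemidef_conjTranspose_mul_self A
  set l : Y → ℝ := hG.eigenvalues with hl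
  have hl0 : ∀ i, 0 ≤ l i := fun i => hpos.eigenvalues_nonneg i
  set U : Matrix Y Y ℝ := (hG.eigenvectorUnitary : Matrix Y Y ℝ) with hU
  have hU1 : U.transpose * U = 1 := by
    have := Matrix.mem_unitaryGroup_iff'.mp hG.eigenvectorUnitary.2
    simpa [Matrix.star_eq_conjTranspose] using this
  have hU2 : U * U.transpose = 1 := by
    have := Matrix.mem_unitaryGroup_iff.mp hG.eigenvectorUnitary.2
    simpa [Matrix.star_eq_conjTranspose] using this
  -- `w i y = U y i`
  have hw1 : ∀ i, ∑ y, U y i ^ 2 = 1 := by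
    intro i
    have := congrFun (congrFun hU1 i) i
    simpa [Matrix.mul_apply, pow_two] using this
  have hw2 : ∀ y y', ∑ i, U y i * U y' i = if y = y' then 1 else 0 := by
    intro y y'
    have := congrFun (congrFun hU2 y) y'
    simpa [Matrix.mul_apply, Matrix.one_apply] using this
  have hGU : G * U = U * Matrix.diagonal l := by
    ext y i
    have h1 := congrFun (hG.mulVec_eigenvectorBasis i) y
    rw [Matrix.mul_diagonal, Matrix.mul_apply]
    simp only [Matrix.mulVec, dotProduct, Pi.smul_apply, smul_eq_mul] at h1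
    rw [mul_comm (U y i) (l i)]
    exact h1
  set m : X → Y → ℝ := fun x i => ∑ y, M x y * U y i with hm
  have hm1 : ∀ x y, ∑ i, m x i * U y i = M x y := by
    intro x y
    simp only [hm, Finset.sum_mul]
    rw [Finset.sum_comm]
    simp only [mul_assoc, ← Finset.mul_sum, hw2]
    simp
  have hm2 : ∀ i, ∑ x, m x i ^ 2 = l i := by
    intro i
    have h1 : (U.transpose * (G * U)) i i = l i := by
      rw [hGU, ← Matrix.mul_assoc, hU1, Matrix.one_mul, Matrix.diagonal_apply_eq]
    have h2 : U.transpose * (G * U) = (A * U).transpose * (A * U) := by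
      rw [hGdef, Matrix.transpose_mul, Matrix.mul_assoc, Matrix.mul_assoc,
        Matrix.conjTranspose_eq_transpose_of_trivial]
    rw [h2] at h1
    rw [← h1]
    simp only [Matrix.mul_apply, Matrix.transpose_apply, hm, hA, Matrix.of_apply, pow_two]
  have htr : ∑ i, l i = ∑ x, ∑ y, M x y ^ 2 := by
    have h1 : ∑ i, ∑ x, m x i ^ 2 = ∑ x, ∑ y, M x y ^ 2 := by
      rw [Finset.sum_comm]
      refine Finset.sum_congr rfl fun x _ => ?_
      have h3 : ∑ y, M x y ^ 2 = ∑ y, M x y * ∑ i, m x i * U y i := by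
        refine Finset.sum_congr rfl fun y _ => ?_
        rw [hm1, pow_two]
      rw [h3]
      simp only [Finset.mul_sum]
      rw [Finset.sum_comm]
      refine Finset.sum_congr rfl fun i _ => ?_
      have : ∑ y, M x y * (m x i * U y i) = m x i * ∑ y, M x y * U y i := by
        rw [Finset.mul_sum]
        exact Finset.sum_congr rfl fun y _ => by ring
      rw [this, pow_two]
    rw [← h1]
    exact Finset.sum_congr rfl fun i _ => (hm2 i).symm
  have hrank : (Finset.univ.filter fun i => l i ≠ 0).card ≤ r := by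
    have h1 := hG.rank_eq_card_non_zero_eigs
    have h2 : G.rank = A.rank := Matrix.rank_conjTranspose_mul_self A
    rw [← Fintype.card_subtype]
    rw [← h2, h1] at hr
    exact hr
  set s : Y → ℝ := fun i => √(l i) with hs
  have hs0 : ∀ i, 0 ≤ s i := fun i => Real.sqrt_nonneg _
  have hs2 : ∀ i, s i ^ 2 = l i := fun i => Real.sq_sqrt (hl0 i)
  have hsum : ∑ i, s i ≤ √(r * ∑ x, ∑ y, M x y ^ 2) := by
    apply Real.le_sqrt_of_sq_le
    have h1 : ∑ i, s i = ∑ i ∈ Finset.univ.filter (fun i => l i ≠ 0), s i := by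
      rw [Finset.sum_filter]
      refine Finset.sum_congr rfl fun i _ => ?_
      split_ifs with h
      · rfl
      · simp only [hs]
        rw [not_not.mp h, Real.sqrt_zero]
    rw [h1]
    refine (sq_sum_le_card_mul_sum_sq).trans ?_
    have h2 : ∑ i ∈ Finset.univ.filter (fun i => l i ≠ 0), s i ^ 2 ≤ ∑ i, s i ^ 2 :=
      Finset.sum_le_sum_of_subset_of_nonneg (Finset.filter_subset _ _)
        fun i _ _ => sq_nonneg _
    have h3 : ∑ i, s i ^ 2 = ∑ x, ∑ y, M x y ^ 2 := by
      rw [← htr]
      exact Finset.sum_congr rfl fun i _ => hs2 i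
    rw [h3] at h2
    have h4 : (0 : ℝ) ≤ ∑ i ∈ Finset.univ.filter (fun i => l i ≠ 0), s i ^ 2 :=
      Finset.sum_nonneg fun i _ => sq_nonneg _
    have h5 : ((Finset.univ.filter fun i => l i ≠ 0).card : ℝ) ≤ r := by exact_mod_cast hrank
    exact mul_le_mul h5 h2 h4 (by positivity)
  have hX : (0 : ℝ) < Fintype.card X := by exact_mod_cast Fintype.card_pos
  have hY : (0 : ℝ) < Fintype.card Y := by exact_mod_cast Fintype.card_pos
  set F : ℝ := ∑ x, ∑ y, M x y ^ 2 with hF
  have hF0 : 0 ≤ F := Finset.sum_nonneg fun x _ => Finset.sum_nonneg fun y _ => sq_nonneg _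
  set c : ℝ := √(√(Fintype.card X / Fintype.card Y : ℝ)) with hc
  have hc0 : 0 < c := Real.sqrt_pos.mpr (Real.sqrt_pos.mpr (by positivity))
  have hc2 : c ^ 2 = √(Fintype.card X / Fintype.card Y : ℝ) := Real.sq_sqrt (Real.sqrt_nonneg _)
  refine ⟨Y, inferInstance, fun x i => c * (m x i / √(s i)), fun y i => √(s i) * U y i / c,
    ?_, ?_, ?_⟩
  · intro x y
    rw [← hm1 x y]
    refine Finset.sum_congr rfl fun i _ => ?_
    by_cases hi : s i = 0
    · have h1 : ∑ x, m x i ^ 2 = 0 := by rw [hm2, ← hs2, hi]; ring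
      have h2 : m x i ^ 2 = 0 :=
        (Finset.sum_eq_zero_iff_of_nonneg fun x _ => sq_nonneg _).mp h1 x (Finset.mem_univ x)
      have h3 : m x i = 0 := by simpa using h2
      simp [h3]
    · have h1 : √(s i) ≠ 0 := by
        rw [Real.sqrt_ne_zero (hs0 i)]
        exact hi
      field_simp
  · have h1 : ∑ x, ∑ i, (c * (m x i / √(s i))) ^ 2 = c ^ 2 * ∑ i, s i := by
      rw [Finset.sum_comm, Finset.mul_sum]
      refine Finset.sum_congr rfl fun i _ => ?_
      have h2 : ∑ x, (c * (m x i / √(s i))) ^ 2 = c ^ 2 * ((∑ x, m x i ^ 2) / s i) := by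
        rw [Finset.sum_div, Finset.mul_sum]
        refine Finset.sum_congr rfl fun x _ => ?_
        rw [mul_pow, div_pow, Real.sq_sqrt (hs0 i)]
      rw [h2, hm2, ← hs2]
      by_cases hi : s i = 0
      · simp [hi]
      · field_simp
    rw [h1, hc2]
    have h3 : √((r : ℝ) * (F / (Fintype.card X * Fintype.card Y))) * Fintype.card X =
        √(Fintype.card X / Fintype.card Y : ℝ) * √(r * F) := by
      rw [← Real.sqrt_mul (by positivity)]
      nth_rewrite 2 [← Real.sqrt_sq hX.le]
      rw [← Real.sqrt_mul (by positivity)]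
      congr 1
      field_simp
    rw [h3]
    exact mul_le_mul_of_nonneg_left hsum (Real.sqrt_nonneg _)
  · have h1 : ∑ y, ∑ i, (√(s i) * U y i / c) ^ 2 = (1 / c ^ 2) * ∑ i, s i := by
      rw [Finset.sum_comm, Finset.mul_sum]
      refine Finset.sum_congr rfl fun i _ => ?_
      have h2 : ∑ y, (√(s i) * U y i / c) ^ 2 = (1 / c ^ 2) * (s i * ∑ y, U y i ^ 2) := by
        rw [Finset.mul_sum, Finset.mul_sum]
        refine Finset.sum_congr rfl fun y _ => ?_
        rw [div_pow, mul_pow, Real.sq_sqrt (hs0 i)]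
        ring
      rw [h2, hw1, mul_one]
    rw [h1, hc2]
    have h4 : 1 / √(Fintype.card X / Fintype.card Y : ℝ) = √(Fintype.card Y / Fintype.card X : ℝ) := by
      rw [one_div, ← Real.sqrt_inv, inv_div]
    have h3 : √((r : ℝ) * (F / (Fintype.card X * Fintype.card Y))) * Fintype.card Y =
        √(Fintype.card Y / Fintype.card X : ℝ) * √(r * F) := by
      rw [← Real.sqrt_mul (by positivity)]
      nth_rewrite 2 [← Real.sqrt_sq hY.le]
      rw [← Real.sqrt_mul (by positivity)]
      congr 1
      field_simp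
    rw [h3, h4]
    exact mul_le_mul_of_nonneg_left hsum (Real.sqrt_nonneg _)

end Pool.Agent.BddInt
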