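import Pool.Agent.BddInt.Norm

/-!
Reduction of the second moment at small scales.
-/

namespace Pool.Agent.BddInt

open Finset

lemma GM_sum_gen (w : ℕ → ℝ) (hw : ∀ n, 0 ≤ w n) (c : ℝ)
    (hc : ∀ m, ∑ n ∈ range m, w (n + 1) ≤ c) (S : Finset ℤ) (s : ℤ) :
    ∑ t ∈ S.erase s, w (s - t).natAbs ≤ 2 * c := by
  classical
  set m : ℕ := S.sup (fun t => (s - t).natAbs) with hm
  have hle : ∀ t ∈ S, (s - t).natAbs ≤ m := fun t ht =>
    Finset.le_sup (f := fun t => (s - t).natAbs) ht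
  set I1 : Finset ℤ := (range m).image (fun n : ℕ => s - ((n : ℤ) + 1)) with hI1
  set I2 : Finset ℤ := (range m).image (fun n : ℕ => s + ((n : ℤ) + 1)) with hI2
  have hsub : S.erase s ⊆ I1 ∪ I2 := by
    intro t ht
    rw [Finset.mem_erase] at ht
    have h := hle t ht.2
    rw [Finset.mem_union]
    rcases lt_or_gt_of_ne ht.1 with h' | h'
    · left
      rw [hI1, Finset.mem_image]
      refine ⟨(s - t).natAbs - 1, ?_, ?_⟩
      · rw [Finset.mem_range]; omega
      · omega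
    · right
      rw [hI2, Finset.mem_image]
      refine ⟨(s - t).natAbs - 1, ?_, ?_⟩
      · rw [Finset.mem_range]; omega
      · omega
  have hdisj : Disjoint I1 I2 := by
    rw [Finset.disjoint_left]
    intro t ht1 ht2
    rw [hI1, Finset.mem_image] at ht1
    rw [hI2, Finset.mem_image] at ht2
    obtain ⟨a, _, ha⟩ := ht1
    obtain ⟨c, _, hc⟩ := ht2
    omega
  have hs1 : ∑ t ∈ I1, w (s - t).natAbs = ∑ n ∈ range m, w (n + 1) := by
    rw [hI1, Finset.sum_image]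
    · refine Finset.sum_congr rfl fun n _ => ?_
      congr 1
      omega
    · intro a _ c _ h
      simp only at h
      omega
  have hs2 : ∑ t ∈ I2, w (s - t).natAbs = ∑ n ∈ range m, w (n + 1) := by
    rw [hI2, Finset.sum_image]
    · refine Finset.sum_congr rfl fun n _ => ?_
      congr 1
      omega
    · intro a _ c _ h
      simp only at h
      omega
  calc ∑ t ∈ S.erase s, w (s - t).natAbs ≤ ∑ t ∈ I1 ∪ I2, w (s - t).natAbs :=
        Finset.sum_le_sum_of_subset_of_nonneg hsub fun _ _ _ => hw _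
    _ = ∑ t ∈ I1, w (s - t).natAbs + ∑ t ∈ I2, w (s - t).natAbs :=
        Finset.sum_union hdisj
    _ ≤ 2 * c := by
        rw [hs1, hs2]
        have := hc m
        linarith

lemma GM_pow (m : ℕ) : ((m : ℝ) + 1) ^ 2 ≤ 16 ^ m := by
  induction m with
  | zero => norm_num
  | succ m ih =>
    have h0 : (0 : ℝ) ≤ m := Nat.cast_nonneg m
    have h1 : (16 : ℝ) ^ (m + 1) = 16 * 16 ^ m := by ring
    rw [h1]
    push_cast
    nlinarith

lemma GM_sum_natAbs {q : ℝ} (h0 : 0 ≤ q) (h1 : q ≤ 1 / 32) (S : Finset ℤ) (s : ℤ) :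
    ∑ t ∈ S.erase s, ((s - t).natAbs : ℝ) ^ 2 * q ^ (s - t).natAbs ≤ 4 * q := by
  have hterm : ∀ n : ℕ, ((n + 1 : ℕ) : ℝ) ^ 2 * q ^ (n + 1) ≤ q * (1 / 2) ^ n := by
    intro n
    have h2 : q ^ n ≤ (1 / 32) ^ n := pow_le_pow_left₀ h0 h1 n
    have h3 := GM_pow n
    calc ((n + 1 : ℕ) : ℝ) ^ 2 * q ^ (n + 1) = q * (((n : ℝ) + 1) ^ 2 * q ^ n) := by
          push_cast; ring
      _ ≤ q * (16 ^ n * (1 / 32) ^ n) := by gcongr
      _ = q * (1 / 2) ^ n := by
          rw [← mul_pow]; norm_num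
  have hsum : ∀ m : ℕ, ∑ n ∈ range m, ((n + 1 : ℕ) : ℝ) ^ 2 * q ^ (n + 1) ≤ 2 * q := by
    intro m
    have h4 : ∀ m : ℕ, ∑ n ∈ range m, q * (1 / 2 : ℝ) ^ n = 2 * q * (1 - (1 / 2) ^ m) := by
      intro m
      induction m with
      | zero => simp
      | succ m ih =>
        rw [Finset.sum_range_succ, ih, pow_succ]; ring
    refine (Finset.sum_le_sum fun n _ => hterm n).trans ?_
    rw [h4]
    have : (0 : ℝ) ≤ (1 / 2) ^ m := by positivity
    nlinarith
  have := GM_sum_gen (fun n => (n : ℝ) ^ 2 * q ^ n) (fun n => by positivity) (2 * q)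
    (fun m => by simpa using hsum m) S s
  refine le_trans (le_of_eq ?_) (this.trans (le_of_eq (by ring)))
  rfl

/-- the choice of the value `s` and of the tilting parameter `L` -/
lemma GM_choice {ι : Type} (P : Finset ι) (F : ι → ℤ) (K : ℕ) (τ : ℝ) (hτ : 0 < τ)
    (hτ2 : τ ≤ 1 / 2) (hP : P.Nonempty) (hF : ∀ i ∈ P, |F i| ≤ 2 * (K : ℤ)) :
    ∃ (s : ℤ) (L : ℝ), 0 ≤ L ∧ L ≤ (8 * K + 1) * Real.log (16 / τ) ∧ (∃ i ∈ P, F i = s) ∧
      ∑ i ∈ P, ((F i : ℝ) - s) ^ 2 * Real.exp (L * F i) ≤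
        τ / 4 * ∑ i ∈ P, Real.exp (L * F i) := by
  classical
  obtain ⟨Λ, hΛ⟩ : ∃ Λ : ℝ, Λ = 2 * Real.log (16 / τ) := ⟨_, rfl⟩
  have h16 : (1 : ℝ) < 16 / τ := by
    rw [lt_div_iff₀ hτ]; linarith
  have hlog : 0 < Real.log (16 / τ) := Real.log_pos h16
  have hΛpos : 0 < Λ := by rw [hΛ]; linarith
  obtain ⟨q, hq⟩ : ∃ q : ℝ, q = τ / 16 := ⟨_, rfl⟩
  have hq0 : 0 < q := by rw [hq]; positivity
  have hq1 : q ≤ 1 / 2 := by rw [hq]; linarith
  have hqexp : q = Real.exp (-(Λ / 2)) := by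
    rw [hΛ]
    have : -(2 * Real.log (16 / τ) / 2) = Real.log (τ / 16) := by
      rw [show τ / 16 = (16 / τ)⁻¹ by rw [inv_div], Real.log_inv]; ring
    rw [this, ← hq, Real.exp_log hq0]
  obtain ⟨S, hS⟩ : ∃ S : Finset ℤ, S = Finset.Icc (-(2 * (K : ℤ))) (2 * K) := ⟨_, rfl⟩
  have hFS : ∀ i ∈ P, F i ∈ S := by
    intro i hi
    have := abs_le.mp (hF i hi)
    rw [hS, Finset.mem_Icc]
    exact this
  obtain ⟨p, hp⟩ : ∃ p : ℤ → ℝ, p = fun s => ((P.filter fun i => F i = s).card : ℝ) := ⟨_, rfl⟩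
  have hSne : S.Nonempty := by
    obtain ⟨i, hi⟩ := hP
    exact ⟨F i, hFS i hi⟩
  have hmax : ∀ j : ℕ, ∃ s ∈ S, ∀ t ∈ S,
      p t * Real.exp (j * Λ * t) ≤ p s * Real.exp (j * Λ * s) := fun j =>
    Finset.exists_max_image S (fun t => p t * Real.exp (j * Λ * t)) hSne
  choose β hβS hβ using hmax
  have hβpos : ∀ j, 0 < p (β j) := by
    intro j
    obtain ⟨i, hi⟩ := hP
    have h1 : 0 < p (F i) := by
      rw [hp]
      simp only
      rw [Nat.cast_pos, Finset.card_pos]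
      exact ⟨i, by simp [hi]⟩
    have h2 := hβ j (F i) (hFS i hi)
    have h3 : 0 < p (F i) * Real.exp (j * Λ * (F i : ℝ)) := mul_pos h1 (Real.exp_pos _)
    have h4 : 0 < p (β j) * Real.exp (j * Λ * (β j : ℝ)) := lt_of_lt_of_le h3 h2
    exact pos_of_mul_pos_left h4 (Real.exp_pos _).le
  have hmono : ∀ j, β j ≤ β (j + 1) := by
    intro j
    by_contra h
    push Not at h
    have h1 := hβ j (β (j + 1)) (hβS _)
    have h2 := hβ (j + 1) (β j) (hβS _)
    have h3 : (β (j + 1) : ℝ) < β j := by exact_mod_cast h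
    have e1 : Real.exp (((j + 1 : ℕ) : ℝ) * Λ * (β (j + 1) : ℝ)) =
        Real.exp (j * Λ * (β (j + 1) : ℝ)) * Real.exp (Λ * β (j + 1)) := by
      rw [← Real.exp_add]; congr 1; push_cast; ring
    have e2 : Real.exp (((j + 1 : ℕ) : ℝ) * Λ * (β j : ℝ)) =
        Real.exp (j * Λ * (β j : ℝ)) * Real.exp (Λ * β j) := by
      rw [← Real.exp_add]; congr 1; push_cast; ring
    rw [e1, e2, ← mul_assoc, ← mul_assoc] at h2
    have h4 : Real.exp (Λ * β (j + 1)) < Real.exp (Λ * β j) := by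
      apply Real.exp_lt_exp.mpr
      exact mul_lt_mul_of_pos_left h3 hΛpos
    have h5 : 0 < p (β j) * Real.exp (j * Λ * (β j : ℝ)) :=
      mul_pos (hβpos j) (Real.exp_pos _)
    have h6 : p (β (j + 1)) * Real.exp (j * Λ * (β (j + 1) : ℝ)) * Real.exp (Λ * β (j + 1)) ≤
        p (β j) * Real.exp (j * Λ * (β j : ℝ)) * Real.exp (Λ * β (j + 1)) :=
      mul_le_mul_of_nonneg_right h1 (Real.exp_pos _).le
    have h7 : p (β j) * Real.exp (j * Λ * (β j : ℝ)) * Real.exp (Λ * β (j + 1)) <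
        p (β j) * Real.exp (j * Λ * (β j : ℝ)) * Real.exp (Λ * β j) :=
      mul_lt_mul_of_pos_left h4 h5
    linarith
  have hpig : ∃ j ≤ 4 * K, β j = β (j + 1) := by
    by_contra h
    push Not at h
    have h1 : ∀ j ≤ 4 * K + 1, β 0 + (j : ℤ) ≤ β j := by
      intro j
      induction j with
      | zero => intro _; simp
      | succ j ih =>
        intro hj
        have h2 := ih (by omega)
        have h3 := hmono j
        have h4 := h j (by omega)
        push_cast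
        omega
    have h2 := h1 (4 * K + 1) le_rfl
    have h3 := Finset.mem_Icc.mp (hS ▸ hβS 0)
    have h4 := Finset.mem_Icc.mp (hS ▸ hβS (4 * K + 1))
    push_cast at h2
    omega
  obtain ⟨j, hjK, hjeq⟩ := hpig
  obtain ⟨s, hs⟩ : ∃ s : ℤ, s = β j := ⟨_, rfl⟩
  obtain ⟨L, hL⟩ : ∃ L : ℝ, L = (j + 1 / 2) * Λ := ⟨_, rfl⟩
  have hL0 : 0 ≤ L := by rw [hL]; positivity
  have hkey : ∀ t ∈ S, p t * Real.exp (L * t) ≤
      q ^ (s - t).natAbs * (p s * Real.exp (L * s)) := by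
    intro t ht
    have hqn : q ^ (s - t).natAbs = Real.exp (-(Λ / 2) * ((s - t).natAbs : ℝ)) := by
      rw [hqexp, ← Real.exp_nat_mul]; congr 1; ring
    rcases le_or_gt t s with hts | hts
    · have hn : (((s - t).natAbs : ℕ) : ℝ) = (s : ℝ) - t := by
        have : (((s - t).natAbs : ℕ) : ℤ) = s - t := by omega
        have h' : ((((s - t).natAbs : ℕ) : ℤ) : ℝ) = ((s - t : ℤ) : ℝ) := by rw [this]
        rw [Int.cast_natCast, Int.cast_sub] at h'
        exact h'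
      have h1 := hβ j t ht
      rw [← hs] at h1
      have e1 : Real.exp (L * t) = Real.exp (j * Λ * t) * Real.exp (Λ / 2 * t) := by
        rw [← Real.exp_add, hL]; congr 1; ring
      have e2 : q ^ (s - t).natAbs * (p s * Real.exp (L * s)) =
          (p s * Real.exp (j * Λ * s)) * Real.exp (Λ / 2 * t) := by
        rw [hqn, hn, mul_left_comm, ← Real.exp_add, mul_assoc, ← Real.exp_add, hL]
        congr 2; ring
      rw [e1, e2, ← mul_assoc]
      exact mul_le_mul_of_nonneg_right h1 (Real.exp_pos _).le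
    · have hn : (((s - t).natAbs : ℕ) : ℝ) = (t : ℝ) - s := by
        have : (((s - t).natAbs : ℕ) : ℤ) = t - s := by omega
        have h' : ((((s - t).natAbs : ℕ) : ℤ) : ℝ) = ((t - s : ℤ) : ℝ) := by rw [this]
        rw [Int.cast_natCast, Int.cast_sub] at h'
        exact h'
      have h1 := hβ (j + 1) t ht
      rw [← hjeq, ← hs] at h1
      have e1 : Real.exp (L * t) =
          Real.exp (((j + 1 : ℕ) : ℝ) * Λ * t) * Real.exp (-(Λ / 2 * t)) := by
        rw [← Real.exp_add, hL]; congr 1; push_cast; ring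
      have e2 : q ^ (s - t).natAbs * (p s * Real.exp (L * s)) =
          (p s * Real.exp (((j + 1 : ℕ) : ℝ) * Λ * s)) * Real.exp (-(Λ / 2 * t)) := by
        rw [hqn, hn, mul_left_comm, ← Real.exp_add, mul_assoc, ← Real.exp_add, hL]
        congr 2; push_cast; ring
      rw [e1, e2, ← mul_assoc]
      exact mul_le_mul_of_nonneg_right h1 (Real.exp_pos _).le
  -- sums over the fibres
  have hfib : ∀ g : ℤ → ℝ, ∑ i ∈ P, g (F i) = ∑ t ∈ S, p t * g t := by
    intro g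
    rw [← Finset.sum_fiberwise_of_maps_to hFS]
    refine Finset.sum_congr rfl fun t _ => ?_
    rw [Finset.sum_congr rfl (g := fun _ => g t)]
    · rw [Finset.sum_const, nsmul_eq_mul, hp]
    · intro i hi
      rw [(Finset.mem_filter.mp hi).2]
  have hsS : s ∈ S := hs ▸ hβS j
  obtain ⟨G, hG⟩ : ∃ G : ℝ, G = p s * Real.exp (L * s) := ⟨_, rfl⟩
  have hGpos : 0 < G := by rw [hG, hs]; exact mul_pos (hβpos j) (Real.exp_pos _)
  have hq32 : q ≤ 1 / 32 := by rw [hq]; linarith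
  have hrest : ∑ t ∈ S.erase s, p t * (((t : ℝ) - s) ^ 2 * Real.exp (L * t)) ≤ 4 * q * G := by
    calc ∑ t ∈ S.erase s, p t * (((t : ℝ) - s) ^ 2 * Real.exp (L * t)) ≤
        ∑ t ∈ S.erase s, (((s - t).natAbs : ℝ) ^ 2 * q ^ (s - t).natAbs) * G := by
          refine Finset.sum_le_sum fun t ht => ?_
          have h1 := hkey t (Finset.mem_of_mem_erase ht)
          rw [← hG] at h1
          have h2 : ((t : ℝ) - s) ^ 2 = ((s - t).natAbs : ℝ) ^ 2 := by
            rw [Nat.cast_natAbs]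
            push_cast
            rw [sq_abs]
            ring
          rw [h2]
          calc p t * (((s - t).natAbs : ℝ) ^ 2 * Real.exp (L * t)) =
              ((s - t).natAbs : ℝ) ^ 2 * (p t * Real.exp (L * t)) := by ring
            _ ≤ ((s - t).natAbs : ℝ) ^ 2 * (q ^ (s - t).natAbs * G) :=
                mul_le_mul_of_nonneg_left h1 (by positivity)
            _ = _ := by ring
      _ = (∑ t ∈ S.erase s, ((s - t).natAbs : ℝ) ^ 2 * q ^ (s - t).natAbs) * G := by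
          rw [Finset.sum_mul]
      _ ≤ 4 * q * G := mul_le_mul_of_nonneg_right (GM_sum_natAbs hq0.le hq32 S s) hGpos.le
  have hZ : G ≤ ∑ i ∈ P, Real.exp (L * F i) := by
    rw [hfib fun t => Real.exp (L * t), ← Finset.add_sum_erase S _ hsS, hG]
    have : 0 ≤ ∑ t ∈ S.erase s, p t * Real.exp (L * t) := by
      refine Finset.sum_nonneg fun t _ => mul_nonneg ?_ (Real.exp_pos _).le
      rw [hp]; positivity
    linarith
  have hmom : ∑ i ∈ P, ((F i : ℝ) - s) ^ 2 * Real.exp (L * F i) ≤ 4 * q * G := by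
    rw [hfib fun t => ((t : ℝ) - s) ^ 2 * Real.exp (L * t), ← Finset.add_sum_erase S _ hsS]
    refine le_trans (le_of_eq ?_) hrest
    simp
  refine ⟨s, L, hL0, ?_, ?_, ?_⟩
  · have hj : (j : ℝ) ≤ 4 * K := by exact_mod_cast hjK
    rw [hL, hΛ]
    nlinarith
  · have h1 := hβpos j
    rw [← hs, hp] at h1
    simp only at h1
    rw [Nat.cast_pos, Finset.card_pos] at h1
    obtain ⟨i, hi⟩ := h1
    exact ⟨i, (Finset.mem_filter.mp hi).1, (Finset.mem_filter.mp hi).2⟩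
  · refine hmom.trans ?_
    have h4 : 4 * q = τ / 4 := by rw [hq]; ring
    rw [h4]
    exact mul_le_mul_of_nonneg_left hZ (by positivity)

theorem GM_proof : Stmt_Norm → Stmt_Conc → Stmt_GM := by
  intro hNorm hConc
  refine ⟨3000, by norm_num, ?_⟩
  intro X Y N A B K r b σ τ hK hr hA hB hBdd hb hrk hσr hmom hτ0 hτ1
  have hK1 : (1 : ℝ) ≤ K := by exact_mod_cast hK
  have hr1 : (1 : ℝ) ≤ r := by exact_mod_cast hr
  have hsr : 1 ≤ √(r : ℝ) := by rw [Real.one_le_sqrt]; exact hr1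
  have hσ0 : 0 < σ := by
    by_contra hcon
    push Not at hcon
    have : 16 * √(2 * (r : ℝ)) * σ ≤ 0 :=
      mul_nonpos_of_nonneg_of_nonpos (by positivity) hcon
    linarith
  obtain ⟨ι, hι, u, v, A₁, hA₁, B₁, hB₁, hcA, hcB, huv, hu, hv⟩ :=
    hNorm X Y N A B r b σ hr hA hB hrk hσ0.le hmom
  have hAc : (0 : ℝ) < A.card := by exact_mod_cast hA.card_pos
  have hBc : (0 : ℝ) < B.card := by exact_mod_cast hB.card_pos
  have hA₁c : (0 : ℝ) < A₁.card := by linarith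
  have hB₁c : (0 : ℝ) < B₁.card := by linarith
  have hA₁n : A₁.Nonempty := by rw [← Finset.card_pos]; exact_mod_cast hA₁c
  have hB₁n : B₁.Nonempty := by rw [← Finset.card_pos]; exact_mod_cast hB₁c
  obtain ⟨s, L, hL0, hL1, ⟨i, hi, his⟩, hconc⟩ := GM_choice (A₁ ×ˢ B₁)
    (fun p : X × Y => N p.1 p.2 - b) K τ hτ0 hτ1 (hA₁n.product hB₁n) (by
      intro p hp
      rw [Finset.mem_product] at hp
      have h1 := hBdd p.1 (hA₁ hp.1) p.2 (hB₁ hp.2)
      have h2 := abs_sub (N p.1 p.2) b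
      omega)
  have hb' : |b + s| ≤ (K : ℤ) := by
    rw [Finset.mem_product] at hi
    rw [← his]
    have := hBdd i.1 (hA₁ hi.1) i.2 (hB₁ hi.2)
    simpa using this
  obtain ⟨D, hD⟩ : ∃ D : ℝ, D = 16 * √(2 * r) * σ := ⟨_, rfl⟩
  have hD0 : 0 ≤ D := by rw [hD]; positivity
  obtain ⟨A', hA', B', hB', hA'n, hB'n, hmom', hsz⟩ := hConc X Y ι N A₁ B₁ b (b + s) u v D L
    τ hA₁n hB₁n hD0 hL0 hτ0 huv
    (by rw [hD]; exact hu) (by rw [hD]; exact hv) (by
      have := hconc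
      rw [Finset.sum_product, Finset.sum_product] at this
      push_cast at this ⊢
      refine le_trans (le_of_eq ?_) this
      refine Finset.sum_congr rfl fun x _ => Finset.sum_congr rfl fun y _ => ?_
      congr 2
      ring)
  refine ⟨b + s, hb', A', hA'.trans hA₁, B', hB'.trans hB₁, hA'n, hB'n, hmom', ?_⟩
  refine le_trans ?_ hsz
  have h256 : Real.exp (-1) * ((A.card : ℝ) * B.card) ≤ (A₁.card : ℝ) * B₁.card := by
    have h1 : Real.exp (-1) ≤ 225 / 256 := by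
      have := Real.exp_neg_one_lt_d9
      linarith
    calc Real.exp (-1) * ((A.card : ℝ) * B.card) ≤ 225 / 256 * ((A.card : ℝ) * B.card) := by
          gcongr
      _ = (15 / 16 * (A.card : ℝ)) * (15 / 16 * (B.card : ℝ)) := by ring
      _ ≤ (A₁.card : ℝ) * B₁.card := by gcongr
  have hs2 : √(2 * (r : ℝ)) ≤ 1.415 * √r := by
    rw [Real.sqrt_mul (by norm_num)]
    have h2 : √(2 : ℝ) ≤ 1.415 := by
      rw [Real.sqrt_le_iff]; norm_num
    gcongr
  obtain ⟨hl1, hl2⟩ := GSL_logs hτ0 hτ1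
  obtain ⟨ℓ, hℓ⟩ : ∃ ℓ : ℝ, ℓ = Real.log (2 / τ) := ⟨_, rfl⟩
  rw [← hℓ] at hl1 hl2 ⊢
  have hLl : L ≤ 45 / 2 * K * ℓ := by
    have h1 : (8 * (K : ℝ) + 1) ≤ 9 * K := by linarith
    have h2 : (8 * (K : ℝ) + 1) * Real.log (16 / τ) ≤ 9 * K * (5 / 2 * ℓ) := by
      apply mul_le_mul h1 hl2 _ (by positivity)
      apply Real.log_nonneg
      rw [le_div_iff₀ hτ0]
      linarith
    linarith
  have hD1 : 1 ≤ D := by rw [hD]; exact hσr
  have hDs : D ≤ 22.64 * (√r * σ) := by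
    rw [hD]
    calc 16 * √(2 * (r : ℝ)) * σ ≤ 16 * (1.415 * √r) * σ := by gcongr
      _ = _ := by ring
  have hcost : 1 + (6 + 5 * L * D) ≤ 3000 * K * √r * σ * ℓ := by
    have hKl : 1 ≤ K * ℓ := by nlinarith
    have h7 : (7 : ℝ) ≤ 7 * (K * ℓ) * D := by
      calc (7 : ℝ) = 7 * 1 * 1 := by norm_num
        _ ≤ 7 * (K * ℓ) * D := by gcongr
    have h5 : 5 * L * D ≤ 112.5 * (K * ℓ) * D := by
      calc 5 * L * D ≤ 5 * (45 / 2 * K * ℓ) * D := by gcongr
        _ = _ := by ring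
    calc 1 + (6 + 5 * L * D) ≤ 119.5 * (K * ℓ) * D := by linarith
      _ ≤ 119.5 * (K * ℓ) * (22.64 * (√r * σ)) := by gcongr
      _ = 2705.48 * (K * √r * σ * ℓ) := by ring
      _ ≤ 3000 * (K * √r * σ * ℓ) := by
          have : 0 ≤ K * √r * σ * ℓ := by positivity
          linarith
      _ = _ := by ring
  calc Real.exp (-(3000 * K * √r * σ * ℓ)) * ((A.card : ℝ) * B.card)
      ≤ Real.exp (-(1 + (6 + 5 * L * D))) * ((A.card : ℝ) * B.card) := by gcongr
    _ = Real.exp (-(6 + 5 * L * D)) * (Real.exp (-1) * ((A.card : ℝ) * B.card)) := by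
        rw [show -(1 + (6 + 5 * L * D)) = -(6 + 5 * L * D) + -1 by ring, Real.exp_add]; ring
    _ ≤ Real.exp (-(6 + 5 * L * D)) * ((A₁.card : ℝ) * B₁.card) := by gcongr

end Pool.Agent.BddInt
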