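import Pool.Agent.BddInt.Basic
import Pool.Agent.BddInt.Stmts

/-!
Module GSL: amplification step.
-/

namespace Pool.Agent.BddInt

open Finset

lemma GSL_geom {q : ℝ} (h0 : 0 ≤ q) (h1 : q ≤ 1 / 2) (m : ℕ) :
    ∑ n ∈ range m, q ^ (n + 1) ≤ 2 * q * (1 - (1 / 2) ^ m) := by
  induction m with
  | zero => simp
  | succ m ih =>
    rw [Finset.sum_range_succ]
    have h2 : q ^ (m + 1) ≤ q * (1 / 2) ^ m := by
      rw [pow_succ, mul_comm]
      exact mul_le_mul_of_nonneg_left (pow_le_pow_left₀ h0 h1 m) h0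
    have h3 : (2 : ℝ) * q * (1 - (1 / 2) ^ (m + 1)) =
        2 * q * (1 - (1 / 2) ^ m) + q * (1 / 2) ^ m := by
      rw [pow_succ]; ring
    rw [h3]
    linarith

lemma GSL_geom' {q : ℝ} (h0 : 0 ≤ q) (h1 : q ≤ 1 / 2) (m : ℕ) :
    ∑ n ∈ range m, q ^ (n + 1) ≤ 2 * q := by
  refine (GSL_geom h0 h1 m).trans ?_
  have : (0 : ℝ) ≤ (1 / 2) ^ m := by positivity
  nlinarith

lemma GSL_sum_natAbs {q : ℝ} (h0 : 0 ≤ q) (h1 : q ≤ 1 / 2) (S : Finset ℤ) (s : ℤ) :
    ∑ t ∈ S.erase s, q ^ (s - t).natAbs ≤ 4 * q := by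
  classical
  set m : ℕ := S.sup (fun t => (s - t).natAbs) with hm
  have hle : ∀ t ∈ S, (s - t).natAbs ≤ m := fun t ht =>
    Finset.le_sup (f := fun t => (s - t).natAbs) ht
  set I1 : Finset ℤ := (range m).image (fun n : ℕ => s - ((n : ℤ) + 1)) with hI1
  set I2 : Finset ℤ := (range m).image (fun n : ℕ => s + ((n : ℤ) + 1)) with hI2
  have hsub : S.erase s ⊆ I1 ∪ I2 := by
    intro t ht
    rw [Finset.mem_erase] at ht
    have h := hle t ht.2
    rw [Finset.mem_union]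
    rcases lt_or_gt_of_ne ht.1 with h' | h'
    · left
      rw [hI1, Finset.mem_image]
      refine ⟨(s - t).natAbs - 1, ?_, ?_⟩
      · rw [Finset.mem_range]; omega
      · omega
    · right
      rw [hI2, Finset.mem_image]
      refine ⟨(s - t).natAbs - 1, ?_, ?_⟩
      · rw [Finset.mem_range]; omega
      · omega
  have hdisj : Disjoint I1 I2 := by
    rw [Finset.disjoint_left]
    intro t ht1 ht2
    rw [hI1, Finset.mem_image] at ht1
    rw [hI2, Finset.mem_image] at ht2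
    obtain ⟨a, _, ha⟩ := ht1
    obtain ⟨c, _, hc⟩ := ht2
    omega
  have hs1 : ∑ t ∈ I1, q ^ (s - t).natAbs = ∑ n ∈ range m, q ^ (n + 1) := by
    rw [hI1, Finset.sum_image]
    · refine Finset.sum_congr rfl fun n _ => ?_
      congr 1
      omega
    · intro a _ c _ h
      simp only at h
      omega
  have hs2 : ∑ t ∈ I2, q ^ (s - t).natAbs = ∑ n ∈ range m, q ^ (n + 1) := by
    rw [hI2, Finset.sum_image]
    · refine Finset.sum_congr rfl fun n _ => ?_
      congr 1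
      omega
    · intro a _ c _ h
      simp only at h
      omega
  calc ∑ t ∈ S.erase s, q ^ (s - t).natAbs ≤ ∑ t ∈ I1 ∪ I2, q ^ (s - t).natAbs :=
        Finset.sum_le_sum_of_subset_of_nonneg hsub fun _ _ _ => by positivity
    _ = ∑ t ∈ I1, q ^ (s - t).natAbs + ∑ t ∈ I2, q ^ (s - t).natAbs :=
        Finset.sum_union hdisj
    _ ≤ 4 * q := by
        rw [hs1, hs2]
        have := GSL_geom' h0 h1 m
        linarith

/-- the choice of the value `s` and of the tilting parameter `L` -/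
lemma GSL_choice {ι : Type} (P : Finset ι) (F : ι → ℤ) (K : ℕ) (τ : ℝ) (hτ : 0 < τ)
    (hτ2 : τ ≤ 1 / 2) (hP : P.Nonempty) (hF : ∀ i ∈ P, |F i| ≤ 2 * (K : ℤ)) :
    ∃ (s : ℤ) (L : ℝ), 0 ≤ L ∧ L ≤ (8 * K + 1) * Real.log (16 / τ) ∧
      1 / 4 * (Real.exp (-(2 * K * L)) * P.card) ≤
        3 / 4 * ∑ i ∈ P, (if F i = s then Real.exp (L * F i) else 0) -
          ∑ i ∈ P, (if F i = s then 0 else 1 / τ * Real.exp (L * F i)) := by
  classical
  obtain ⟨Λ, hΛ⟩ : ∃ Λ : ℝ, Λ = 2 * Real.log (16 / τ) := ⟨_, rfl⟩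
  have h16 : (1 : ℝ) < 16 / τ := by
    rw [lt_div_iff₀ hτ]; linarith
  have hlog : 0 < Real.log (16 / τ) := Real.log_pos h16
  have hΛpos : 0 < Λ := by rw [hΛ]; linarith
  obtain ⟨q, hq⟩ : ∃ q : ℝ, q = τ / 16 := ⟨_, rfl⟩
  have hq0 : 0 < q := by rw [hq]; positivity
  have hq1 : q ≤ 1 / 2 := by rw [hq]; linarith
  have hqexp : q = Real.exp (-(Λ / 2)) := by
    rw [hΛ]
    have : -(2 * Real.log (16 / τ) / 2) = Real.log (τ / 16) := by
      rw [show τ / 16 = (16 / τ)⁻¹ by rw [inv_div], Real.log_inv]; ring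
    rw [this, ← hq, Real.exp_log hq0]
  obtain ⟨S, hS⟩ : ∃ S : Finset ℤ, S = Finset.Icc (-(2 * (K : ℤ))) (2 * K) := ⟨_, rfl⟩
  have hFS : ∀ i ∈ P, F i ∈ S := by
    intro i hi
    have := abs_le.mp (hF i hi)
    rw [hS, Finset.mem_Icc]
    exact this
  obtain ⟨p, hp⟩ : ∃ p : ℤ → ℝ, p = fun s => ((P.filter fun i => F i = s).card : ℝ) := ⟨_, rfl⟩
  have hSne : S.Nonempty := by
    obtain ⟨i, hi⟩ := hP
    exact ⟨F i, hFS i hi⟩
  have hmax : ∀ j : ℕ, ∃ s ∈ S, ∀ t ∈ S,
      p t * Real.exp (j * Λ * t) ≤ p s * Real.exp (j * Λ * s) := fun j =>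
    Finset.exists_max_image S (fun t => p t * Real.exp (j * Λ * t)) hSne
  choose β hβS hβ using hmax
  have hβpos : ∀ j, 0 < p (β j) := by
    intro j
    obtain ⟨i, hi⟩ := hP
    have h1 : 0 < p (F i) := by
      rw [hp]
      simp only
      rw [Nat.cast_pos, Finset.card_pos]
      exact ⟨i, by simp [hi]⟩
    have h2 := hβ j (F i) (hFS i hi)
    have h3 : 0 < p (F i) * Real.exp (j * Λ * (F i : ℝ)) := mul_pos h1 (Real.exp_pos _)
    have h4 : 0 < p (β j) * Real.exp (j * Λ * (β j : ℝ)) := lt_of_lt_of_le h3 h2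
    exact pos_of_mul_pos_left h4 (Real.exp_pos _).le
  have hmono : ∀ j, β j ≤ β (j + 1) := by
    intro j
    by_contra h
    push Not at h
    have h1 := hβ j (β (j + 1)) (hβS _)
    have h2 := hβ (j + 1) (β j) (hβS _)
    have h3 : (β (j + 1) : ℝ) < β j := by exact_mod_cast h
    have e1 : Real.exp (((j + 1 : ℕ) : ℝ) * Λ * (β (j + 1) : ℝ)) =
        Real.exp (j * Λ * (β (j + 1) : ℝ)) * Real.exp (Λ * β (j + 1)) := by
      rw [← Real.exp_add]; congr 1; push_cast; ring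
    have e2 : Real.exp (((j + 1 : ℕ) : ℝ) * Λ * (β j : ℝ)) =
        Real.exp (j * Λ * (β j : ℝ)) * Real.exp (Λ * β j) := by
      rw [← Real.exp_add]; congr 1; push_cast; ring
    rw [e1, e2, ← mul_assoc, ← mul_assoc] at h2
    have h4 : Real.exp (Λ * β (j + 1)) < Real.exp (Λ * β j) := by
      apply Real.exp_lt_exp.mpr
      exact mul_lt_mul_of_pos_left h3 hΛpos
    have h5 : 0 < p (β j) * Real.exp (j * Λ * (β j : ℝ)) :=
      mul_pos (hβpos j) (Real.exp_pos _)
    have h6 : p (β (j + 1)) * Real.exp (j * Λ * (β (j + 1) : ℝ)) * Real.exp (Λ * β (j + 1)) ≤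
        p (β j) * Real.exp (j * Λ * (β j : ℝ)) * Real.exp (Λ * β (j + 1)) :=
      mul_le_mul_of_nonneg_right h1 (Real.exp_pos _).le
    have h7 : p (β j) * Real.exp (j * Λ * (β j : ℝ)) * Real.exp (Λ * β (j + 1)) <
        p (β j) * Real.exp (j * Λ * (β j : ℝ)) * Real.exp (Λ * β j) :=
      mul_lt_mul_of_pos_left h4 h5
    linarith
  have hpig : ∃ j ≤ 4 * K, β j = β (j + 1) := by
    by_contra h
    push Not at h
    have h1 : ∀ j ≤ 4 * K + 1, β 0 + (j : ℤ) ≤ β j := by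
      intro j
      induction j with
      | zero => intro _; simp
      | succ j ih =>
        intro hj
        have h2 := ih (by omega)
        have h3 := hmono j
        have h4 := h j (by omega)
        push_cast
        omega
    have h2 := h1 (4 * K + 1) le_rfl
    have h3 := Finset.mem_Icc.mp (hS ▸ hβS 0)
    have h4 := Finset.mem_Icc.mp (hS ▸ hβS (4 * K + 1))
    push_cast at h2
    omega
  obtain ⟨j, hjK, hjeq⟩ := hpig
  obtain ⟨s, hs⟩ : ∃ s : ℤ, s = β j := ⟨_, rfl⟩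
  obtain ⟨L, hL⟩ : ∃ L : ℝ, L = (j + 1 / 2) * Λ := ⟨_, rfl⟩
  have hL0 : 0 ≤ L := by rw [hL]; positivity
  have hkey : ∀ t ∈ S, p t * Real.exp (L * t) ≤
      q ^ (s - t).natAbs * (p s * Real.exp (L * s)) := by
    intro t ht
    have hqn : q ^ (s - t).natAbs = Real.exp (-(Λ / 2) * ((s - t).natAbs : ℝ)) := by
      rw [hqexp, ← Real.exp_nat_mul]; congr 1; ring
    rcases le_or_gt t s with hts | hts
    · have hn : (((s - t).natAbs : ℕ) : ℝ) = (s : ℝ) - t := by
        have : (((s - t).natAbs : ℕ) : ℤ) = s - t := by omega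
        have h' : ((((s - t).natAbs : ℕ) : ℤ) : ℝ) = ((s - t : ℤ) : ℝ) := by rw [this]
        rw [Int.cast_natCast, Int.cast_sub] at h'
        exact h'
      have h1 := hβ j t ht
      rw [← hs] at h1
      have e1 : Real.exp (L * t) = Real.exp (j * Λ * t) * Real.exp (Λ / 2 * t) := by
        rw [← Real.exp_add, hL]; congr 1; ring
      have e2 : q ^ (s - t).natAbs * (p s * Real.exp (L * s)) =
          (p s * Real.exp (j * Λ * s)) * Real.exp (Λ / 2 * t) := by
        rw [hqn, hn, mul_left_comm, ← Real.exp_add, mul_assoc, ← Real.exp_add, hL]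
        congr 2; ring
      rw [e1, e2, ← mul_assoc]
      exact mul_le_mul_of_nonneg_right h1 (Real.exp_pos _).le
    · have hn : (((s - t).natAbs : ℕ) : ℝ) = (t : ℝ) - s := by
        have : (((s - t).natAbs : ℕ) : ℤ) = t - s := by omega
        have h' : ((((s - t).natAbs : ℕ) : ℤ) : ℝ) = ((t - s : ℤ) : ℝ) := by rw [this]
        rw [Int.cast_natCast, Int.cast_sub] at h'
        exact h'
      have h1 := hβ (j + 1) t ht
      rw [← hjeq, ← hs] at h1
      have e1 : Real.exp (L * t) =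
          Real.exp (((j + 1 : ℕ) : ℝ) * Λ * t) * Real.exp (-(Λ / 2 * t)) := by
        rw [← Real.exp_add, hL]; congr 1; push_cast; ring
      have e2 : q ^ (s - t).natAbs * (p s * Real.exp (L * s)) =
          (p s * Real.exp (((j + 1 : ℕ) : ℝ) * Λ * s)) * Real.exp (-(Λ / 2 * t)) := by
        rw [hqn, hn, mul_left_comm, ← Real.exp_add, mul_assoc, ← Real.exp_add, hL]
        congr 2; push_cast; ring
      rw [e1, e2, ← mul_assoc]
      exact mul_le_mul_of_nonneg_right h1 (Real.exp_pos _).le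
  -- sums over the fibres
  have hfib : ∀ g : ℤ → ℝ, ∑ i ∈ P, g (F i) = ∑ t ∈ S, p t * g t := by
    intro g
    rw [← Finset.sum_fiberwise_of_maps_to hFS]
    refine Finset.sum_congr rfl fun t _ => ?_
    rw [Finset.sum_congr rfl (g := fun _ => g t)]
    · rw [Finset.sum_const, nsmul_eq_mul, hp]
    · intro i hi
      rw [(Finset.mem_filter.mp hi).2]
  have hsS : s ∈ S := hs ▸ hβS j
  obtain ⟨G, hG⟩ : ∃ G : ℝ, G = p s * Real.exp (L * s) := ⟨_, rfl⟩
  have hGpos : 0 < G := by rw [hG, hs]; exact mul_pos (hβpos j) (Real.exp_pos _)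
  have hrest : ∑ t ∈ S.erase s, p t * Real.exp (L * t) ≤ 4 * q * G := by
    calc ∑ t ∈ S.erase s, p t * Real.exp (L * t) ≤
        ∑ t ∈ S.erase s, q ^ (s - t).natAbs * G :=
          Finset.sum_le_sum fun t ht => hG ▸ hkey t (Finset.mem_of_mem_erase ht)
      _ = (∑ t ∈ S.erase s, q ^ (s - t).natAbs) * G := by rw [Finset.sum_mul]
      _ ≤ 4 * q * G := mul_le_mul_of_nonneg_right (GSL_sum_natAbs hq0.le hq1 S s) hGpos.le
  have hZ : ∑ i ∈ P, Real.exp (L * F i) = G + ∑ t ∈ S.erase s, p t * Real.exp (L * t) := by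
    rw [hfib fun t => Real.exp (L * t), ← Finset.add_sum_erase S _ hsS, hG]
  have hgood : ∑ i ∈ P, (if F i = s then Real.exp (L * F i) else 0) = G := by
    rw [hfib (fun t => if t = s then Real.exp (L * t) else 0)]
    rw [Finset.sum_eq_single s]
    · simp [hG]
    · intro t _ hts
      simp [hts]
    · intro h; exact absurd hsS h
  have hbad : ∑ i ∈ P, (if F i = s then 0 else 1 / τ * Real.exp (L * F i)) =
      1 / τ * ∑ t ∈ S.erase s, p t * Real.exp (L * t) := by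
    rw [hfib fun t => if t = s then 0 else 1 / τ * Real.exp (L * t),
      ← Finset.add_sum_erase S _ hsS, Finset.mul_sum]
    simp only [if_true, mul_zero, zero_add]
    refine Finset.sum_congr rfl fun t ht => ?_
    rw [if_neg (Finset.ne_of_mem_erase ht)]
    ring
  have hZlow : Real.exp (-(2 * K * L)) * P.card ≤ ∑ i ∈ P, Real.exp (L * F i) := by
    rw [mul_comm, ← nsmul_eq_mul, ← Finset.sum_const]
    refine Finset.sum_le_sum fun i hi => ?_
    apply Real.exp_le_exp.mpr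
    have h1 := (abs_le.mp (hF i hi)).1
    have h2 : -(2 * (K : ℝ)) ≤ (F i : ℝ) := by exact_mod_cast h1
    nlinarith
  refine ⟨s, L, hL0, ?_, ?_⟩
  · have hj : (j : ℝ) ≤ 4 * K := by exact_mod_cast hjK
    rw [hL, hΛ]
    nlinarith
  · rw [hgood, hbad]
    have h1 : 1 / τ * ∑ t ∈ S.erase s, p t * Real.exp (L * t) ≤ 1 / 4 * G := by
      calc 1 / τ * ∑ t ∈ S.erase s, p t * Real.exp (L * t) ≤ 1 / τ * (4 * q * G) :=
            mul_le_mul_of_nonneg_left hrest (by positivity)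
        _ = 1 / 4 * G := by rw [hq]; field_simp; ring
    have h2 : ∑ i ∈ P, Real.exp (L * F i) ≤ 2 * G := by
      rw [hZ]
      have : 4 * q * G ≤ 1 * G := by
        apply mul_le_mul_of_nonneg_right _ hGpos.le
        rw [hq]; linarith
      linarith
    linarith

lemma GSL_markov {α : Type} [Fintype α] (f : α → ℝ) (hf : ∀ x, 0 ≤ f x) (T : ℝ) (hT : 0 ≤ T)
    (h : ∑ x, f x ≤ T * Fintype.card α) :
    15 / 16 * (Fintype.card α : ℝ) ≤ ((univ.filter fun x => f x ≤ 16 * T).card : ℝ) := by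
  classical
  have h1 : (univ.filter fun x => f x ≤ 16 * T).card +
      (univ.filter fun x => ¬ f x ≤ 16 * T).card = Fintype.card α := by
    rw [Finset.card_filter_add_card_filter_not, Finset.card_univ]
  have h1' : ((univ.filter fun x => f x ≤ 16 * T).card : ℝ) +
      ((univ.filter fun x => ¬ f x ≤ 16 * T).card : ℝ) = Fintype.card α := by
    exact_mod_cast h1
  suffices h2 : 16 * ((univ.filter fun x => ¬ f x ≤ 16 * T).card : ℝ) ≤ Fintype.card α by
    linarith
  rcases hT.eq_or_lt with hT0 | hT0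
  · have h3 : ∀ x, f x = 0 := by
      intro x
      have h4 : f x ≤ ∑ x, f x := Finset.single_le_sum (fun y _ => hf y) (Finset.mem_univ x)
      rw [← hT0, zero_mul] at h
      exact le_antisymm (h4.trans h) (hf x)
    have h5 : (univ.filter fun x => ¬ f x ≤ 16 * T) = ∅ := by
      rw [Finset.filter_eq_empty_iff]
      intro x _
      rw [h3 x, ← hT0]
      simp
    rw [h5]
    simp
  · have h3 : ((univ.filter fun x => ¬ f x ≤ 16 * T).card : ℝ) * (16 * T) ≤ ∑ x, f x := by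
      rw [← nsmul_eq_mul, ← Finset.sum_const]
      refine (Finset.sum_le_sum (g := f) fun x hx => ?_).trans
        (Finset.sum_le_sum_of_subset_of_nonneg (Finset.filter_subset _ _) fun x _ _ => hf x)
      exact (not_le.mp (Finset.mem_filter.mp hx).2).le
    have h4 : (16 * ((univ.filter fun x => ¬ f x ≤ 16 * T).card : ℝ)) * T ≤
        (Fintype.card α : ℝ) * T := by
      linarith
    exact le_of_mul_le_mul_right h4 hT0

lemma GSL_exp_six : Real.exp (-6) ≤ 225 / 65536 := by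
  have h1 := Real.exp_one_gt_d9
  have h2 : Real.exp 6 = Real.exp 1 ^ 6 := by
    rw [← Real.exp_nat_mul]; norm_num
  have h3 : (65536 / 225 : ℝ) ≤ Real.exp 6 := by
    rw [h2]
    calc (65536 / 225 : ℝ) ≤ 2.7 ^ 6 := by norm_num
      _ ≤ Real.exp 1 ^ 6 := by
          apply pow_le_pow_left₀ (by norm_num)
          linarith
  rw [Real.exp_neg, inv_le_comm₀ (Real.exp_pos _) (by norm_num)]
  rw [inv_div]
  exact h3

lemma GSL_logs {τ : ℝ} (hτ : 0 < τ) (hτ2 : τ ≤ 1 / 2) :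
    1 ≤ Real.log (2 / τ) ∧ Real.log (16 / τ) ≤ 5 / 2 * Real.log (2 / τ) := by
  have h2 : 0 < Real.log 2 := Real.log_pos (by norm_num)
  have h3 := Real.log_two_gt_d9
  have h4 : 2 * Real.log 2 ≤ Real.log (2 / τ) := by
    have : 2 * Real.log 2 = Real.log 4 := by
      rw [show (4 : ℝ) = 2 ^ 2 by norm_num, Real.log_pow]; norm_num
    rw [this]
    apply Real.log_le_log (by norm_num)
    rw [le_div_iff₀ hτ]
    linarith
  have h5 : Real.log (16 / τ) = 3 * Real.log 2 + Real.log (2 / τ) := by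
    have h6 : (16 : ℝ) / τ = 2 ^ 3 * (2 / τ) := by ring
    rw [h6, Real.log_mul (by norm_num) (by positivity), Real.log_pow]
    norm_num
  constructor
  · linarith
  · rw [h5]; linarith

lemma GSL_cost {K L T w ℓ : ℝ} (hK : 1 ≤ K) (hL0 : 0 ≤ L) (hw0 : 0 ≤ w) (hl1 : 1 ≤ ℓ)
    (hT0 : 0 ≤ T) (hTw : T ≤ 3 * K * w) (hLl : L ≤ 45 / 2 * K * ℓ) :
    6 + 2 * K * L + 2 * L * (16 * T + 2 * K) ≤ 3000 * K ^ 2 * ℓ * (w + 1) := by
  have h1 : 2 * K * L + 2 * L * (16 * T + 2 * K) = 2 * L * (3 * K + 16 * T) := by ring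
  have h2 : 2 * L * (3 * K + 16 * T) ≤ 2 * (45 / 2 * K * ℓ) * (3 * K + 48 * (K * w)) := by
    apply mul_le_mul
    · linarith
    · linarith
    · positivity
    · positivity
  have h5 : (1 : ℝ) ≤ K ^ 2 := by nlinarith
  have h3 : (1 : ℝ) ≤ K ^ 2 * ℓ := by
    calc (1 : ℝ) = 1 * 1 := by norm_num
      _ ≤ K ^ 2 * ℓ := mul_le_mul h5 hl1 (by norm_num) (by positivity)
  have h4 : 0 ≤ K ^ 2 * ℓ * w := by positivity
  have h6 : 2 * (45 / 2 * K * ℓ) * (3 * K + 48 * (K * w)) =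
      135 * (K ^ 2 * ℓ) + 2160 * (K ^ 2 * ℓ * w) := by ring
  have h7 : 3000 * K ^ 2 * ℓ * (w + 1) = 3000 * (K ^ 2 * ℓ) + 3000 * (K ^ 2 * ℓ * w) := by ring
  rw [h7]
  linarith

theorem GSL_proof : Stmt_Fact → Stmt_Tilt → Stmt_GSL := by
  intro hFact hTilt
  refine ⟨3000, by norm_num, ?_⟩
  intro X Y N A B K r b η τ hK hr hA hB hBdd hb hrk hη0 hη1 hbad hτ0 hτ1
  classical
  have : Nonempty A := hA.to_subtype
  have : Nonempty B := hB.to_subtype
  obtain ⟨M, hM⟩ : ∃ M : A → B → ℝ, M = fun x y => ((N x.1 y.1 - b : ℤ) : ℝ) := ⟨_, rfl⟩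
  have hrank : (Matrix.of M).rank ≤ 2 * r := by
    have h1 := rk_sub_le N b A B
    have h2 : (Matrix.of M).rank = rk (fun x y => N x y - b) A B := by
      rw [hM]; rfl
    rw [h2]; omega
  obtain ⟨ι, hι, u, v, huv, hu, hv⟩ := hFact A B M (2 * r) hrank
  have hcA : (0 : ℝ) < A.card := by exact_mod_cast hA.card_pos
  have hcB : (0 : ℝ) < B.card := by exact_mod_cast hB.card_pos
  have hK1 : (1 : ℝ) ≤ K := by exact_mod_cast hK
  have hFle : ∀ x ∈ A, ∀ y ∈ B, |N x y - b| ≤ 2 * (K : ℤ) := by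
    intro x hx y hy
    have h1 := hBdd x hx y hy
    have h2 := abs_sub (N x y) b
    omega
  have hsq : ∑ x, ∑ y, M x y ^ 2 ≤ 4 * K ^ 2 * (η * (A.card * B.card)) := by
    have h1 : ∑ x, ∑ y, M x y ^ 2 ≤
        ∑ x : A, ∑ y : B, 4 * (K : ℝ) ^ 2 * (if N x.1 y.1 ≠ b then (1 : ℝ) else 0) := by
      refine Finset.sum_le_sum fun x _ => Finset.sum_le_sum fun y _ => ?_
      rw [hM]
      simp only
      by_cases h : N x.1 y.1 = b
      · simp [h]
      · rw [if_pos h, mul_one]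
        have h2 : |((N x.1 y.1 - b : ℤ) : ℝ)| ≤ 2 * K := by
          exact_mod_cast hFle x.1 x.2 y.1 y.2
        calc ((N x.1 y.1 - b : ℤ) : ℝ) ^ 2 = |((N x.1 y.1 - b : ℤ) : ℝ)| ^ 2 := (sq_abs _).symm
          _ ≤ (2 * K) ^ 2 := pow_le_pow_left₀ (abs_nonneg _) h2 2
          _ = 4 * (K : ℝ) ^ 2 := by ring
    refine h1.trans ?_
    have h2 : ∑ x : A, ∑ y : B, 4 * (K : ℝ) ^ 2 * (if N x.1 y.1 ≠ b then (1 : ℝ) else 0) =
        4 * (K : ℝ) ^ 2 * (bad N b A B : ℝ) := by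
      rw [bad_eq_sum, Finset.mul_sum, ← Finset.sum_coe_sort A]
      refine Finset.sum_congr rfl fun x _ => ?_
      rw [Finset.mul_sum, ← Finset.sum_coe_sort B]
    rw [h2]
    exact mul_le_mul_of_nonneg_left hbad (by positivity)
  obtain ⟨T, hT⟩ : ∃ T : ℝ, T = 2 * K * √(2 * r * η) := ⟨_, rfl⟩
  have hT0 : 0 ≤ T := by rw [hT]; positivity
  have hsqrt : √(((2 * r : ℕ) : ℝ) * ((∑ x, ∑ y, M x y ^ 2) /
      (Fintype.card A * Fintype.card B))) ≤ T := by
    rw [Real.sqrt_le_iff]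
    refine ⟨hT0, ?_⟩
    rw [hT, mul_pow, Real.sq_sqrt (by positivity)]
    rw [Fintype.card_coe, Fintype.card_coe]
    have h1 : (∑ x, ∑ y, M x y ^ 2) / ((A.card : ℝ) * B.card) ≤ 4 * K ^ 2 * η := by
      rw [div_le_iff₀ (by positivity)]
      linarith
    calc ((2 * r : ℕ) : ℝ) * ((∑ x, ∑ y, M x y ^ 2) / ((A.card : ℝ) * B.card)) ≤
        ((2 * r : ℕ) : ℝ) * (4 * K ^ 2 * η) := mul_le_mul_of_nonneg_left h1 (Nat.cast_nonneg _)
      _ = (2 * (K : ℝ)) ^ 2 * (2 * r * η) := by push_cast; ring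
  have hu' : ∑ x, ∑ i, u x i ^ 2 ≤ T * Fintype.card A :=
    hu.trans (mul_le_mul_of_nonneg_right hsqrt (Nat.cast_nonneg _))
  have hv' : ∑ y, ∑ i, v y i ^ 2 ≤ T * Fintype.card B :=
    hv.trans (mul_le_mul_of_nonneg_right hsqrt (Nat.cast_nonneg _))
  have hAm := GSL_markov (fun x => ∑ i, u x i ^ 2) (fun x => by positivity) T hT0 hu'
  have hBm := GSL_markov (fun y => ∑ i, v y i ^ 2) (fun y => by positivity) T hT0 hv'
  obtain ⟨A1, hA1⟩ : ∃ A1 : Finset A, A1 = univ.filter fun x => ∑ i, u x i ^ 2 ≤ 16 * T :=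
    ⟨_, rfl⟩
  obtain ⟨B1, hB1⟩ : ∃ B1 : Finset B, B1 = univ.filter fun y => ∑ i, v y i ^ 2 ≤ 16 * T :=
    ⟨_, rfl⟩
  rw [← hA1, Fintype.card_coe] at hAm
  rw [← hB1, Fintype.card_coe] at hBm
  have hA1pos : (0 : ℝ) < A1.card := by linarith
  have hB1pos : (0 : ℝ) < B1.card := by linarith
  have hPne : (A1 ×ˢ B1).Nonempty := by
    rw [← Finset.card_pos, Finset.card_product]
    exact Nat.mul_pos (by exact_mod_cast hA1pos) (by exact_mod_cast hB1pos)
  obtain ⟨s, L, hL0, hL1, hmain⟩ := GSL_choice (A1 ×ˢ B1)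
    (fun p : A × B => N p.1.1 p.2.1 - b) K τ hτ0 hτ1 hPne
    (fun p _ => hFle p.1.1 p.1.2 p.2.1 p.2.2)
  obtain ⟨W, hW⟩ : ∃ W : A → B → ℝ,
    W = fun x y => if N x.1 y.1 - b = s then (1 : ℝ) else -(1 / τ) := ⟨_, rfl⟩
  obtain ⟨A2, hA2, B2, hB2, hineq⟩ := hTilt A B ι A1 B1 u v W (16 * T) (2 * K) L hL0
    (by positivity)
    (fun x hx => by rw [hA1] at hx; exact (Finset.mem_filter.mp hx).2)
    (fun y hy => by rw [hB1] at hy; exact (Finset.mem_filter.mp hy).2)
    (fun x _ y _ => by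
      rw [huv x y, hM]
      have h2 : |((N x.1 y.1 - b : ℤ) : ℝ)| ≤ 2 * K := by
        exact_mod_cast hFle x.1 x.2 y.1 y.2
      exact (le_abs_self _).trans h2)
  have hτi : (0 : ℝ) < 1 / τ := by positivity
  have hpos : ∑ x ∈ A1, ∑ y ∈ B1, max (W x y) 0 * Real.exp (L * ∑ i, u x i * v y i) =
      ∑ p ∈ A1 ×ˢ B1, (if N p.1.1 p.2.1 - b = s then
        Real.exp (L * ((N p.1.1 p.2.1 - b : ℤ) : ℝ)) else 0) := by
    rw [Finset.sum_product]
    refine Finset.sum_congr rfl fun x _ => Finset.sum_congr rfl fun y _ => ?_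
    rw [huv x y, hM, hW]
    simp only
    split_ifs with h
    · simp
    · rw [max_eq_right (by linarith), zero_mul]
  have hneg : ∑ x ∈ A1, ∑ y ∈ B1, max (-W x y) 0 * Real.exp (L * ∑ i, u x i * v y i) =
      ∑ p ∈ A1 ×ˢ B1, (if N p.1.1 p.2.1 - b = s then 0 else
        1 / τ * Real.exp (L * ((N p.1.1 p.2.1 - b : ℤ) : ℝ))) := by
    rw [Finset.sum_product]
    refine Finset.sum_congr rfl fun x _ => Finset.sum_congr rfl fun y _ => ?_
    rw [huv x y, hM, hW]
    simp only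
    split_ifs with h
    · simp
    · rw [neg_neg, max_eq_left hτi.le]
  rw [hpos, hneg] at hineq
  have hineq2 := hmain.trans hineq
  rw [Finset.card_product] at hineq2
  obtain ⟨A', hA'⟩ : ∃ A' : Finset X, A' = A2.map (Function.Embedding.subtype _) := ⟨_, rfl⟩
  obtain ⟨B', hB'⟩ : ∃ B' : Finset Y, B' = B2.map (Function.Embedding.subtype _) := ⟨_, rfl⟩
  have hA'A : A' ⊆ A := by
    rw [hA']
    intro x hx
    obtain ⟨a, _, rfl⟩ := Finset.mem_map.mp hx
    exact a.2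
  have hB'B : B' ⊆ B := by
    rw [hB']
    intro x hx
    obtain ⟨a, _, rfl⟩ := Finset.mem_map.mp hx
    exact a.2
  have hWsum : ∑ x ∈ A2, ∑ y ∈ B2, W x y =
      (cnt N (b + s) A' B' : ℝ) - 1 / τ * bad N (b + s) A' B' := by
    rw [cnt_eq_sum, bad_eq_sum, hA', hB', Finset.sum_map, Finset.sum_map, Finset.mul_sum,
      ← Finset.sum_sub_distrib]
    refine Finset.sum_congr rfl fun x _ => ?_
    rw [Finset.sum_map, Finset.sum_map, Finset.mul_sum, ← Finset.sum_sub_distrib]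
    refine Finset.sum_congr rfl fun y _ => ?_
    rw [hW]
    simp only [Function.Embedding.subtype_apply]
    by_cases h : N x.1 y.1 = b + s
    · have h' : N x.1 y.1 - b = s := by omega
      simp [h', h]
    · have h' : ¬ N x.1 y.1 - b = s := by omega
      simp [h', h]
  rw [hWsum] at hineq2
  have hcb := cnt_add_bad_real N (b + s) A' B'
  obtain ⟨c, hc⟩ : ∃ c : ℝ, c = (cnt N (b + s) A' B' : ℝ) := ⟨_, rfl⟩
  obtain ⟨d, hd⟩ : ∃ d : ℝ, d = (bad N (b + s) A' B' : ℝ) := ⟨_, rfl⟩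
  have hc0 : 0 ≤ c := by rw [hc]; exact Nat.cast_nonneg _
  have hd0 : 0 ≤ d := by rw [hd]; exact Nat.cast_nonneg _
  rw [← hc, ← hd] at hineq2 hcb
  have hleft : 0 < 1 / 4 * (Real.exp (-(2 * K * L)) * ((A1.card * B1.card : ℕ) : ℝ)) := by
    push_cast
    have := Real.exp_pos (-(2 * K * L))
    positivity
  have hWpos : 0 < c - 1 / τ * d := by
    have h1 := lt_of_lt_of_le hleft hineq2
    exact pos_of_mul_pos_right h1 (by positivity)
  have hdc : d < τ * c := by
    have h1 : d = τ * (1 / τ * d) := by field_simp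
    rw [h1]
    exact mul_lt_mul_of_pos_left (by linarith) hτ0
  have hcpos : 0 < c := by
    have : 0 ≤ 1 / τ * d := by positivity
    linarith
  have hABpos : (0 : ℝ) < (A'.card : ℝ) * B'.card := by rw [← hcb]; linarith
  have hcntpos : 0 < cnt N (b + s) A' B' := by
    rw [hc] at hcpos
    exact_mod_cast hcpos
  have hval : |b + s| ≤ (K : ℤ) := by
    unfold cnt at hcntpos
    rw [Finset.card_pos] at hcntpos
    obtain ⟨p, hp⟩ := hcntpos
    rw [Finset.mem_filter, Finset.mem_product] at hp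
    rw [← hp.2]
    exact hBdd p.1 (hA'A hp.1.1) p.2 (hB'B hp.1.2)
  have hA'ne : A'.Nonempty := by
    rw [← Finset.card_pos]
    by_contra h
    have : A'.card = 0 := by omega
    rw [this] at hABpos
    simp at hABpos
  have hB'ne : B'.Nonempty := by
    rw [← Finset.card_pos]
    by_contra h
    have : B'.card = 0 := by omega
    rw [this] at hABpos
    simp at hABpos
  refine ⟨b + s, hval, A', hA'A, B', hB'B, hA'ne, hB'ne, ?_, ?_⟩
  · rw [← hd, ← hcb, mul_add]
    have : 0 ≤ τ * d := by positivity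
    linarith
  · obtain ⟨hl1, hl2⟩ := GSL_logs hτ0 hτ1
    obtain ⟨ℓ, hℓ⟩ : ∃ ℓ : ℝ, ℓ = Real.log (2 / τ) := ⟨_, rfl⟩
    rw [← hℓ] at hl1 hl2 ⊢
    obtain ⟨w, hw⟩ : ∃ w : ℝ, w = √(r * η) := ⟨_, rfl⟩
    rw [← hw]
    have hw0 : 0 ≤ w := by rw [hw]; positivity
    have hTw : T ≤ 3 * K * w := by
      have h1 : √(2 * r * η) ≤ 3 / 2 * w := by
        rw [Real.sqrt_le_iff]
        refine ⟨by positivity, ?_⟩
        rw [hw, mul_pow, Real.sq_sqrt (by positivity)]
        have : (0 : ℝ) ≤ r * η := by positivity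
        linarith
      calc T = 2 * K * √(2 * r * η) := hT
        _ ≤ 2 * K * (3 / 2 * w) := mul_le_mul_of_nonneg_left h1 (by positivity)
        _ = 3 * K * w := by ring
    have hLl : L ≤ 45 / 2 * K * ℓ := by
      have h1 : (8 * (K : ℝ) + 1) ≤ 9 * K := by linarith
      have h2 : (8 * (K : ℝ) + 1) * Real.log (16 / τ) ≤ 9 * K * (5 / 2 * ℓ) := by
        apply mul_le_mul h1 hl2 _ (by positivity)
        apply Real.log_nonneg
        rw [le_div_iff₀ hτ0]
        linarith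
      linarith
    have hcost : 6 + 2 * K * L + 2 * L * (16 * T + 2 * K) ≤ 3000 * K ^ 2 * ℓ * (w + 1) :=
      GSL_cost hK1 hL0 hw0 hl1 hT0 hTw hLl
    have hstep : 1 / 4 * (Real.exp (-(2 * K * L)) * (225 / 256 * ((A.card : ℝ) * B.card))) ≤
        64 * Real.exp (2 * L * (16 * T + 2 * K)) * ((A'.card : ℝ) * B'.card) := by
      refine le_trans ?_ (hineq2.trans ?_)
      · push_cast
        have h1 : 225 / 256 * ((A.card : ℝ) * B.card) ≤ (A1.card : ℝ) * B1.card := by
          calc 225 / 256 * ((A.card : ℝ) * B.card) =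
              (15 / 16 * (A.card : ℝ)) * (15 / 16 * (B.card : ℝ)) := by ring
            _ ≤ (A1.card : ℝ) * B1.card :=
                mul_le_mul hAm hBm (by positivity) hA1pos.le
        gcongr
      · apply mul_le_mul_of_nonneg_left _ (by positivity)
        rw [← hcb]
        have : 0 ≤ 1 / τ * d := by positivity
        linarith
    have h6 := GSL_exp_six
    have hfin : Real.exp (-(6 + 2 * K * L + 2 * L * (16 * T + 2 * K))) *
        ((A.card : ℝ) * B.card) ≤ (A'.card : ℝ) * B'.card := by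
      have e1 : Real.exp (-(6 + 2 * K * L + 2 * L * (16 * T + 2 * K))) =
          Real.exp (-6) * Real.exp (-(2 * K * L)) * Real.exp (-(2 * L * (16 * T + 2 * K))) := by
        rw [← Real.exp_add, ← Real.exp_add]; congr 1; ring
      have e2 : Real.exp (-(2 * L * (16 * T + 2 * K))) * Real.exp (2 * L * (16 * T + 2 * K)) =
          1 := by
        rw [← Real.exp_add]; simp
      rw [e1]
      have hp1 := Real.exp_pos (-(2 * K * L))
      have hp2 := Real.exp_pos (-(2 * L * (16 * T + 2 * K)))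
      calc Real.exp (-6) * Real.exp (-(2 * K * L)) * Real.exp (-(2 * L * (16 * T + 2 * K))) *
            ((A.card : ℝ) * B.card) ≤
          225 / 65536 * Real.exp (-(2 * K * L)) * Real.exp (-(2 * L * (16 * T + 2 * K))) *
            ((A.card : ℝ) * B.card) := by gcongr
        _ = (1 / 4 * (Real.exp (-(2 * K * L)) * (225 / 256 * ((A.card : ℝ) * B.card)))) *
              (1 / 64 * Real.exp (-(2 * L * (16 * T + 2 * K)))) := by ring
        _ ≤ (64 * Real.exp (2 * L * (16 * T + 2 * K)) * ((A'.card : ℝ) * B'.card)) *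
              (1 / 64 * Real.exp (-(2 * L * (16 * T + 2 * K)))) :=
            mul_le_mul_of_nonneg_right hstep (by positivity)
        _ = (Real.exp (-(2 * L * (16 * T + 2 * K))) * Real.exp (2 * L * (16 * T + 2 * K))) *
              ((A'.card : ℝ) * B'.card) := by ring
        _ = (A'.card : ℝ) * B'.card := by rw [e2, one_mul]
    refine le_trans ?_ hfin
    gcongr

end Pool.Agent.BddInt
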