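import Pool.Agent.BddInt.Basic
import Pool.Agent.BddInt.Stmts

/-!
Module MT: monochromatic rectangle, by iterating the amplification lemma.
-/

namespace Pool.Agent.BddInt

open Finset

/-- the claim of the iteration -/
def MTClaim (C₀ : ℝ) (m : ℕ) : Prop :=
  ∀ (X Y : Type) (N : X → Y → ℤ) (A : Finset X) (B : Finset Y) (K k : ℕ) (b : ℤ) (η : ℝ),
    1 ≤ K → 1 ≤ k → A.Nonempty → B.Nonempty → Bdd N A B K → |b| ≤ (K : ℤ) → rk N A B ≤ k →
    0 < η → η ≤ 1 / 16 → η ^ (2 ^ m) * (k + 1) ≤ 1 / 4 →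
    (bad N b A B : ℝ) ≤ η * (A.card * B.card) →
    ∃ b' : ℤ, HasRect N b' A B (16 * C₀ * K ^ 2 * √(k * η) * Real.log (2 / η) + 2)

lemma log_two_div_pos {η : ℝ} (h0 : 0 < η) (h1 : η ≤ 1) : 1 / 2 < Real.log (2 / η) := by
  have h2 : (2 : ℝ) ≤ 2 / η := by
    rw [le_div_iff₀ h0]; linarith
  have h3 := Real.log_le_log (by norm_num : (0 : ℝ) < 2) h2
  have h4 := Real.log_two_gt_d9
  linarith

theorem MT_small {C₀ : ℝ} (hC : 0 < C₀) (hRF : Stmt_RankFin) {X Y : Type} (N : X → Y → ℤ)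
    (A : Finset X) (B : Finset Y) (K k : ℕ) (b : ℤ) (η : ℝ) (hk : rk N A B ≤ k) (h0 : 0 < η)
    (h16 : η ≤ 1 / 16) (h1 : η * (k + 1) ≤ 1 / 4)
    (hbad : (bad N b A B : ℝ) ≤ η * (A.card * B.card)) :
    HasRect N b A B (16 * C₀ * K ^ 2 * √(k * η) * Real.log (2 / η) + 2) := by
  have hl := log_two_div_pos h0 (by linarith)
  have h2 : rk (fun x y => N x y - b) A B ≤ k + 1 := (rk_sub_le N b A B).trans (by omega)
  have h3 := hRF X Y (fun x y => N x y - b) A B (k + 1) η h2 h0.le (by push_cast; exact h1)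
    (by rw [bad_shift]; exact hbad)
  refine h3.of_shift.mono ?_
  have h4 : √(η * ((k + 1 : ℕ) : ℝ)) ≤ 1 / 2 := by
    rw [show (1 / 2 : ℝ) = √(1 / 4) by
      rw [show (1 / 4 : ℝ) = (1 / 2) ^ 2 by norm_num, Real.sqrt_sq (by norm_num)]]
    refine Real.sqrt_le_sqrt ?_
    push_cast; exact h1
  have h5 : 0 ≤ 16 * C₀ * K ^ 2 * √(k * η) * Real.log (2 / η) := by
    have : 0 ≤ Real.log (2 / η) := by linarith
    positivity
  linarith

theorem MT_claim {C₀ : ℝ} (hC : 0 < C₀)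
    (hGSL : ∀ (X Y : Type) (N : X → Y → ℤ) (A : Finset X) (B : Finset Y) (K r : ℕ) (b : ℤ)
    (η τ : ℝ), 1 ≤ K → 1 ≤ r → A.Nonempty → B.Nonempty → Bdd N A B K → |b| ≤ (K : ℤ) →
    rk N A B ≤ r → 0 ≤ η → η ≤ 1 → (bad N b A B : ℝ) ≤ η * (A.card * B.card) →
    0 < τ → τ ≤ 1 / 2 →
    ∃ b' : ℤ, |b'| ≤ (K : ℤ) ∧ ∃ A' ⊆ A, ∃ B' ⊆ B, A'.Nonempty ∧ B'.Nonempty ∧
      (bad N b' A' B' : ℝ) ≤ τ * (A'.card * B'.card) ∧
      Real.exp (-(C₀ * K ^ 2 * Real.log (2 / τ) * (√(r * η) + 1))) * ((A.card : ℝ) * B.card) ≤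
        (A'.card : ℝ) * B'.card) (hRF : Stmt_RankFin) (m : ℕ) : MTClaim C₀ m := by
  induction m with
  | zero =>
    intro X Y N A B K k b η hK hk hA hB hbd hb hrk h0 h16 hη hbad
    refine ⟨b, MT_small hC hRF N A B K k b η hrk h0 h16 ?_ hbad⟩
    simpa using hη
  | succ m ih =>
    intro X Y N A B K k b η hK hk hA hB hbd hb hrk h0 h16 hη hbad
    by_cases h1 : η * ((k : ℝ) + 1) ≤ 1 / 4
    · exact ⟨b, MT_small hC hRF N A B K k b η hrk h0 h16 h1 hbad⟩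
    rw [not_le] at h1
    have hl := log_two_div_pos h0 (by linarith)
    have hk' : (1 : ℝ) ≤ k := by exact_mod_cast hk
    have hK' : (1 : ℝ) ≤ K := by exact_mod_cast hK
    obtain ⟨b', hb', A', hA', B', hB', hAn, hBn, hbad', hcard⟩ := hGSL X Y N A B K k b η (η ^ 2)
      hK hk hA hB hbd hb hrk h0.le (by linarith) hbad (by positivity) (by nlinarith)
    obtain ⟨b'', h2⟩ := ih X Y N A' B' K k b' (η ^ 2) hK hk hAn hBn (hbd.mono hA' hB') hb'
      ((rk_mono N hA' hB').trans hrk) (by positivity) (by nlinarith)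
      (by rw [← pow_mul, ← pow_succ']; exact hη) hbad'
    refine ⟨b'', (h2.trans hA' hB' hcard).mono ?_⟩
    have hlog : Real.log (2 / η ^ 2) ≤ 2 * Real.log (2 / η) := by
      have e1 : 2 * Real.log (2 / η) = Real.log ((2 / η) ^ 2) := by
        rw [Real.log_pow]; norm_num
      rw [e1]
      refine Real.log_le_log (by positivity) ?_
      rw [div_pow]
      gcongr
      norm_num
    have hlog0 : 0 < Real.log (2 / η ^ 2) := by
      have := log_two_div_pos (η := η ^ 2) (by positivity) (by nlinarith)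
      linarith
    set q : ℝ := √(k * η) with hq
    set l : ℝ := Real.log (2 / η) with hl'
    have hq3 : 1 ≤ 3 * q := by
      have e1 : 1 / 9 ≤ (k : ℝ) * η := by nlinarith
      have e2 : (1 / 3 : ℝ) ≤ q := by
        rw [hq, show (1 / 3 : ℝ) = √(1 / 9) by
          rw [show (1 / 9 : ℝ) = (1 / 3) ^ 2 by norm_num, Real.sqrt_sq (by norm_num)]]
        exact Real.sqrt_le_sqrt e1
      linarith
    have hq0 : 0 ≤ q := Real.sqrt_nonneg _
    have hsq : √((k : ℝ) * η ^ 2) ≤ q / 4 := by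
      have e1 : (k : ℝ) * η ^ 2 ≤ (q / 4) ^ 2 := by
        rw [div_pow, hq, Real.sq_sqrt (by positivity)]
        nlinarith
      calc √((k : ℝ) * η ^ 2) ≤ √((q / 4) ^ 2) := Real.sqrt_le_sqrt e1
        _ = q / 4 := Real.sqrt_sq (by positivity)
    have a1 : C₀ * K ^ 2 * Real.log (2 / η ^ 2) * (q + 1) ≤ C₀ * K ^ 2 * (2 * l) * (4 * q) := by
      gcongr
      linarith
    have a2 : 16 * C₀ * K ^ 2 * √((k : ℝ) * η ^ 2) * Real.log (2 / η ^ 2) ≤
        16 * C₀ * K ^ 2 * (q / 4) * (2 * l) := by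
      gcongr
    nlinarith

theorem exists_pow_two_pow (k : ℕ) {η : ℝ} (h0 : 0 < η) (h16 : η ≤ 1 / 16) :
    ∃ m : ℕ, η ^ (2 ^ m) * ((k : ℝ) + 1) ≤ 1 / 4 := by
  obtain ⟨n, hn⟩ := exists_pow_lt_of_lt_one (show (0 : ℝ) < 1 / (4 * (k + 1)) by positivity)
    (show (1 / 16 : ℝ) < 1 by norm_num)
  refine ⟨n, ?_⟩
  have h1 : η ^ (2 ^ n) ≤ η ^ n :=
    pow_le_pow_of_le_one h0.le (by linarith) (Nat.lt_two_pow_self).le
  have h2 : η ^ n ≤ (1 / 16) ^ n := by gcongr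
  have h3 : η ^ (2 ^ n) ≤ 1 / (4 * ((k : ℝ) + 1)) := (h1.trans h2).trans hn.le
  calc η ^ (2 ^ n) * ((k : ℝ) + 1) ≤ 1 / (4 * ((k : ℝ) + 1)) * ((k : ℝ) + 1) := by gcongr
    _ = 1 / 4 := by field_simp

theorem MT_proof (hG : Stmt_GSL) (hRF : Stmt_RankFin) : Stmt_MT := by
  obtain ⟨C₀, hC, hGSL⟩ := hG
  refine ⟨120 * C₀ + 8, by positivity, ?_⟩
  intro X Y N A B K k ε hK hA hB hbd hrk h0 h1 hεk hbad
  have hk1 : 1 ≤ k := by
    by_contra h
    have : k = 0 := by omega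
    subst this
    norm_num at hεk
  have hk' : (1 : ℝ) ≤ k := by exact_mod_cast hk1
  have hK' : (1 : ℝ) ≤ K := by exact_mod_cast hK
  have hK2 : (1 : ℝ) ≤ (K : ℝ) ^ 2 := by nlinarith
  have hl := log_two_div_pos h0 h1
  set l : ℝ := Real.log (2 / ε) with hl'
  set q : ℝ := √(ε * k) with hq
  have hq2 : 1 / 2 ≤ q := by
    rw [hq, show (1 / 2 : ℝ) = √(1 / 4) by
      rw [show (1 / 4 : ℝ) = (1 / 2) ^ 2 by norm_num, Real.sqrt_sq (by norm_num)]]
    exact Real.sqrt_le_sqrt hεk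
  have htwo : 2 ≤ 8 * (K : ℝ) ^ 2 * q * l := by
    have e1 : 1 / 4 ≤ q * l := by nlinarith
    have e2 : q * l ≤ (K : ℝ) ^ 2 * (q * l) := le_mul_of_one_le_left (by linarith) hK2
    nlinarith
  by_cases h16 : ε ≤ 1 / 16
  · obtain ⟨m, hm⟩ := exists_pow_two_pow k h0 h16
    obtain ⟨b', hb'⟩ := MT_claim hC hGSL hRF m X Y N A B K k 0 ε hK hk1 hA hB hbd (by simp) hrk
      h0 h16 hm hbad
    refine ⟨b', hb'.mono ?_⟩
    rw [mul_comm (k : ℝ) ε, ← hq, ← hl']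
    have e1 : 0 ≤ C₀ * K ^ 2 * q * l := by positivity
    nlinarith
  · rw [not_le] at h16
    obtain ⟨b', hb', A', hA', B', hB', hAn, hBn, hbad', hcard⟩ := hGSL X Y N A B K k 0 1 (1 / 16)
      hK hk1 hA hB hbd (by simp) hrk (by norm_num) le_rfl
      (by rw [one_mul]; exact bad_le N 0 A B) (by norm_num) (by norm_num)
    obtain ⟨m, hm⟩ := exists_pow_two_pow k (show (0 : ℝ) < 1 / 16 by norm_num) le_rfl
    obtain ⟨b'', h2⟩ := MT_claim hC hGSL hRF m X Y N A' B' K k b' (1 / 16) hK hk1 hAn hBn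
      (hbd.mono hA' hB') hb' ((rk_mono N hA' hB').trans hrk) (by norm_num) le_rfl hm hbad'
    refine ⟨b'', (h2.trans hA' hB' hcard).mono ?_⟩
    have hlog32 : Real.log (2 / (1 / 16)) ≤ 5 * l := by
      have e1 : Real.log (2 / (1 / 16)) = 5 * Real.log 2 := by
        rw [show (2 / (1 / 16) : ℝ) = 2 ^ 5 by norm_num, Real.log_pow]; norm_num
      have e2 : Real.log 2 ≤ l := by
        refine Real.log_le_log (by norm_num) ?_
        rw [le_div_iff₀ h0]; linarith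
      rw [e1]; linarith
    have hlog32' : 0 ≤ Real.log (2 / (1 / 16)) := Real.log_nonneg (by norm_num)
    have hsk : √((k : ℝ) * 1) ≤ 4 * q := by
      have e1 : (k : ℝ) * 1 ≤ (4 * q) ^ 2 := by
        rw [mul_pow, hq, Real.sq_sqrt (by positivity)]
        nlinarith
      calc √((k : ℝ) * 1) ≤ √((4 * q) ^ 2) := Real.sqrt_le_sqrt e1
        _ = 4 * q := Real.sqrt_sq (by positivity)
    have hsk16 : √((k : ℝ) * (1 / 16)) ≤ q := by
      rw [hq]
      refine Real.sqrt_le_sqrt ?_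
      nlinarith
    have a1 : C₀ * K ^ 2 * Real.log (2 / (1 / 16)) * (√((k : ℝ) * 1) + 1) ≤
        C₀ * K ^ 2 * (5 * l) * (6 * q) := by
      gcongr
      linarith
    have a2 : 16 * C₀ * K ^ 2 * √((k : ℝ) * (1 / 16)) * Real.log (2 / (1 / 16)) ≤
        16 * C₀ * K ^ 2 * q * (5 * l) := by
      gcongr
    have e1 : 0 ≤ C₀ * K ^ 2 * q * l := by positivity
    nlinarith

end Pool.Agent.BddInt
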