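import Pool.Agent.BddInt.Norm

/-!
Monochromatic rectangle with linear dependence on `K`.
-/

namespace Pool.Agent.BddInt

open Finset

lemma mtl_small (hNorm : Stmt_Norm) {X Y : Type} (N : X → Y → ℤ) (A : Finset X) (B : Finset Y)
    (r : ℕ) (b : ℤ) (σ : ℝ) (hr : 1 ≤ r) (hA : A.Nonempty) (hB : B.Nonempty) (hrk : rk N A B ≤ r)
    (hσ : 0 ≤ σ) (hs : 16 * √(2 * r) * σ < 1) (hmom : mom N b A B ≤ σ ^ 2 * (A.card * B.card)) :
    HasRect N b A B 1 := by
  obtain ⟨ι, hι, u, v, A₁, hA₁, B₁, hB₁, hcA, hcB, huv, hu, hv⟩ :=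
    hNorm X Y N A B r b σ hr hA hB hrk hσ hmom
  obtain ⟨D, hD⟩ : ∃ D : ℝ, D = 16 * √(2 * r) * σ := ⟨_, rfl⟩
  rw [← hD] at hs
  have hD0 : 0 ≤ D := by rw [hD]; positivity
  refine ⟨A₁, hA₁, B₁, hB₁, ?_, ?_⟩
  · intro x hx y hy
    have h1 := Finset.sum_mul_sq_le_sq_mul_sq univ (u x) (v y)
    have h2 : (∑ i, u x i ^ 2) * ∑ i, v y i ^ 2 ≤ D ^ 2 := by
      rw [sq]
      have h3 := hu x hx
      have h4 := hv y hy
      rw [← hD] at h3 h4
      exact mul_le_mul h3 h4 (by positivity) hD0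
    have h3 := abs_le_of_sq_le_sq (h1.trans h2) hD0
    rw [huv x hx y hy] at h3
    have h4 : |((N x y - b : ℤ) : ℝ)| < 1 := by
      push_cast
      exact lt_of_le_of_lt h3 hs
    have h5 : |N x y - b| < 1 := by exact_mod_cast h4
    have h6 := Int.abs_lt_one_iff.mp h5
    omega
  · have h1 : Real.exp (-1) ≤ 225 / 256 := by
      have := Real.exp_neg_one_lt_d9
      linarith
    calc Real.exp (-1) * ((A.card : ℝ) * B.card) ≤ 225 / 256 * ((A.card : ℝ) * B.card) := by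
          gcongr
      _ = (15 / 16 * (A.card : ℝ)) * (15 / 16 * (B.card : ℝ)) := by ring
      _ ≤ (A₁.card : ℝ) * B₁.card := by gcongr

lemma mtl_R (hNorm : Stmt_Norm) {C : ℝ} (hC : 0 < C)
    (hGM : ∀ (X Y : Type) (N : X → Y → ℤ) (A : Finset X) (B : Finset Y) (K r : ℕ) (b : ℤ)
    (σ τ : ℝ), 1 ≤ K → 1 ≤ r → A.Nonempty → B.Nonempty → Bdd N A B K → |b| ≤ (K : ℤ) →
    rk N A B ≤ r → 1 ≤ 16 * √(2 * r) * σ → mom N b A B ≤ σ ^ 2 * (A.card * B.card) →
    0 < τ → τ ≤ 1 / 2 →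
    ∃ b' : ℤ, |b'| ≤ (K : ℤ) ∧ ∃ A' ⊆ A, ∃ B' ⊆ B, A'.Nonempty ∧ B'.Nonempty ∧
      mom N b' A' B' ≤ τ * (A'.card * B'.card) ∧
      Real.exp (-(C * K * √r * σ * Real.log (2 / τ))) * ((A.card : ℝ) * B.card) ≤
        (A'.card : ℝ) * B'.card)
    {X Y : Type} (N : X → Y → ℤ) (K r : ℕ) (hK : 1 ≤ K) (hr : 1 ≤ r) (m : ℕ) :
    ∀ (A : Finset X) (B : Finset Y) (b : ℤ) (σ : ℝ), A.Nonempty → B.Nonempty → Bdd N A B K →
    |b| ≤ (K : ℤ) → rk N A B ≤ r → 0 < σ → σ ≤ 1 / 16 → 16 * √(2 * r) * σ ^ (2 ^ m) < 1 →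
    mom N b A B ≤ σ ^ 2 * (A.card * B.card) →
    ∃ b' : ℤ, HasRect N b' A B (8 * C * K * √r * σ * Real.log (2 / σ) + 1) := by
  induction m with
  | zero =>
    intro A B b σ hA hB hbd hb hrk hσ0 hσ1 hs hmom
    rw [pow_zero, pow_one] at hs
    refine ⟨b, (mtl_small hNorm N A B r b σ hr hA hB hrk hσ0.le hs hmom).mono ?_⟩
    have hl : 0 ≤ Real.log (2 / σ) := Real.log_nonneg (by rw [le_div_iff₀ hσ0]; linarith)
    have : 0 ≤ 8 * C * K * √r * σ * Real.log (2 / σ) := by positivity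
    linarith
  | succ m ih =>
    intro A B b σ hA hB hbd hb hrk hσ0 hσ1 hs hmom
    have hl : 0 ≤ Real.log (2 / σ) := Real.log_nonneg (by rw [le_div_iff₀ hσ0]; linarith)
    rcases lt_or_ge (16 * √(2 * (r : ℝ)) * σ) 1 with hlt | hge
    · refine ⟨b, (mtl_small hNorm N A B r b σ hr hA hB hrk hσ0.le hlt hmom).mono ?_⟩
      have : 0 ≤ 8 * C * K * √r * σ * Real.log (2 / σ) := by positivity
      linarith
    · have hσ4 : σ ^ 4 ≤ 1 / 2 := by
        calc σ ^ 4 ≤ (1 / 16) ^ 4 := by gcongr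
          _ ≤ 1 / 2 := by norm_num
      obtain ⟨b', hb', A', hA', B', hB', hA'n, hB'n, hmom', hsz⟩ := hGM X Y N A B K r b σ (σ ^ 4)
        hK hr hA hB hbd hb hrk hge hmom (by positivity) hσ4
      obtain ⟨b'', hrect⟩ := ih A' B' b' (σ ^ 2) hA'n hB'n (hbd.mono hA' hB') hb'
        ((rk_mono N hA' hB').trans hrk) (by positivity) (by nlinarith) (by
          rw [← pow_mul, ← pow_succ']; exact hs) (by
          rw [← pow_mul]; exact hmom')
      refine ⟨b'', (HasRect.trans hA' hB' hsz hrect).mono ?_⟩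
      have h4 : Real.log (2 / σ ^ 4) ≤ 4 * Real.log (2 / σ) := by
        rw [show (4 : ℝ) * Real.log (2 / σ) = Real.log ((2 / σ) ^ 4) by
          rw [Real.log_pow]; norm_num]
        apply Real.log_le_log (by positivity)
        rw [div_pow]
        gcongr
        norm_num
      have h2 : Real.log (2 / σ ^ 2) ≤ 2 * Real.log (2 / σ) := by
        rw [show (2 : ℝ) * Real.log (2 / σ) = Real.log ((2 / σ) ^ 2) by
          rw [Real.log_pow]; norm_num]
        apply Real.log_le_log (by positivity)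
        rw [div_pow]
        gcongr
        norm_num
      obtain ⟨P, hP⟩ : ∃ P : ℝ, P = C * K * √r := ⟨_, rfl⟩
      have hP0 : 0 ≤ P := by rw [hP]; positivity
      have e1 : C * K * √r * σ * Real.log (2 / σ ^ 4) ≤ P * σ * (4 * Real.log (2 / σ)) := by
        rw [hP]; gcongr
      have e2 : 8 * C * K * √r * σ ^ 2 * Real.log (2 / σ ^ 2) ≤
          8 * P * σ ^ 2 * (2 * Real.log (2 / σ)) := by
        rw [hP]
        calc 8 * C * K * √r * σ ^ 2 * Real.log (2 / σ ^ 2) ≤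
            8 * C * K * √r * σ ^ 2 * (2 * Real.log (2 / σ)) := by gcongr
          _ = _ := by ring
      have e3 : 8 * C * K * √r * σ * Real.log (2 / σ) = 8 * (P * σ * Real.log (2 / σ)) := by
        rw [hP]; ring
      have e4 : P * σ ^ 2 * Real.log (2 / σ) ≤ 1 / 16 * (P * σ * Real.log (2 / σ)) := by
        have h5 : P * σ ^ 2 * Real.log (2 / σ) = σ * (P * σ * Real.log (2 / σ)) := by ring
        rw [h5]
        gcongr
      have e5 : 0 ≤ P * σ * Real.log (2 / σ) := by positivity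
      rw [e3]
      linarith

theorem MTL_proof : Stmt_Norm → Stmt_VR → Stmt_GM → Stmt_MTL := by
  intro hNorm hVR hGM
  obtain ⟨Cv, hCv, hVR⟩ := hVR
  obtain ⟨C, hC, hGM⟩ := hGM
  refine ⟨Cv + 22 * C + 1, by positivity, ?_⟩
  intro X Y N A B K r hK hA hB hbd hrk hr
  have hK1 : (1 : ℝ) ≤ K := by exact_mod_cast hK
  have hr1 : (1 : ℝ) ≤ r := by exact_mod_cast hr
  have hsr : 1 ≤ √(r : ℝ) := by rw [Real.one_le_sqrt]; exact hr1
  -- second moment at most 9
  have hQ : ∀ (A : Finset X) (B : Finset Y) (b : ℤ), A.Nonempty → B.Nonempty → Bdd N A B K →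
      |b| ≤ (K : ℤ) → rk N A B ≤ r → mom N b A B ≤ 3 ^ 2 * (A.card * B.card) →
      ∃ b' : ℤ, HasRect N b' A B (22 * C * K * √r + 1) := by
    intro A B b hA hB hbd hb hrk hmom
    have h16 : 1 ≤ 16 * √(2 * (r : ℝ)) * 3 := by
      have : 1 ≤ √(2 * (r : ℝ)) := by rw [Real.one_le_sqrt]; linarith
      linarith
    obtain ⟨b', hb', A', hA', B', hB', hA'n, hB'n, hmom', hsz⟩ := hGM X Y N A B K r b 3 (1 / 256)
        hK hr hA hB hbd hb hrk h16 hmom (by norm_num) (by norm_num)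
    obtain ⟨m, hm⟩ : ∃ m : ℕ, 16 * √(2 * (r : ℝ)) * (1 / 16 : ℝ) ^ (2 ^ m) < 1 := by
      have hpos : 0 < 16 * √(2 * (r : ℝ)) := by positivity
      obtain ⟨n, hn⟩ := exists_pow_lt_of_lt_one (x := 1 / (16 * √(2 * (r : ℝ)))) (by positivity)
        (show (1 / 16 : ℝ) < 1 by norm_num)
      refine ⟨n, ?_⟩
      have h1 : (1 / 16 : ℝ) ^ (2 ^ n) ≤ (1 / 16 : ℝ) ^ n :=
        pow_le_pow_of_le_one (by norm_num) (by norm_num) Nat.lt_two_pow_self.le
      have h2 := lt_of_le_of_lt h1 hn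
      rw [lt_div_iff₀ hpos] at h2
      linarith
    obtain ⟨b'', hrect⟩ := mtl_R hNorm hC hGM N K r hK hr m A' B' b' (1 / 16) hA'n hB'n
      (hbd.mono hA' hB') hb' ((rk_mono N hA' hB').trans hrk) (by norm_num) le_rfl hm (by
        norm_num at hmom' ⊢; exact hmom')
    refine ⟨b'', (HasRect.trans hA' hB' hsz hrect).mono ?_⟩
    have hl2 := Real.log_two_lt_d9
    have h512 : Real.log (2 / (1 / 256)) ≤ 6.3 := by
      rw [show (2 : ℝ) / (1 / 256) = 2 ^ 9 by norm_num, Real.log_pow]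
      push_cast
      linarith
    have h32 : Real.log (2 / (1 / 16)) ≤ 3.5 := by
      rw [show (2 : ℝ) / (1 / 16) = 2 ^ 5 by norm_num, Real.log_pow]
      push_cast
      linarith
    have e1 : C * K * √r * 3 * Real.log (2 / (1 / 256)) ≤ C * K * √r * 3 * 6.3 := by gcongr
    have e2 : 8 * C * K * √r * (1 / 16) * Real.log (2 / (1 / 16)) ≤
        8 * C * K * √r * (1 / 16) * 3.5 := by gcongr
    have e3 : 0 ≤ C * K * √r := by positivity
    nlinarith
  -- large second moments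
  have hP : ∀ m : ℕ, ∀ (A : Finset X) (B : Finset Y) (b : ℤ) (σ : ℝ), A.Nonempty → B.Nonempty →
      Bdd N A B K → |b| ≤ (K : ℤ) → rk N A B ≤ r → 0 ≤ σ → σ ≤ 2 * K → σ ≤ 3 * 2 ^ m →
      mom N b A B ≤ σ ^ 2 * (A.card * B.card) →
      ∃ b' : ℤ, HasRect N b' A B
        (Cv * K * √r * (2 / 3 * (1 - (1 / 2) ^ m)) + (22 * C * K * √r + 1)) := by
    intro m
    induction m with
    | zero =>
      intro A B b σ hA hB hbd hb hrk hσ0 hσK hσ hmom
      have hmom' : mom N b A B ≤ 3 ^ 2 * (A.card * B.card) := by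
        refine hmom.trans ?_
        have : σ ^ 2 ≤ 3 ^ 2 := by
          apply pow_le_pow_left₀ hσ0
          simpa using hσ
        gcongr
      obtain ⟨b', h⟩ := hQ A B b hA hB hbd hb hrk hmom'
      exact ⟨b', h.mono (by simp)⟩
    | succ m ih =>
      intro A B b σ hA hB hbd hb hrk hσ0 hσK hσ hmom
      have hpw : (1 / 2 : ℝ) ^ (m + 1) = 1 / 2 * (1 / 2) ^ m := by ring
      have hpw0 : (0 : ℝ) ≤ (1 / 2) ^ m := by positivity
      have hE : 0 ≤ Cv * K * √r := by positivity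
      rcases le_or_gt σ (3 * 2 ^ m) with hle | hgt
      · obtain ⟨b', h⟩ := ih A B b σ hA hB hbd hb hrk hσ0 hσK hle hmom
        refine ⟨b', h.mono ?_⟩
        rw [hpw]
        have : Cv * K * √r * (2 / 3 * (1 - (1 / 2) ^ m)) ≤
            Cv * K * √r * (2 / 3 * (1 - 1 / 2 * (1 / 2) ^ m)) := by
          gcongr
          linarith
        linarith
      · have h2m : (1 : ℝ) ≤ 2 ^ m := one_le_pow₀ (by norm_num)
        have hσ3 : 3 ≤ σ := by linarith
        obtain ⟨b', hb', A', hA', B', hB', hA'n, hB'n, hmom', hsz⟩ :=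
          hVR X Y N A B K r b σ hK hr hA hB hbd hb hrk hσ3 hσK hmom
        obtain ⟨b'', hrect⟩ := ih A' B' b' (σ / 2) hA'n hB'n (hbd.mono hA' hB') hb'
          ((rk_mono N hA' hB').trans hrk) (by positivity) (by linarith) (by
            rw [pow_succ] at hσ; linarith) hmom'
        refine ⟨b'', (HasRect.trans hA' hB' hsz hrect).mono ?_⟩
        have h1 : Cv * K * √r / σ ≤ Cv * K * √r * (1 / 3 * (1 / 2) ^ m) := by
          rw [div_eq_mul_inv]
          have h3 : σ⁻¹ ≤ 1 / 3 * (1 / 2) ^ m := by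
            rw [show (1 / 3 : ℝ) * (1 / 2) ^ m = (3 * 2 ^ m)⁻¹ by
              rw [mul_inv, one_div, one_div, inv_pow]]
            exact inv_anti₀ (by positivity) hgt.le
          gcongr
        rw [hpw]
        have e : Cv * K * √r * (1 / 3 * (1 / 2) ^ m) + Cv * K * √r * (2 / 3 * (1 - (1 / 2) ^ m)) =
            Cv * K * √r * (2 / 3 * (1 - 1 / 2 * (1 / 2) ^ m)) := by ring
        linarith
  obtain ⟨b', h⟩ := hP K A B 0 K hA hB hbd (by simp) hrk (by positivity) (by linarith) (by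
      have h1 : ((K : ℕ) : ℝ) ≤ 2 ^ K := by exact_mod_cast Nat.lt_two_pow_self.le
      linarith) (by
      unfold mom
      have h1 : ∑ x ∈ A, ∑ y ∈ B, ((N x y : ℝ) - (0 : ℤ)) ^ 2 ≤
          ∑ x ∈ A, ∑ y ∈ B, (K : ℝ) ^ 2 := by
        refine Finset.sum_le_sum fun x hx => Finset.sum_le_sum fun y hy => ?_
        have h2 : |(N x y : ℝ)| ≤ K := by exact_mod_cast hbd x hx y hy
        rw [Int.cast_zero, sub_zero, ← sq_abs]
        exact pow_le_pow_left₀ (abs_nonneg _) h2 2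
      refine h1.trans (le_of_eq ?_)
      simp only [Finset.sum_const, nsmul_eq_mul]
      ring)
  refine ⟨b', h.mono ?_⟩
  have h1 : (2 / 3 : ℝ) * (1 - (1 / 2) ^ K) ≤ 1 := by
    have : (0 : ℝ) ≤ (1 / 2) ^ K := by positivity
    linarith
  have h2 : Cv * K * √r * (2 / 3 * (1 - (1 / 2) ^ K)) ≤ Cv * K * √r * 1 := by gcongr
  have h3 : (1 : ℝ) ≤ K * √r := by
    calc (1 : ℝ) = 1 * 1 := by norm_num
      _ ≤ K * √r := by gcongr
  nlinarith

end Pool.Agent.BddInt
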