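import Pool.Agent.BddInt.Basic
import Pool.Agent.BddInt.Stmts

/-!
The matrix theorem: assembly of the modules.
-/

namespace Pool.Agent.BddInt

open Finset

lemma log_eight_ge_two : (2 : ℝ) ≤ Real.log 8 := by
  rw [show (8 : ℝ) = 2 ^ 3 by norm_num, Real.log_pow]
  have := Real.log_two_gt_d9
  push_cast
  linarith

lemma log_sixteen_ge : (2.76 : ℝ) ≤ Real.log 16 := by
  rw [show (16 : ℝ) = 2 ^ 4 by norm_num, Real.log_pow]
  have := Real.log_two_gt_d9
  push_cast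
  linarith

lemma two_le_log_four_div {e : ℝ} (he : 0 < e) (he2 : e ≤ 1 / 2) : 2 ≤ Real.log (4 / e) := by
  refine log_eight_ge_two.trans (Real.log_le_log (by norm_num) ?_)
  rw [le_div_iff₀ he]; linarith

/-- growth of the potential -/
lemma pot_growth {e0 e1 : ℝ} (h1 : 0 < e1) (h10 : e1 ≤ e0) (h0 : e0 ≤ 4) :
    √e1 * Real.log (e0 / e1) * (1 / 2 * Real.log (4 / e0) - 1) ≤
      √e0 * Real.log (4 / e0) - √e1 * Real.log (4 / e1) := by
  have h00 : 0 < e0 := lt_of_lt_of_le h1 h10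
  have hl : 0 ≤ Real.log (e0 / e1) := Real.log_nonneg (by rw [le_div_iff₀ h1]; linarith)
  have hL0 : 0 ≤ Real.log (4 / e0) := Real.log_nonneg (by rw [le_div_iff₀ h00]; linarith)
  have hsum : Real.log (4 / e1) = Real.log (4 / e0) + Real.log (e0 / e1) := by
    rw [← Real.log_mul (by positivity) (by positivity)]
    congr 1
    field_simp
  have hs : √e0 = √e1 * √(e0 / e1) := by
    rw [← Real.sqrt_mul h1.le]
    congr 1
    field_simp
  have hge : 1 + Real.log (e0 / e1) / 2 ≤ √(e0 / e1) := by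
    have hpos : 0 < √(e0 / e1) := Real.sqrt_pos.mpr (by positivity)
    have := Real.add_one_le_exp (Real.log (√(e0 / e1)))
    rw [Real.exp_log hpos, Real.log_sqrt (by positivity)] at this
    linarith
  have hse : 0 ≤ √e1 := Real.sqrt_nonneg _
  rw [hsum, hs]
  have h2 : √e1 * (1 + Real.log (e0 / e1) / 2) * Real.log (4 / e0) ≤
      √e1 * √(e0 / e1) * Real.log (4 / e0) := by gcongr
  nlinarith

/-- monotonicity of the potential -/
lemma pot_mono {e0 e1 : ℝ} (h1 : 0 < e1) (h10 : e1 ≤ e0) (h0 : e0 ≤ 1 / 2) :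
    √e1 * Real.log (4 / e1) ≤ √e0 * Real.log (4 / e0) := by
  have h00 : 0 < e0 := lt_of_lt_of_le h1 h10
  have h := pot_growth h1 h10 (by linarith)
  have hl : 0 ≤ Real.log (e0 / e1) := Real.log_nonneg (by rw [le_div_iff₀ h1]; linarith)
  have h2 := two_le_log_four_div h00 h0
  have : 0 ≤ √e1 * Real.log (e0 / e1) * (1 / 2 * Real.log (4 / e0) - 1) :=
    mul_nonneg (mul_nonneg (Real.sqrt_nonneg _) hl) (by linarith)
  linarith

/-- the numerical inequality in the small cases -/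
lemma small_num {C x : ℝ} (hC : 15 ≤ C) (hx : 1 / 4 ≤ x) :
    Real.log 2 + 4 * Real.log (8 * x) + 2 ≤ 2 * C * √x := by
  have hx0 : 0 < x := by linarith
  have hsx : 1 / 2 ≤ √x := by
    rw [show (1 / 2 : ℝ) = √(1 / 4) by
      rw [show (1 / 4 : ℝ) = (1 / 2) ^ 2 by norm_num, Real.sqrt_sq (by norm_num)]]
    exact Real.sqrt_le_sqrt hx
  have hl2 : Real.log 2 ≤ 0.7 := by linarith [Real.log_two_lt_d9]
  have h8 : √(8 * x) ≤ 3 * √x := by
    rw [show (3 : ℝ) * √x = √(3 ^ 2 * x) by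
      rw [Real.sqrt_mul (by positivity), Real.sqrt_sq (by norm_num)]]
    apply Real.sqrt_le_sqrt
    linarith
  have hlog : Real.log (8 * x) ≤ 2 * (√(8 * x) - 1) := by
    have hpos : 0 < √(8 * x) := Real.sqrt_pos.mpr (by positivity)
    have := Real.log_le_sub_one_of_pos hpos
    rw [Real.log_sqrt (by positivity)] at this
    linarith
  nlinarith

/-- the numerical inequality of the induction step -/
lemma main_num {C C0 P e0 e1 : ℝ} {k k' : ℕ} (hC : 22 ≤ C) (hC0 : 0 ≤ C0) (hCC : 40 * C0 ≤ C)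
    (hP : 1 ≤ P) (h1 : 0 < e1) (h10 : e1 ≤ e0) (h0 : e0 ≤ 1 / 4) (hk : 4 * k' ≤ 3 * k)
    (hek : 1 / 4 ≤ e1 * k) :
    4 * Real.log (e0 / e1) + (C0 * P * √(e1 * k) * Real.log (2 / e1) +
      C * P * √(5 / 4 * e1 * k') * Real.log (4 / (5 / 4 * e1))) ≤
      C * P * √(e0 * k) * Real.log (4 / e0) := by
  have h00 : 0 < e0 := lt_of_lt_of_le h1 h10
  have hl : 0 ≤ Real.log (e0 / e1) := Real.log_nonneg (by rw [le_div_iff₀ h1]; linarith)
  have hL0 : 2.76 ≤ Real.log (4 / e0) := by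
    refine log_sixteen_ge.trans (Real.log_le_log (by norm_num) ?_)
    rw [le_div_iff₀ h00]; linarith
  have hL1 : 0 ≤ Real.log (4 / e1) := Real.log_nonneg (by rw [le_div_iff₀ h1]; linarith)
  have hg := pot_growth h1 h10 (by linarith)
  have hP0 : 0 ≤ P := by linarith
  have hC00 : 0 ≤ C := by linarith
  have hs0 : √(e0 * k) = √e0 * √k := Real.sqrt_mul h00.le _
  have hs1 : √(e1 * k) = √e1 * √k := Real.sqrt_mul h1.le _
  have hse1 : 0 ≤ √e1 := Real.sqrt_nonneg _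
  have hsk : 0 ≤ √(k : ℝ) := Real.sqrt_nonneg _
  have has : 1 / 2 ≤ √e1 * √(k : ℝ) := by
    rw [← hs1, show (1 / 2 : ℝ) = √(1 / 4) by
      rw [show (1 / 4 : ℝ) = (1 / 2) ^ 2 by norm_num, Real.sqrt_sq (by norm_num)]]
    exact Real.sqrt_le_sqrt hek
  have hs' : √(5 / 4 * e1 * k') ≤ 0.9684 * (√e1 * √(k : ℝ)) := by
    rw [← hs1, show (0.9684 : ℝ) * √(e1 * k) = √(0.9684 ^ 2 * (e1 * k)) by
      rw [Real.sqrt_mul (x := 0.9684 ^ 2) (by positivity), Real.sqrt_sq (by norm_num)]]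
    apply Real.sqrt_le_sqrt
    have hk1 : (4 : ℝ) * k' ≤ 3 * k := by exact_mod_cast hk
    have : (0 : ℝ) ≤ k := Nat.cast_nonneg _
    nlinarith [mul_le_mul_of_nonneg_left hk1 h1.le, mul_nonneg h1.le this]
  have hlog' : Real.log (4 / (5 / 4 * e1)) ≤ Real.log (4 / e1) := by
    apply Real.log_le_log (by positivity)
    apply div_le_div_of_nonneg_left (by norm_num) h1
    linarith
  have hlog'' : Real.log (2 / e1) ≤ Real.log (4 / e1) := by
    apply Real.log_le_log (by positivity)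
    gcongr
    norm_num
  have hlog'0 : 0 ≤ Real.log (4 / (5 / 4 * e1)) := by
    apply Real.log_nonneg
    rw [le_div_iff₀ (by positivity)]
    linarith
  rw [hs0, hs1]
  -- abbreviations
  have e1' : C0 * P * (√e1 * √k) * Real.log (2 / e1) ≤
      C0 * P * (√e1 * √k) * Real.log (4 / e1) := by gcongr
  have e2' : C * P * √(5 / 4 * e1 * k') * Real.log (4 / (5 / 4 * e1)) ≤
      C * P * (0.9684 * (√e1 * √(k : ℝ))) * Real.log (4 / e1) := by gcongr
  have e3' : √e1 * Real.log (e0 / e1) * 0.38 ≤ √e0 * Real.log (4 / e0) - √e1 * Real.log (4 / e1) := by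
    refine le_trans ?_ hg
    gcongr
    linarith
  have e4' : C * P * √k * (√e1 * Real.log (4 / e1) + √e1 * Real.log (e0 / e1) * 0.38) ≤
      C * P * √k * (√e0 * Real.log (4 / e0)) := by
    gcongr
    linarith
  have e5' : 4 * Real.log (e0 / e1) ≤ C * P * √k * (√e1 * Real.log (e0 / e1) * 0.38) := by
    have : 4 ≤ C * P * (√e1 * √k) * 0.38 := by
      calc (4 : ℝ) ≤ 22 * 1 * (1 / 2) * 0.38 := by norm_num
        _ ≤ C * P * (√e1 * √k) * 0.38 := by gcongr
    calc 4 * Real.log (e0 / e1) ≤ (C * P * (√e1 * √k) * 0.38) * Real.log (e0 / e1) := by gcongr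
      _ = _ := by ring
  have e6' : C0 * P * (√e1 * √k) * Real.log (4 / e1) +
      C * P * (0.9684 * (√e1 * √(k : ℝ))) * Real.log (4 / e1) ≤
      C * P * √k * (√e1 * Real.log (4 / e1)) := by
    have : C0 + C * 0.9684 ≤ C := by linarith
    calc C0 * P * (√e1 * √k) * Real.log (4 / e1) +
      C * P * (0.9684 * (√e1 * √(k : ℝ))) * Real.log (4 / e1)
        = (C0 + C * 0.9684) * (P * (√e1 * √k) * Real.log (4 / e1)) := by ring
      _ ≤ C * (P * (√e1 * √k) * Real.log (4 / e1)) := by gcongr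
      _ = _ := by ring
  have e7' : C * P * √k * (√e1 * Real.log (4 / e1) + √e1 * Real.log (e0 / e1) * 0.38) =
      C * P * √k * (√e1 * Real.log (4 / e1)) + C * P * √k * (√e1 * Real.log (e0 / e1) * 0.38) := by
    ring
  have e8' : C * P * √k * (√e0 * Real.log (4 / e0)) = C * P * (√e0 * √k) * Real.log (4 / e0) := by
    ring
  linarith

lemma nonempty_of_card_pos {X Y : Type} {A : Finset X} {B : Finset Y} (h : 0 < (A.card : ℝ) * B.card) :
    A.Nonempty ∧ B.Nonempty := by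
  constructor
  · rw [← Finset.card_pos]
    by_contra hcon
    have : A.card = 0 := by omega
    rw [this] at h
    simp at h
  · rw [← Finset.card_pos]
    by_contra hcon
    have : B.card = 0 := by omega
    rw [this] at h
    simp at h

theorem Main_proof (hBase : Stmt_Base) (hClean : Stmt_CleanB) (hMT : Stmt_MT) (hNW : Stmt_NW)
    (hRF : Stmt_RankFin) (hCR : Stmt_CR) : Stmt_Main := by
  obtain ⟨C0, hC0, hMT⟩ := hMT
  obtain ⟨C1, hC1, hCR⟩ := hCR
  obtain ⟨e, he, hBase⟩ := hBase 5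
  refine ⟨60 + 40 * C0 + 11 * C1 + 2 * e, by positivity, ?_⟩
  intro X Y N A B K k ε hK
  have hP : (1 : ℝ) ≤ (K : ℝ) ^ 2 := by
    have : (1 : ℝ) ≤ K := by exact_mod_cast hK
    nlinarith
  have hCa : 60 ≤ 60 + 40 * C0 + 11 * C1 + 2 * e := by linarith
  have hCb : 40 * C0 ≤ 60 + 40 * C0 + 11 * C1 + 2 * e := by linarith
  have hCc : 11 * C1 ≤ 60 + 40 * C0 + 11 * C1 + 2 * e := by linarith
  have hCd : 2 * e ≤ 60 + 40 * C0 + 11 * C1 + 2 * e := by linarith
  generalize 60 + 40 * C0 + 11 * C1 + 2 * e = C at hCa hCb hCc hCd ⊢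
  have hC : 0 ≤ C := by linarith
  induction k using Nat.strong_induction_on generalizing A B ε with
  | _ k ih =>
  intro hA hB hbd hk1 hrk hε hε2 hbad
  have hpos : 0 < (A.card : ℝ) * B.card := by
    have h1 : 0 < A.card := hA.card_pos
    have h2 : 0 < B.card := hB.card_pos
    positivity
  have hk0 : (1 : ℝ) ≤ k := by exact_mod_cast hk1
  have hL := two_le_log_four_div hε hε2
  have hcnt : (1 / 2 : ℝ) * (A.card * B.card) ≤ cnt N 0 A B := by
    have := cnt_add_bad_real N 0 A B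
    nlinarith
  -- case 1
  rcases le_or_gt (ε * k) (1 / 4) with h1 | h1
  · refine (hRF X Y N A B k ε hrk hε.le h1 hbad).mono ?_
    have hs : 0 ≤ √(ε * k) := Real.sqrt_nonneg _
    calc 4 * √(ε * k) = 4 * 1 * √(ε * k) * 1 := by ring
      _ ≤ C * K ^ 2 * √(ε * k) * Real.log (4 / ε) := by
        have h4C : (4 : ℝ) ≤ C := by linarith
        have h1L : (1 : ℝ) ≤ Real.log (4 / ε) := by linarith
        gcongr
  have hsq : 1 / 2 ≤ √(ε * k) := by
    rw [show (1 / 2 : ℝ) = √(1 / 4) by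
      rw [show (1 / 4 : ℝ) = (1 / 2) ^ 2 by norm_num, Real.sqrt_sq (by norm_num)]]
    exact Real.sqrt_le_sqrt h1.le
  -- case 2
  rcases le_or_gt (1 / 4) ε with h2 | h2
  · refine (hCR X Y N A B K k (1 / 2) hK hA hB hbd hrk (by norm_num) (by norm_num) hcnt).mono ?_
    have hl2 : Real.log 2 ≤ 0.7 := by linarith [Real.log_two_lt_d9]
    have hs2 : √(k : ℝ) ≤ 2 * √(ε * k) := by
      rw [show (2 : ℝ) * √(ε * k) = √(2 ^ 2 * (ε * k)) by
        rw [Real.sqrt_mul (x := 2 ^ 2) (by positivity), Real.sqrt_sq (by norm_num)]]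
      apply Real.sqrt_le_sqrt
      nlinarith
    rw [show (1 : ℝ) / (1 / 2) = 2 by norm_num]
    calc C1 * K ^ 2 * (Real.log 2 + 10) * √k ≤ C1 * K ^ 2 * 11 * (2 * √(ε * k)) := by
          gcongr
          linarith
      _ = 11 * C1 * K ^ 2 * √(ε * k) * 2 := by ring
      _ ≤ C * K ^ 2 * √(ε * k) * Real.log (4 / ε) := by gcongr
  -- case 3
  rcases Nat.lt_or_ge 5 k with h3 | h3
  swap
  · refine (hBase X Y N A B (1 / 2) (hrk.trans h3) (by norm_num) (by norm_num) hcnt).mono ?_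
    rw [show (2 : ℝ) / (1 / 2) = 2 ^ 2 by norm_num, Real.log_pow]
    have hl2 : Real.log 2 ≤ 0.7 := by linarith [Real.log_two_lt_d9]
    calc e * ((2 : ℕ) * Real.log 2) ≤ 2 * e * 1 * (1 / 2) * 2 := by
          push_cast
          nlinarith
      _ ≤ C * K ^ 2 * √(ε * k) * Real.log (4 / ε) := by gcongr
  -- case 4
  obtain ⟨e0, he0⟩ : ∃ e0 : ℝ, (bad N 0 A B : ℝ) = e0 * (A.card * B.card) :=
    ⟨bad N 0 A B / (A.card * B.card), by field_simp⟩
  have he00 : 0 ≤ e0 := by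
    by_contra hcon
    push Not at hcon
    have : (0 : ℝ) ≤ bad N 0 A B := Nat.cast_nonneg _
    nlinarith
  have he0ε : e0 ≤ ε := by
    rw [he0] at hbad
    exact le_of_mul_le_mul_right hbad hpos
  rcases le_or_gt (e0 * k) (1 / 4) with h4 | h4
  · refine (hRF X Y N A B k e0 hrk he00 h4 he0.le).mono ?_
    have hs : √(e0 * k) ≤ 1 / 2 := by
      rw [show (1 / 2 : ℝ) = √(1 / 4) by
        rw [show (1 / 4 : ℝ) = (1 / 2) ^ 2 by norm_num, Real.sqrt_sq (by norm_num)]]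
      exact Real.sqrt_le_sqrt h4
    calc 4 * √(e0 * k) ≤ 4 * 1 * (1 / 2) * 1 := by linarith
      _ ≤ C * K ^ 2 * √(ε * k) * Real.log (4 / ε) := by
        have h4C : (4 : ℝ) ≤ C := by linarith
        have h1L : (1 : ℝ) ≤ Real.log (4 / ε) := by linarith
        gcongr
  have he0pos : 0 < e0 := by
    by_contra hcon
    have : e0 = 0 := le_antisymm (not_lt.mp hcon) he00
    rw [this] at h4
    norm_num at h4
  -- it suffices to have the bound with e0
  suffices hsuff : HasRect N 0 A B (C * K ^ 2 * √(e0 * k) * Real.log (4 / e0)) by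
    refine hsuff.mono ?_
    have hm := pot_mono he0pos he0ε hε2
    rw [Real.sqrt_mul he0pos.le, Real.sqrt_mul hε.le]
    calc C * K ^ 2 * (√e0 * √k) * Real.log (4 / e0)
        = C * K ^ 2 * √k * (√e0 * Real.log (4 / e0)) := by ring
      _ ≤ C * K ^ 2 * √k * (√ε * Real.log (4 / ε)) := by gcongr
      _ = _ := by ring
  have hL0 := two_le_log_four_div he0pos (he0ε.trans hε2)
  have hsmall : Real.log 2 + 4 * Real.log (8 * (e0 * k)) + 2 ≤
      C * K ^ 2 * √(e0 * k) * Real.log (4 / e0) := by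
    have hC15 : 15 ≤ C := by linarith
    refine (small_num hC15 h4.le).trans ?_
    calc 2 * C * √(e0 * k) = C * 1 * √(e0 * k) * 2 := by ring
      _ ≤ C * K ^ 2 * √(e0 * k) * Real.log (4 / e0) := by gcongr
  have hkpos : (0 : ℝ) < k := by linarith
  have htpos : (0 : ℝ) < 1 / (8 * k) := by positivity
  have hte0 : 1 / (8 * k) ≤ e0 := by
    rw [div_le_iff₀ (by positivity)]
    nlinarith
  have hratio : (1 / (8 * k) / e0 : ℝ) = 1 / (8 * (e0 * k)) := by field_simp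
  have hratio4 : Real.exp (-(4 * Real.log (8 * (e0 * k)))) = (1 / (8 * k) / e0) ^ 4 := by
    rw [hratio, ← mul_neg, ← Real.log_inv, mul_comm, Real.exp_mul, Real.exp_log (by positivity),
      ← one_div]
    norm_cast
  -- finishing with RankFin on a subrectangle
  have hfin : ∀ (A₁ : Finset X) (B₁ : Finset Y) (e1 : ℝ), A₁ ⊆ A → B₁ ⊆ B → 0 ≤ e1 →
      e1 * k ≤ 1 / 4 → (bad N 0 A₁ B₁ : ℝ) ≤ e1 * (A₁.card * B₁.card) →
      1 / 2 * (1 / (8 * k) / e0) ^ 4 * ((A.card : ℝ) * B.card) ≤ (A₁.card : ℝ) * B₁.card →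
      HasRect N 0 A B (C * K ^ 2 * √(e0 * k) * Real.log (4 / e0)) := by
    intro A₁ B₁ e1 hA₁ hB₁ he1 he1k hbad1 hsz
    have hr := hRF X Y N A₁ B₁ k e1 ((rk_mono N hA₁ hB₁).trans hrk) he1 he1k hbad1
    have hs : √(e1 * k) ≤ 1 / 2 := by
      rw [show (1 / 2 : ℝ) = √(1 / 4) by
        rw [show (1 / 4 : ℝ) = (1 / 2) ^ 2 by norm_num, Real.sqrt_sq (by norm_num)]]
      exact Real.sqrt_le_sqrt he1k
    have hsz' : Real.exp (-(Real.log 2 + 4 * Real.log (8 * (e0 * k)))) *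
        ((A.card : ℝ) * B.card) ≤ (A₁.card : ℝ) * B₁.card := by
      rw [neg_add, Real.exp_add, hratio4, ← Real.log_inv, Real.exp_log (by norm_num)]
      rw [one_div] at hsz
      exact hsz
    refine (HasRect.trans hA₁ hB₁ hsz' hr).mono ?_
    linarith
  obtain ⟨A₁, hA₁, B₁, hB₁, e1, hA₁n, hB₁n, he10, he1e0, hbad1, hcase⟩ :=
    hClean X Y N A B e0 (1 / (8 * k)) hA hB htpos hte0 he0
  rcases hcase with ⟨hte1, hsz, hrow, hcol⟩ | ⟨he1t, hsz⟩
  swap
  · refine hfin A₁ B₁ e1 hA₁ hB₁ he10 ?_ hbad1.le hsz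
    rw [lt_div_iff₀ (by positivity)] at he1t
    linarith
  have he1pos : 0 < e1 := lt_of_lt_of_le htpos hte1
  rcases le_or_gt (e1 * k) (1 / 4) with h5 | h5
  · refine hfin A₁ B₁ e1 hA₁ hB₁ he10 h5 hbad1.le (le_trans ?_ hsz)
    have h6 : (1 / (8 * k) / e0) ^ 4 ≤ (e1 / e0) ^ 4 := by gcongr
    have h7 : (0 : ℝ) ≤ (1 / (8 * k) / e0) ^ 4 := by positivity
    gcongr
    linarith
  -- the main step
  have hrk₁ : rk N A₁ B₁ ≤ k := (rk_mono N hA₁ hB₁).trans hrk
  have hbd₁ := hbd.mono hA₁ hB₁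
  have hpos₁ : 0 < (A₁.card : ℝ) * B₁.card := by
    have h1 : 0 < A₁.card := hA₁n.card_pos
    have h2 : 0 < B₁.card := hB₁n.card_pos
    positivity
  obtain ⟨b, A₂, hA₂, B₂, hB₂, hmono, hsz₂⟩ := hMT X Y N A₁ B₁ K k e1 hK hA₁n hB₁n hbd₁ hrk₁
    he1pos (by linarith) h5.le hbad1.le
  obtain ⟨hA₂n, hB₂n⟩ := nonempty_of_card_pos (lt_of_lt_of_le (by positivity) hsz₂)
  have hk'1 : 1 ≤ (k + 3) / 2 := by omega
  have hk' : (k + 3) / 2 < k := by omega
  have hk'' : 4 * ((k + 3) / 2) ≤ 3 * k := by omega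
  have hnum := main_num (C := C) (C0 := C0) (P := (K : ℝ) ^ 2) (e0 := e0) (e1 := e1) (by linarith)
    hC0.le hCb hP he1pos he1e0 (by linarith) hk'' h5.le
  have hsz₁ : Real.exp (-(4 * Real.log (e0 / e1))) * ((A.card : ℝ) * B.card) ≤
      (A₁.card : ℝ) * B₁.card := by
    have h1 : Real.exp (-(4 * Real.log (e0 / e1))) = (e1 / e0) ^ 4 := by
      rw [← mul_neg, ← Real.log_inv, inv_div, mul_comm, Real.exp_mul, Real.exp_log (by positivity)]
      norm_cast
    rw [h1]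
    exact hsz
  rcases hNW X Y N A₁ A₂ B₁ B₂ b k hA₂ hB₂ hmono hrk₁ with h | h
  · have hih := ih ((k + 3) / 2) hk' A₂ B₁ (5 / 4 * e1) hA₂n hB₁n (hbd₁.mono hA₂ subset_rfl)
      hk'1 (by omega) (by positivity) (by linarith) (hrow A₂ hA₂)
    have hsz₂' : Real.exp (-(C0 * K ^ 2 * √(e1 * k) * Real.log (2 / e1))) *
        ((A₁.card : ℝ) * B₁.card) ≤ (A₂.card : ℝ) * B₁.card := by
      refine hsz₂.trans ?_
      have := Finset.card_le_card hB₂
      gcongr
    exact (HasRect.trans hA₁ hB₁ hsz₁ (HasRect.trans hA₂ subset_rfl hsz₂' hih)).mono hnum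
  · have hih := ih ((k + 3) / 2) hk' A₁ B₂ (5 / 4 * e1) hA₁n hB₂n (hbd₁.mono subset_rfl hB₂)
      hk'1 (by omega) (by positivity) (by linarith) (hcol B₂ hB₂)
    have hsz₂' : Real.exp (-(C0 * K ^ 2 * √(e1 * k) * Real.log (2 / e1))) *
        ((A₁.card : ℝ) * B₁.card) ≤ (A₁.card : ℝ) * B₂.card := by
      refine hsz₂.trans ?_
      have := Finset.card_le_card hA₂
      gcongr
    exact (HasRect.trans hA₁ hB₁ hsz₁ (HasRect.trans subset_rfl hB₂ hsz₂' hih)).mono hnum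

end Pool.Agent.BddInt
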