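import Pool.Agent.BddInt.Stmts
import Pool.Agent.BddInt.Basic

/-!
# Module `NW` of `MP_132c09_co`: the rank of the two strips through a monochromatic rectangle
-/

namespace Pool.Agent.BddInt

open Finset

/-- If a matrix vanishes on the rectangle `A' × B'` then the ranks of the two strips add up to at
most the rank. -/
theorem rank_strip_add_le {X Y X' Y' : Type} [Fintype X] [Fintype Y] [Fintype X'] [Fintype Y']
    (P : Matrix X Y ℝ) (f : X' → X) (g : Y' → Y) (h : ∀ x y, P (f x) (g y) = 0) :
    (P.submatrix f id).rank + (P.submatrix id g).rank ≤ P.rank := by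
  classical
  rw [Matrix.rank_eq_finrank_span_row, Matrix.rank_eq_finrank_span_row (P.submatrix id g),
    Matrix.rank_eq_finrank_span_row P]
  set V : Submodule ℝ (Y → ℝ) := Submodule.span ℝ (Set.range P.row) with hV
  set ρ : (Y → ℝ) →ₗ[ℝ] (Y' → ℝ) := LinearMap.funLeft ℝ ℝ g with hρ
  have h1 : Submodule.span ℝ (Set.range (P.submatrix id g).row) = V.map ρ := by
    rw [hV, Submodule.map_span, ← Set.range_comp]
    rfl
  have h2 : Submodule.span ℝ (Set.range (P.submatrix f id).row) ≤
      (LinearMap.ker (ρ.domRestrict V)).map V.subtype := by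
    rw [Submodule.span_le]
    rintro _ ⟨x, rfl⟩
    refine ⟨⟨P.row (f x), Submodule.subset_span ⟨f x, rfl⟩⟩, ?_, rfl⟩
    rw [SetLike.mem_coe, LinearMap.mem_ker]
    ext y
    exact h x y
  have h3 := LinearMap.finrank_range_add_finrank_ker (ρ.domRestrict V)
  rw [LinearMap.range_domRestrict, ← h1] at h3
  have h4 := Submodule.finrank_mono h2
  have h5 : Module.finrank ℝ ((LinearMap.ker (ρ.domRestrict V)).map V.subtype) =
      Module.finrank ℝ (LinearMap.ker (ρ.domRestrict V)) :=
    Submodule.finrank_map_subtype_eq _ _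
  omega

theorem NW_proof : Stmt_NW := by
  classical
  intro X Y N A A' B B' c k hA hB hc hk
  set M : X → Y → ℤ := fun x y => N x y - c with hM
  have hMk : rk M A B ≤ k + 1 := (rk_sub_le N c A B).trans (by omega)
  have h1 : rk M A' B + rk M A B' ≤ rk M A B := by
    have := rank_strip_add_le (Matrix.of fun (x : A) (y : B) => (M x.1 y.1 : ℝ))
      (fun x : A' => (⟨x.1, hA x.2⟩ : A)) (fun y : B' => (⟨y.1, hB y.2⟩ : B)) (by
        intro x y
        simp [hM, hc x.1 x.2 y.1 y.2])
    exact this
  have h2 : ∀ (A : Finset X) (B : Finset Y), rk N A B ≤ rk M A B + 1 := by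
    intro A B
    have := rk_sub_le M (-c) A B
    have h3 : (fun x y => M x y - -c) = N := by
      funext x y
      simp [hM]
    rw [h3] at this
    exact this
  have h3 := h2 A' B
  have h4 := h2 A B'
  omega

end Pool.Agent.BddInt
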