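import Pool.Agent.BddInt.Basic
import Pool.Agent.BddInt.Stmts
import Pool.Agent.BddInt.Stmts2
import Pool.Agent.BddInt.GSL

/-!
Restriction to rows and columns of small norm; concentration at a tilt.
-/

namespace Pool.Agent.BddInt

open Finset

theorem Norm_proof : Stmt_Fact → Stmt_Norm := by
  intro hFact X Y N A B r b σ hr hA hB hrk hσ hmom
  classical
  have : Nonempty A := hA.to_subtype
  have : Nonempty B := hB.to_subtype
  obtain ⟨M, hM⟩ : ∃ M : A → B → ℝ, M = fun x y => ((N x.1 y.1 - b : ℤ) : ℝ) := ⟨_, rfl⟩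
  have hrank : (Matrix.of M).rank ≤ 2 * r := by
    have h1 := rk_sub_le N b A B
    have h2 : (Matrix.of M).rank = rk (fun x y => N x y - b) A B := by
      rw [hM]; rfl
    rw [h2]; omega
  obtain ⟨ι, hι, u, v, huv, hu, hv⟩ := hFact A B M (2 * r) hrank
  have hcA : (0 : ℝ) < A.card := by exact_mod_cast hA.card_pos
  have hcB : (0 : ℝ) < B.card := by exact_mod_cast hB.card_pos
  have hsq : ∑ x, ∑ y, M x y ^ 2 = mom N b A B := by
    unfold mom
    rw [← Finset.sum_coe_sort A]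
    refine Finset.sum_congr rfl fun x _ => ?_
    rw [← Finset.sum_coe_sort B]
    refine Finset.sum_congr rfl fun y _ => ?_
    rw [hM]
    push_cast
    rfl
  obtain ⟨T, hT⟩ : ∃ T : ℝ, T = √(2 * r) * σ := ⟨_, rfl⟩
  have hT0 : 0 ≤ T := by rw [hT]; positivity
  have hsqrt : √(((2 * r : ℕ) : ℝ) * ((∑ x, ∑ y, M x y ^ 2) /
      (Fintype.card A * Fintype.card B))) ≤ T := by
    rw [Real.sqrt_le_iff]
    refine ⟨hT0, ?_⟩
    rw [hT, mul_pow, Real.sq_sqrt (by positivity), hsq]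
    rw [Fintype.card_coe, Fintype.card_coe]
    have h1 : mom N b A B / ((A.card : ℝ) * B.card) ≤ σ ^ 2 := by
      rw [div_le_iff₀ (by positivity)]
      exact hmom
    push_cast
    exact mul_le_mul_of_nonneg_left h1 (by positivity)
  have hu' : ∑ x, ∑ i, u x i ^ 2 ≤ T * Fintype.card A :=
    hu.trans (mul_le_mul_of_nonneg_right hsqrt (Nat.cast_nonneg _))
  have hv' : ∑ y, ∑ i, v y i ^ 2 ≤ T * Fintype.card B :=
    hv.trans (mul_le_mul_of_nonneg_right hsqrt (Nat.cast_nonneg _))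
  have hAm := GSL_markov (fun x => ∑ i, u x i ^ 2) (fun x => by positivity) T hT0 hu'
  have hBm := GSL_markov (fun y => ∑ i, v y i ^ 2) (fun y => by positivity) T hT0 hv'
  obtain ⟨A1, hA1⟩ : ∃ A1 : Finset A, A1 = univ.filter fun x => ∑ i, u x i ^ 2 ≤ 16 * T :=
    ⟨_, rfl⟩
  obtain ⟨B1, hB1⟩ : ∃ B1 : Finset B, B1 = univ.filter fun y => ∑ i, v y i ^ 2 ≤ 16 * T :=
    ⟨_, rfl⟩
  rw [← hA1, Fintype.card_coe] at hAm
  rw [← hB1, Fintype.card_coe] at hBm
  refine ⟨ι, hι, fun x => if h : x ∈ A then u ⟨x, h⟩ else 0,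
    fun y => if h : y ∈ B then v ⟨y, h⟩ else 0, A1.map (Function.Embedding.subtype _), ?_,
    B1.map (Function.Embedding.subtype _), ?_, ?_, ?_, ?_, ?_, ?_⟩
  · intro x hx
    obtain ⟨a, _, rfl⟩ := Finset.mem_map.mp hx
    exact a.2
  · intro x hx
    obtain ⟨a, _, rfl⟩ := Finset.mem_map.mp hx
    exact a.2
  · rw [Finset.card_map]; exact hAm
  · rw [Finset.card_map]; exact hBm
  · intro x hx y hy
    obtain ⟨a, _, rfl⟩ := Finset.mem_map.mp hx
    obtain ⟨c, _, rfl⟩ := Finset.mem_map.mp hy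
    have := huv a c
    change ∑ i, (if h : (a : X) ∈ A then u ⟨a, h⟩ else 0) i *
      (if h : (c : Y) ∈ B then v ⟨c, h⟩ else 0) i = (N a c : ℝ) - b
    rw [dif_pos a.2, dif_pos c.2]
    refine this.trans ?_
    rw [hM]
    push_cast
    rfl
  · intro x hx
    obtain ⟨a, ha, rfl⟩ := Finset.mem_map.mp hx
    change ∑ i, (if h : (a : X) ∈ A then u ⟨a, h⟩ else 0) i ^ 2 ≤ _
    rw [dif_pos a.2]
    rw [hA1, Finset.mem_filter] at ha
    refine ha.2.trans (le_of_eq ?_)
    rw [hT]; ring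
  · intro y hy
    obtain ⟨a, ha, rfl⟩ := Finset.mem_map.mp hy
    change ∑ i, (if h : (a : Y) ∈ B then v ⟨a, h⟩ else 0) i ^ 2 ≤ _
    rw [dif_pos a.2]
    rw [hB1, Finset.mem_filter] at ha
    refine ha.2.trans (le_of_eq ?_)
    rw [hT]; ring

lemma exp_neg_six_le : Real.exp (-6) ≤ 1 / 256 := by
  refine GSL_exp_six.trans ?_
  norm_num

theorem Conc_proof : Stmt_Tilt → Stmt_Conc := by
  intro hTilt X Y ι _ N A₁ B₁ b b' u v D L τ hA hB hD hL hτ huv hu hv hconc
  have hCS : ∀ x ∈ A₁, ∀ y ∈ B₁, |∑ i, u x i * v y i| ≤ D := by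
    intro x hx y hy
    have h1 := Finset.sum_mul_sq_le_sq_mul_sq univ (u x) (v y)
    have h2 : (∑ i, u x i ^ 2) * ∑ i, v y i ^ 2 ≤ D ^ 2 := by
      rw [sq]
      exact mul_le_mul (hu x hx) (hv y hy) (by positivity) hD
    exact abs_le_of_sq_le_sq (h1.trans h2) hD
  obtain ⟨W, hW⟩ : ∃ W : X → Y → ℝ, W = fun x y => 1 - ((N x y : ℝ) - b') ^ 2 / τ := ⟨_, rfl⟩
  obtain ⟨A', hA', B', hB', hineq⟩ := hTilt X Y ι A₁ B₁ u v W D D L hL hD hu hv
    (fun x hx y hy => (le_abs_self _).trans (hCS x hx y hy))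
  obtain ⟨Z, hZ⟩ : ∃ Z : ℝ, Z = ∑ x ∈ A₁, ∑ y ∈ B₁, Real.exp (L * ((N x y : ℝ) - b)) := ⟨_, rfl⟩
  rw [← hZ] at hconc
  have hexp : ∀ x ∈ A₁, ∀ y ∈ B₁, Real.exp (L * ∑ i, u x i * v y i) =
      Real.exp (L * ((N x y : ℝ) - b)) := by
    intro x hx y hy
    rw [huv x hx y hy]
  have hneg : ∑ x ∈ A₁, ∑ y ∈ B₁, max (-W x y) 0 * Real.exp (L * ∑ i, u x i * v y i) ≤
      1 / 4 * Z := by
    have h1 : ∑ x ∈ A₁, ∑ y ∈ B₁, max (-W x y) 0 * Real.exp (L * ∑ i, u x i * v y i) ≤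
        1 / τ * ∑ x ∈ A₁, ∑ y ∈ B₁,
          ((N x y : ℝ) - b') ^ 2 * Real.exp (L * ((N x y : ℝ) - b)) := by
      rw [Finset.mul_sum]
      refine Finset.sum_le_sum fun x hx => ?_
      rw [Finset.mul_sum]
      refine Finset.sum_le_sum fun y hy => ?_
      rw [hexp x hx y hy, ← mul_assoc]
      apply mul_le_mul_of_nonneg_right _ (Real.exp_pos _).le
      rw [hW]
      apply max_le
      · simp only
        have : 1 / τ * ((N x y : ℝ) - b') ^ 2 = ((N x y : ℝ) - b') ^ 2 / τ := by ring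
        rw [this]; linarith
      · positivity
    refine h1.trans ?_
    calc 1 / τ * ∑ x ∈ A₁, ∑ y ∈ B₁, ((N x y : ℝ) - b') ^ 2 *
          Real.exp (L * ((N x y : ℝ) - b)) ≤ 1 / τ * (τ / 4 * Z) :=
          mul_le_mul_of_nonneg_left hconc (by positivity)
      _ = 1 / 4 * Z := by field_simp
  have hpos : 3 / 4 * Z ≤
      ∑ x ∈ A₁, ∑ y ∈ B₁, max (W x y) 0 * Real.exp (L * ∑ i, u x i * v y i) := by
    have h1 : Z - 1 / τ * ∑ x ∈ A₁, ∑ y ∈ B₁,
          ((N x y : ℝ) - b') ^ 2 * Real.exp (L * ((N x y : ℝ) - b)) ≤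
        ∑ x ∈ A₁, ∑ y ∈ B₁, max (W x y) 0 * Real.exp (L * ∑ i, u x i * v y i) := by
      rw [hZ, Finset.mul_sum, ← Finset.sum_sub_distrib]
      refine Finset.sum_le_sum fun x hx => ?_
      rw [Finset.mul_sum, ← Finset.sum_sub_distrib]
      refine Finset.sum_le_sum fun y hy => ?_
      rw [hexp x hx y hy]
      have h2 : Real.exp (L * ((N x y : ℝ) - b)) - 1 / τ * (((N x y : ℝ) - b') ^ 2 *
          Real.exp (L * ((N x y : ℝ) - b))) = W x y * Real.exp (L * ((N x y : ℝ) - b)) := by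
        rw [hW]; ring
      rw [h2]
      exact mul_le_mul_of_nonneg_right (le_max_left _ _) (Real.exp_pos _).le
    refine le_trans ?_ h1
    have h3 : 1 / τ * ∑ x ∈ A₁, ∑ y ∈ B₁, ((N x y : ℝ) - b') ^ 2 *
          Real.exp (L * ((N x y : ℝ) - b)) ≤ 1 / 4 * Z := by
      calc 1 / τ * ∑ x ∈ A₁, ∑ y ∈ B₁, ((N x y : ℝ) - b') ^ 2 *
          Real.exp (L * ((N x y : ℝ) - b)) ≤ 1 / τ * (τ / 4 * Z) :=
          mul_le_mul_of_nonneg_left hconc (by positivity)
        _ = 1 / 4 * Z := by field_simp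
    linarith
  have hcA : (0 : ℝ) < A₁.card := by exact_mod_cast hA.card_pos
  have hcB : (0 : ℝ) < B₁.card := by exact_mod_cast hB.card_pos
  have hZlow : Real.exp (-(L * D)) * ((A₁.card : ℝ) * B₁.card) ≤ Z := by
    have h1 : ∑ x ∈ A₁, ∑ y ∈ B₁, Real.exp (-(L * D)) ≤ Z := by
      rw [hZ]
      refine Finset.sum_le_sum fun x hx => Finset.sum_le_sum fun y hy => ?_
      apply Real.exp_le_exp.mpr
      have h2 := (abs_le.mp (hCS x hx y hy)).1
      rw [huv x hx y hy] at h2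
      nlinarith
    refine le_trans (le_of_eq ?_) h1
    simp only [Finset.sum_const, nsmul_eq_mul]
    ring
  have hZpos : 0 < Z := lt_of_lt_of_le (by positivity) hZlow
  obtain ⟨Q, hQ⟩ : ∃ Q : ℝ, Q = ∑ x ∈ A', ∑ y ∈ B', W x y := ⟨_, rfl⟩
  rw [← hQ] at hineq
  have hineq2 : 5 / 16 * Z ≤ 64 * Real.exp (2 * L * (D + D)) * Q := by
    refine le_trans ?_ hineq
    linarith
  have hQpos : 0 < Q := by
    have h1 : 0 < 64 * Real.exp (2 * L * (D + D)) * Q := lt_of_lt_of_le (by positivity) hineq2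
    exact pos_of_mul_pos_right h1 (by positivity)
  have hQval : Q = (A'.card : ℝ) * B'.card - mom N b' A' B' / τ := by
    rw [hQ, hW]
    unfold mom
    simp only [Finset.sum_sub_distrib, Finset.sum_const, nsmul_eq_mul, mul_one, Finset.sum_div]
  have hmom0 : 0 ≤ mom N b' A' B' := by unfold mom; positivity
  have hABpos : 0 < (A'.card : ℝ) * B'.card := by
    have : 0 ≤ mom N b' A' B' / τ := by positivity
    linarith
  have hne : A'.Nonempty ∧ B'.Nonempty := by
    constructor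
    · rw [← Finset.card_pos]
      by_contra hcon
      have : A'.card = 0 := by omega
      rw [this] at hABpos
      simp at hABpos
    · rw [← Finset.card_pos]
      by_contra hcon
      have : B'.card = 0 := by omega
      rw [this] at hABpos
      simp at hABpos
  refine ⟨A', hA', B', hB', hne.1, hne.2, ?_, ?_⟩
  · have h1 : mom N b' A' B' / τ ≤ (A'.card : ℝ) * B'.card := by linarith
    rw [div_le_iff₀ hτ] at h1
    linarith
  · have h6 := exp_neg_six_le
    have e1 : Real.exp (-(6 + 5 * L * D)) =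
        Real.exp (-6) * Real.exp (-(L * D)) * Real.exp (-(2 * L * (D + D))) := by
      rw [← Real.exp_add, ← Real.exp_add]; congr 1; ring
    have e2 : Real.exp (-(2 * L * (D + D))) * Real.exp (2 * L * (D + D)) = 1 := by
      rw [← Real.exp_add]; simp
    have hQle : Q ≤ (A'.card : ℝ) * B'.card := by
      rw [hQval]
      have : 0 ≤ mom N b' A' B' / τ := by positivity
      linarith
    rw [e1]
    calc Real.exp (-6) * Real.exp (-(L * D)) * Real.exp (-(2 * L * (D + D))) *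
          ((A₁.card : ℝ) * B₁.card)
        ≤ 1 / 256 * Real.exp (-(L * D)) * Real.exp (-(2 * L * (D + D))) *
          ((A₁.card : ℝ) * B₁.card) := by gcongr
      _ = (Real.exp (-(L * D)) * ((A₁.card : ℝ) * B₁.card)) *
          (1 / 256 * Real.exp (-(2 * L * (D + D)))) := by ring
      _ ≤ Z * (1 / 256 * Real.exp (-(2 * L * (D + D)))) := by gcongr
      _ ≤ (5 / 16 * Z) * (1 / 64 * Real.exp (-(2 * L * (D + D)))) := by
          have : 0 ≤ Z * Real.exp (-(2 * L * (D + D))) := by positivity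
          nlinarith
      _ ≤ (64 * Real.exp (2 * L * (D + D)) * Q) * (1 / 64 * Real.exp (-(2 * L * (D + D)))) := by
          gcongr
      _ = (Real.exp (-(2 * L * (D + D))) * Real.exp (2 * L * (D + D))) * Q := by ring
      _ = Q := by rw [e2, one_mul]
      _ ≤ _ := hQle

end Pool.Agent.BddInt
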