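import Pool.Agent.BddInt.Basic
import Pool.Agent.BddInt.Stmts

/-!
Module RankFin: very few bad entries compared with the rank.
-/

namespace Pool.Agent.BddInt

open Finset

variable {X Y : Type}

lemma exp_neg_le_sq {t : ℝ} (h0 : 0 ≤ t) (h1 : t ≤ 1 / 2) : Real.exp (-(4 * t)) ≤ (1 - t) ^ 2 := by
  have h2 : Real.exp (-(2 * t)) ≤ 1 - t := by
    have h3 := Real.add_one_le_exp (2 * t)
    have h4 : 1 ≤ (1 - t) * Real.exp (2 * t) := by nlinarith
    have h5 : Real.exp (-(2 * t)) * Real.exp (2 * t) = 1 := by
      rw [← Real.exp_add]; simp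
    have h6 := Real.exp_pos (-(2 * t))
    calc Real.exp (-(2 * t)) = Real.exp (-(2 * t)) * 1 := by ring
      _ ≤ Real.exp (-(2 * t)) * ((1 - t) * Real.exp (2 * t)) := by gcongr
      _ = (1 - t) * (Real.exp (-(2 * t)) * Real.exp (2 * t)) := by ring
      _ = 1 - t := by rw [h5]; ring
  have h7 : Real.exp (-(4 * t)) = Real.exp (-(2 * t)) ^ 2 := by
    rw [← Real.exp_nat_mul]; congr 1; push_cast; ring
  rw [h7]
  have := Real.exp_pos (-(2 * t))
  gcongr

/-- the submatrix has at most `k` rows which span all the rows -/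
lemma exists_small_span (N : X → Y → ℤ) (A : Finset X) (B : Finset Y) (k : ℕ)
    (h : rk N A B ≤ k) : ∃ F : Finset X, F ⊆ A ∧ F.card ≤ k ∧
      ∀ y ∈ B, (∀ x ∈ F, N x y = 0) → ∀ x ∈ A, N x y = 0 := by
  classical
  set M : Matrix A B ℝ := Matrix.of fun (x : A) (y : B) => (N x.1 y.1 : ℝ) with hM
  have hr : M.rank ≤ k := h
  rw [Matrix.rank_eq_finrank_span_row] at hr
  obtain ⟨b, hb, hspan, hli⟩ := exists_linearIndependent ℝ (Set.range M.row)
  have hfin : b.Finite := (Set.finite_range _).subset hb
  have := hfin.fintype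
  have hcard := finrank_span_set_eq_card hli
  rw [hspan] at hcard
  choose f hf using fun r : b => hb r.2
  refine ⟨(Finset.univ.image f).map (Function.Embedding.subtype _), ?_, ?_, ?_⟩
  · intro x hx
    simp only [Finset.mem_map, Finset.mem_image, Finset.mem_univ, true_and,
      Function.Embedding.subtype_apply] at hx
    obtain ⟨a, -, rfl⟩ := hx
    exact a.2
  · rw [Finset.card_map]
    refine Finset.card_image_le.trans ?_
    rw [Finset.card_univ]
    rw [Set.toFinset_card] at hcard
    omega
  · intro y hy hF x hx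
    have key : ∀ v ∈ Submodule.span ℝ (Set.range M.row), v ⟨y, hy⟩ = 0 := by
      rw [← hspan]
      intro v hv
      induction hv using Submodule.span_induction with
      | mem v hv =>
        have h1 := hf ⟨v, hv⟩
        have h2 : N (f ⟨v, hv⟩).1 y = 0 := by
          refine hF _ ?_
          simp only [Finset.mem_map, Finset.mem_image, Finset.mem_univ, true_and,
            Function.Embedding.subtype_apply]
          exact ⟨f ⟨v, hv⟩, ⟨_, rfl⟩, rfl⟩
        have h3 : v ⟨y, hy⟩ = M.row (f ⟨v, hv⟩) ⟨y, hy⟩ := by rw [h1]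
        rw [h3]
        simp [Matrix.row, hM, h2]
      | zero => rfl
      | add v w _ _ hv hw => simp [hv, hw]
      | smul c v _ hv => simp [hv]
    have := key (M.row ⟨x, hx⟩) (Submodule.subset_span ⟨_, rfl⟩)
    simpa [Matrix.row, hM] using this

theorem RankFin_proof : Stmt_RankFin := by
  classical
  intro X Y N A B k η hk h0 h1 hbad
  -- trivial cases
  by_cases hk0 : k = 0
  · subst hk0
    exact HasRect.of_all (by positivity) (eq_zero_of_rk_eq_zero (by omega))
  have hkpos : (0 : ℝ) < k := by exact_mod_cast Nat.pos_of_ne_zero hk0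
  by_cases hη : η = 0
  · subst hη
    have hb0 : bad N 0 A B = 0 := by
      have : (bad N 0 A B : ℝ) ≤ 0 := by simpa using hbad
      exact_mod_cast le_antisymm this (Nat.cast_nonneg _)
    refine HasRect.of_all (by positivity) fun x hx y hy => ?_
    by_contra hne
    unfold bad at hb0
    rw [Finset.card_eq_zero] at hb0
    have : (x, y) ∈ (A ×ˢ B).filter fun p => N p.1 p.2 ≠ 0 := by
      simp [hx, hy, hne]
    rw [hb0] at this
    exact absurd this (Finset.notMem_empty _)
  have hηpos : 0 < η := lt_of_le_of_ne h0 (Ne.symm hη)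
  rcases B.eq_empty_or_nonempty with rfl | hB
  · exact HasRect.of_all (by positivity) (by simp)
  have hBpos : (0 : ℝ) < B.card := by exact_mod_cast hB.card_pos
  set t : ℝ := √(η * k) with ht
  have ht0 : 0 ≤ t := Real.sqrt_nonneg _
  have htpos : 0 < t := Real.sqrt_pos.2 (by positivity)
  have htsq : t ^ 2 = η * k := Real.sq_sqrt (by positivity)
  have ht1 : t ≤ 1 / 2 := by
    rw [ht]
    rw [show (1 / 2 : ℝ) = √(1 / 4) by
      rw [show (1 / 4 : ℝ) = (1 / 2) ^ 2 by norm_num, Real.sqrt_sq (by norm_num)]]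
    exact Real.sqrt_le_sqrt h1
  set s : ℝ := t / k with hs
  have hspos : 0 < s := by positivity
  have hsk : s * k = t := by rw [hs]; field_simp
  have hst : s * t = η := by
    have : s * t * k = η * k := by rw [← htsq, ← hsk]; ring
    exact mul_right_cancel₀ hkpos.ne' this
  -- good rows
  set A1 : Finset X := A.filter fun x => ((B.filter fun y => N x y ≠ 0).card : ℝ) ≤ s * B.card
    with hA1
  have hA1sub : A1 ⊆ A := Finset.filter_subset _ _
  have hcardA : (1 - t) * (A.card : ℝ) ≤ A1.card := by
    have e1 : (A.filter fun x => ¬ ((B.filter fun y => N x y ≠ 0).card : ℝ) ≤ s * B.card).card +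
        A1.card = A.card := by
      rw [add_comm, hA1]
      exact Finset.card_filter_add_card_filter_not _
    set A2 := A.filter fun x => ¬ ((B.filter fun y => N x y ≠ 0).card : ℝ) ≤ s * B.card with hA2
    have e2 : (A2.card : ℝ) * (s * B.card) ≤ bad N 0 A B := by
      rw [bad_rows]
      push_cast
      calc (A2.card : ℝ) * (s * B.card) = ∑ x ∈ A2, s * (B.card : ℝ) := by
            rw [Finset.sum_const, nsmul_eq_mul]
        _ ≤ ∑ x ∈ A2, ((B.filter fun y => N x y ≠ 0).card : ℝ) := by
            refine Finset.sum_le_sum fun x hx => ?_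
            exact (not_le.1 (Finset.mem_filter.1 hx).2).le
        _ ≤ ∑ x ∈ A, ((B.filter fun y => N x y ≠ 0).card : ℝ) :=
            Finset.sum_le_sum_of_subset_of_nonneg (Finset.filter_subset _ _)
              fun _ _ _ => Nat.cast_nonneg _
    have e3 : (A2.card : ℝ) * (s * B.card) ≤ t * A.card * (s * B.card) := by
      refine (e2.trans hbad).trans (le_of_eq ?_)
      rw [← hst]; ring
    have e4 : (A2.card : ℝ) ≤ t * A.card := le_of_mul_le_mul_right e3 (by positivity)
    have e5 : (A2.card : ℝ) + A1.card = A.card := by exact_mod_cast e1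
    linarith
  obtain ⟨F, hFA, hFc, hF⟩ := exists_small_span N A1 B k ((rk_mono N hA1sub subset_rfl).trans hk)
  set B1 : Finset Y := B.filter fun y => ∀ x ∈ F, N x y = 0 with hB1
  have hcardB : (1 - t) * (B.card : ℝ) ≤ B1.card := by
    have e1 : B1.card + (B.filter fun y => ¬ ∀ x ∈ F, N x y = 0).card = B.card := by
      rw [hB1]
      exact Finset.card_filter_add_card_filter_not _
    have e2 : (B.filter fun y => ¬ ∀ x ∈ F, N x y = 0) ⊆
        F.biUnion fun x => B.filter fun y => N x y ≠ 0 := by
      intro y hy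
      rw [Finset.mem_filter] at hy
      obtain ⟨hy1, hy2⟩ := hy
      push Not at hy2
      obtain ⟨x, hx, hxy⟩ := hy2
      exact Finset.mem_biUnion.2 ⟨x, hx, Finset.mem_filter.2 ⟨hy1, hxy⟩⟩
    have e3 : ((B.filter fun y => ¬ ∀ x ∈ F, N x y = 0).card : ℝ) ≤ t * B.card := by
      calc ((B.filter fun y => ¬ ∀ x ∈ F, N x y = 0).card : ℝ)
          ≤ ((F.biUnion fun x => B.filter fun y => N x y ≠ 0).card : ℝ) := by
            exact_mod_cast Finset.card_le_card e2
        _ ≤ ∑ x ∈ F, ((B.filter fun y => N x y ≠ 0).card : ℝ) := by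
            exact_mod_cast Finset.card_biUnion_le
        _ ≤ ∑ x ∈ F, s * (B.card : ℝ) := by
            refine Finset.sum_le_sum fun x hx => ?_
            exact (Finset.mem_filter.1 (hFA hx)).2
        _ = F.card * (s * B.card) := by rw [Finset.sum_const, nsmul_eq_mul]
        _ ≤ k * (s * B.card) := by
            have : (F.card : ℝ) ≤ k := by exact_mod_cast hFc
            gcongr
        _ = t * B.card := by rw [← hsk]; ring
    have e4 : (B1.card : ℝ) + ((B.filter fun y => ¬ ∀ x ∈ F, N x y = 0).card : ℝ) = B.card := by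
      exact_mod_cast e1
    linarith
  refine ⟨A1, hA1sub, B1, Finset.filter_subset _ _, fun x hx y hy => ?_, ?_⟩
  · rw [Finset.mem_filter] at hy
    exact hF y hy.1 hy.2 x hx
  · have h2 := exp_neg_le_sq ht0 ht1
    have hAn : (0 : ℝ) ≤ A.card := Nat.cast_nonneg _
    have h1t : 0 ≤ 1 - t := by linarith
    calc Real.exp (-(4 * t)) * ((A.card : ℝ) * B.card)
        ≤ (1 - t) ^ 2 * ((A.card : ℝ) * B.card) := by gcongr
      _ = ((1 - t) * A.card) * ((1 - t) * B.card) := by ring
      _ ≤ (A1.card : ℝ) * B1.card := by gcongr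

end Pool.Agent.BddInt
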