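import Pool.Agent.BddInt.Stmts

/-!
Module Tilt: exponential tilting by random Gaussian rectangles (helper46).
-/

namespace Pool.Agent.BddInt

open Finset MeasureTheory ProbabilityTheory

noncomputable section

/-- the standard Gaussian measure on `ι → ℝ` -/
def gm (ι : Type) [Fintype ι] : Measure (ι → ℝ) := Measure.pi fun _ => gaussianReal 0 1

instance (ι : Type) [Fintype ι] : IsProbabilityMeasure (gm ι) := by
  unfold gm; infer_instance

/-- exponential of an affine form -/
def eL {ι : Type} [Fintype ι] (c : ℝ) (w g : ι → ℝ) : ℝ := Real.exp (c + ∑ i, w i * g i)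

theorem eL_prod {ι : Type} [Fintype ι] (c : ℝ) (w g : ι → ℝ) :
    eL c w g = Real.exp c * ∏ i, Real.exp (w i * g i) := by
  unfold eL
  rw [Real.exp_add, Real.exp_sum]

theorem eL_integrable {ι : Type} [Fintype ι] (c : ℝ) (w : ι → ℝ) :
    Integrable (fun g => eL c w g) (gm ι) := by
  simp only [eL_prod]
  apply Integrable.const_mul
  unfold gm
  exact Integrable.fintype_prod (f := fun i (x : ℝ) => Real.exp (w i * x))
    (fun i => integrable_exp_mul_gaussianReal (w i))

theorem eL_integral {ι : Type} [Fintype ι] (c : ℝ) (w : ι → ℝ) :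
    ∫ g, eL c w g ∂(gm ι) = Real.exp (c + (∑ i, w i ^ 2) / 2) := by
  simp only [eL_prod]
  rw [integral_const_mul]
  unfold gm
  rw [integral_fintype_prod_eq_prod (fun i (x : ℝ) => Real.exp (w i * x))]
  have h : ∀ i, ∫ x, Real.exp (w i * x) ∂(gaussianReal 0 1) = Real.exp (w i ^ 2 / 2) := by
    intro i
    have h1 := congrFun (mgf_fun_id_gaussianReal (μ := 0) (v := 1)) (w i)
    unfold mgf at h1
    rw [h1]
    congr 1
    push_cast
    ring
  simp only [h]
  rw [← Real.exp_sum, ← Real.exp_add, Finset.sum_div]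

theorem eL_mul {ι : Type} [Fintype ι] (c c' : ℝ) (w w' g : ι → ℝ) :
    eL c w g * eL c' w' g = eL (c + c') (fun i => w i + w' i) g := by
  unfold eL
  rw [← Real.exp_add]
  congr 1
  have : ∑ i, (w i + w' i) * g i = ∑ i, w i * g i + ∑ i, w' i * g i := by
    rw [← Finset.sum_add_distrib]
    apply Finset.sum_congr rfl
    intro i _; ring
  rw [this]
  ring

theorem eL_pos {ι : Type} [Fintype ι] (c : ℝ) (w g : ι → ℝ) : 0 < eL c w g := Real.exp_pos _

theorem eL_cont {ι : Type} [Fintype ι] (c : ℝ) (w : ι → ℝ) : Continuous (fun g => eL c w g) := by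
  unfold eL
  fun_prop

/-- a bilinear form on `[0,S]^A × [0,S]^B` is at most its value at a vertex. -/
theorem vertex {X Y : Type} (A : Finset X) (B : Finset Y) (W : X → Y → ℝ) (a : X → ℝ) (b : Y → ℝ)
    (S : ℝ) (hS : 0 ≤ S) (ha : ∀ x, 0 ≤ a x ∧ a x ≤ S) (hb : ∀ y, 0 ≤ b y ∧ b y ≤ S) :
    ∃ A' ⊆ A, ∃ B' ⊆ B, ∑ x ∈ A, ∑ y ∈ B, W x y * (a x * b y)
      ≤ S ^ 2 * ∑ x ∈ A', ∑ y ∈ B', W x y := by
  classical
  have key : ∀ {Z : Type} (C : Finset Z) (e c : Z → ℝ), (∀ z, 0 ≤ e z ∧ e z ≤ S) →
      ∑ z ∈ C, e z * c z ≤ S * ∑ z ∈ C.filter (fun z => 0 < c z), c z := by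
    intro Z C e c he
    rw [Finset.mul_sum, Finset.sum_filter]
    apply Finset.sum_le_sum
    intro z _
    split_ifs with h
    · exact mul_le_mul_of_nonneg_right (he z).2 h.le
    · exact mul_nonpos_of_nonneg_of_nonpos (he z).1 (not_lt.1 h)
  refine ⟨A.filter (fun x => 0 < ∑ y ∈ B, W x y * b y), Finset.filter_subset _ _, ?_⟩
  set A' := A.filter (fun x => 0 < ∑ y ∈ B, W x y * b y) with hA'
  refine ⟨B.filter (fun y => 0 < ∑ x ∈ A', W x y), Finset.filter_subset _ _, ?_⟩
  have h1 : ∑ x ∈ A, ∑ y ∈ B, W x y * (a x * b y) = ∑ x ∈ A, a x * ∑ y ∈ B, W x y * b y := by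
    apply Finset.sum_congr rfl
    intro x _
    rw [Finset.mul_sum]
    apply Finset.sum_congr rfl
    intro y _; ring
  have h2 := key A a (fun x => ∑ y ∈ B, W x y * b y) ha
  have h3 : ∑ x ∈ A', ∑ y ∈ B, W x y * b y = ∑ y ∈ B, b y * ∑ x ∈ A', W x y := by
    rw [Finset.sum_comm]
    apply Finset.sum_congr rfl
    intro y _
    rw [Finset.mul_sum]
    apply Finset.sum_congr rfl
    intro x _; ring
  have h4 := key B b (fun y => ∑ x ∈ A', W x y) hb
  have h5 : ∑ x ∈ A', ∑ y ∈ B.filter (fun y => 0 < ∑ x ∈ A', W x y), W x y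
      = ∑ y ∈ B.filter (fun y => 0 < ∑ x ∈ A', W x y), ∑ x ∈ A', W x y := Finset.sum_comm
  rw [h1, h5]
  calc ∑ x ∈ A, a x * ∑ y ∈ B, W x y * b y ≤ S * ∑ x ∈ A', ∑ y ∈ B, W x y * b y := h2
    _ = S * ∑ y ∈ B, b y * ∑ x ∈ A', W x y := by rw [h3]
    _ ≤ S * (S * ∑ y ∈ B.filter (fun y => 0 < ∑ x ∈ A', W x y), ∑ x ∈ A', W x y) :=
        mul_le_mul_of_nonneg_left h4 hS
    _ = _ := by ring

theorem min_mul_lower {a b S : ℝ} (ha : 0 ≤ a) (hb : 0 ≤ b) (hS : 0 < S) :
    a * b - a * a * b / S - a * b * b / S ≤ min a S * min b S := by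
  have hab : 0 ≤ a * b := mul_nonneg ha hb
  have e : a * b - a * a * b / S - a * b * b / S = a * b * (1 - a / S - b / S) := by ring
  rw [e]
  rcases le_or_gt a S with h1 | h1
  · rcases le_or_gt b S with h2 | h2
    · rw [min_eq_left h1, min_eq_left h2]
      have h3 : 0 ≤ a / S := by positivity
      have h4 : 0 ≤ b / S := by positivity
      nlinarith
    · have h3 : 1 < b / S := by rw [lt_div_iff₀ hS]; linarith
      have h4 : 0 ≤ a / S := by positivity
      have h5 : a * b * (1 - a / S - b / S) ≤ 0 := mul_nonpos_of_nonneg_of_nonpos hab (by linarith)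
      have h6 : 0 ≤ min a S * min b S := mul_nonneg (le_min ha hS.le) (le_min hb hS.le)
      linarith
  · have h3 : 1 < a / S := by rw [lt_div_iff₀ hS]; linarith
    have h4 : 0 ≤ b / S := by positivity
    have h5 : a * b * (1 - a / S - b / S) ≤ 0 := mul_nonpos_of_nonneg_of_nonpos hab (by linarith)
    have h6 : 0 ≤ min a S * min b S := mul_nonneg (le_min ha hS.le) (le_min hb hS.le)
    linarith

theorem min_mul_upper {a b S : ℝ} (ha : 0 ≤ a) (hb : 0 ≤ b) (hS : 0 < S) :
    min a S * min b S ≤ a * b :=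
  mul_le_mul (min_le_left _ _) (min_le_left _ _) (le_min hb hS.le) ha

theorem Tilt_proof : Stmt_Tilt := by
  intro X Y ι _ A B u v W D R L hL hR hu hv huv
  classical
  set q : ℝ := √L with hq
  have hqq : q * q = L := Real.mul_self_sqrt hL
  set S : ℝ := 8 * Real.exp (L * (3 * D / 2 + R)) with hS
  have hSpos : 0 < S := by positivity
  set α : X → (ι → ℝ) → ℝ := fun x g => eL (L * (D - ∑ i, u x i ^ 2) / 2) (fun i => q * u x i) g
    with hα
  set β : Y → (ι → ℝ) → ℝ := fun y g => eL (L * (D - ∑ i, v y i ^ 2) / 2) (fun i => q * v y i) g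
    with hβ
  have hαp : ∀ x g, 0 < α x g := fun x g => eL_pos _ _ _
  have hβp : ∀ y g, 0 < β y g := fun y g => eL_pos _ _ _
  -- the second factor
  set m : X → Y → (ι → ℝ) → ℝ := fun x y g => min (α x g) S * min (β y g) S with hm
  have hcont : ∀ x y, Continuous (m x y) := by
    intro x y
    exact ((eL_cont _ _).min continuous_const).mul ((eL_cont _ _).min continuous_const)
  have i_ab : ∀ x y, Integrable (fun g => α x g * β y g) (gm ι) := by
    intro x y
    simp only [hα, hβ, eL_mul]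
    exact eL_integrable _ _
  have i_aab : ∀ x y, Integrable (fun g => α x g * α x g * β y g) (gm ι) := by
    intro x y
    simp only [hα, hβ, eL_mul]
    exact eL_integrable _ _
  have i_abb : ∀ x y, Integrable (fun g => α x g * β y g * β y g) (gm ι) := by
    intro x y
    simp only [hα, hβ, eL_mul]
    exact eL_integrable _ _
  have i_m : ∀ x y, Integrable (m x y) (gm ι) := by
    intro x y
    refine Integrable.mono' (i_ab x y) (hcont x y).aestronglyMeasurable ?_
    refine Filter.Eventually.of_forall fun g => ?_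
    have h1 : 0 ≤ m x y g := mul_nonneg (le_min (hαp x g).le hSpos.le) (le_min (hβp y g).le hSpos.le)
    rw [Real.norm_of_nonneg h1]
    exact min_mul_upper (hαp x g).le (hβp y g).le hSpos
  have e_ab : ∀ x y, ∫ g, α x g * β y g ∂(gm ι)
      = Real.exp (L * D) * Real.exp (L * ∑ i, u x i * v y i) := by
    intro x y
    simp only [hα, hβ, eL_mul]
    rw [eL_integral, ← Real.exp_add]
    congr 1
    have : ∑ i, (q * u x i + q * v y i) ^ 2
        = L * (∑ i, u x i ^ 2 + 2 * ∑ i, u x i * v y i + ∑ i, v y i ^ 2) := by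
      rw [Finset.mul_sum, ← Finset.sum_add_distrib, ← Finset.sum_add_distrib, Finset.mul_sum]
      apply Finset.sum_congr rfl
      intro i _
      rw [← hqq]; ring
    rw [this]
    ring
  have e_aab : ∀ x ∈ A, ∀ y ∈ B, ∫ g, α x g * α x g * β y g ∂(gm ι)
      ≤ S / 8 * (Real.exp (L * D) * Real.exp (L * ∑ i, u x i * v y i)) := by
    intro x hx y hy
    simp only [hα, hβ, eL_mul]
    rw [eL_integral, hS, ← Real.exp_add]
    have e8 : 8 * Real.exp (L * (3 * D / 2 + R)) / 8 = Real.exp (L * (3 * D / 2 + R)) := by ring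
    rw [e8, ← Real.exp_add]
    apply Real.exp_le_exp.2
    have : ∑ i, (q * u x i + q * u x i + q * v y i) ^ 2
        = L * (4 * ∑ i, u x i ^ 2 + 4 * ∑ i, u x i * v y i + ∑ i, v y i ^ 2) := by
      rw [Finset.mul_sum, Finset.mul_sum, ← Finset.sum_add_distrib, ← Finset.sum_add_distrib,
        Finset.mul_sum]
      apply Finset.sum_congr rfl
      intro i _
      rw [← hqq]; ring
    rw [this]
    have h1 := hu x hx
    have h2 := huv x hx y hy
    nlinarith [mul_le_mul_of_nonneg_left h1 hL, mul_le_mul_of_nonneg_left h2 hL]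
  have e_abb : ∀ x ∈ A, ∀ y ∈ B, ∫ g, α x g * β y g * β y g ∂(gm ι)
      ≤ S / 8 * (Real.exp (L * D) * Real.exp (L * ∑ i, u x i * v y i)) := by
    intro x hx y hy
    simp only [hα, hβ, eL_mul]
    rw [eL_integral, hS, ← Real.exp_add]
    have e8 : 8 * Real.exp (L * (3 * D / 2 + R)) / 8 = Real.exp (L * (3 * D / 2 + R)) := by ring
    rw [e8, ← Real.exp_add]
    apply Real.exp_le_exp.2
    have : ∑ i, (q * u x i + q * v y i + q * v y i) ^ 2
        = L * (∑ i, u x i ^ 2 + 4 * ∑ i, u x i * v y i + 4 * ∑ i, v y i ^ 2) := by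
      rw [Finset.mul_sum, Finset.mul_sum, ← Finset.sum_add_distrib, ← Finset.sum_add_distrib,
        Finset.mul_sum]
      apply Finset.sum_congr rfl
      intro i _
      rw [← hqq]; ring
    rw [this]
    have h1 := hv y hy
    have h2 := huv x hx y hy
    nlinarith [mul_le_mul_of_nonneg_left h1 hL, mul_le_mul_of_nonneg_left h2 hL]
  -- bounds for the truncated products
  have m_low : ∀ x ∈ A, ∀ y ∈ B,
      3 / 4 * (Real.exp (L * D) * Real.exp (L * ∑ i, u x i * v y i)) ≤ ∫ g, m x y g ∂(gm ι) := by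
    intro x hx y hy
    have h1 : ∫ g, (α x g * β y g - α x g * α x g * β y g / S - α x g * β y g * β y g / S) ∂(gm ι)
        ≤ ∫ g, m x y g ∂(gm ι) := by
      apply integral_mono (((i_ab x y).sub ((i_aab x y).div_const S)).sub
        ((i_abb x y).div_const S)) (i_m x y)
      intro g
      exact min_mul_lower (hαp x g).le (hβp y g).le hSpos
    have h2 : ∫ g, (α x g * β y g - α x g * α x g * β y g / S - α x g * β y g * β y g / S) ∂(gm ι)
        = ∫ g, α x g * β y g ∂(gm ι) - (∫ g, α x g * α x g * β y g ∂(gm ι)) / S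
          - (∫ g, α x g * β y g * β y g ∂(gm ι)) / S := by
      have i1 : Integrable (fun g => α x g * β y g - α x g * α x g * β y g / S) (gm ι) :=
        (i_ab x y).sub ((i_aab x y).div_const S)
      rw [integral_sub i1 ((i_abb x y).div_const S),
        integral_sub (i_ab x y) ((i_aab x y).div_const S), integral_div, integral_div]
    rw [h2, e_ab] at h1
    have h3 := div_le_div_of_nonneg_right (e_aab x hx y hy) hSpos.le
    have h4 := div_le_div_of_nonneg_right (e_abb x hx y hy) hSpos.le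
    set E := Real.exp (L * D) * Real.exp (L * ∑ i, u x i * v y i) with hE
    have h5 : S / 8 * E / S = E / 8 := by field_simp
    rw [h5] at h3 h4
    linarith
  have m_up : ∀ x y, ∫ g, m x y g ∂(gm ι)
      ≤ Real.exp (L * D) * Real.exp (L * ∑ i, u x i * v y i) := by
    intro x y
    rw [← e_ab]
    apply integral_mono (i_m x y) (i_ab x y)
    intro g
    exact min_mul_upper (hαp x g).le (hβp y g).le hSpos
  -- the total
  have i_tot : Integrable (fun g => ∑ x ∈ A, ∑ y ∈ B, W x y * m x y g) (gm ι) := by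
    apply integrable_finsetSum
    intro x _
    apply integrable_finsetSum
    intro y _
    exact (i_m x y).const_mul _
  obtain ⟨g, hg⟩ := exists_integral_le i_tot
  have e_tot : ∫ g, ∑ x ∈ A, ∑ y ∈ B, W x y * m x y g ∂(gm ι)
      = ∑ x ∈ A, ∑ y ∈ B, W x y * ∫ g, m x y g ∂(gm ι) := by
    rw [integral_finsetSum]
    · apply Finset.sum_congr rfl
      intro x _
      rw [integral_finsetSum]
      · apply Finset.sum_congr rfl
        intro y _
        rw [integral_const_mul]
      · intro y _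
        exact (i_m x y).const_mul _
    · intro x _
      apply integrable_finsetSum
      intro y _
      exact (i_m x y).const_mul _
  have h_low : Real.exp (L * D) *
      (3 / 4 * (∑ x ∈ A, ∑ y ∈ B, max (W x y) 0 * Real.exp (L * ∑ i, u x i * v y i)) -
          (∑ x ∈ A, ∑ y ∈ B, max (-W x y) 0 * Real.exp (L * ∑ i, u x i * v y i)))
      ≤ ∑ x ∈ A, ∑ y ∈ B, W x y * ∫ g, m x y g ∂(gm ι) := by
    rw [Finset.mul_sum, ← Finset.sum_sub_distrib, Finset.mul_sum]
    apply Finset.sum_le_sum
    intro x hx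
    rw [Finset.mul_sum, ← Finset.sum_sub_distrib, Finset.mul_sum]
    apply Finset.sum_le_sum
    intro y hy
    have h1 := m_low x hx y hy
    have h2 := m_up x y
    rcases le_total 0 (W x y) with h | h
    · rw [max_eq_left h, max_eq_right (by linarith)]
      have := mul_le_mul_of_nonneg_left h1 h
      nlinarith
    · rw [max_eq_right h, max_eq_left (by linarith)]
      have := mul_le_mul_of_nonneg_left h2 (neg_nonneg.2 h)
      nlinarith
  obtain ⟨A', hA', B', hB', hv'⟩ := vertex A B W (fun x => min (α x g) S) (fun y => min (β y g) S) S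
    hSpos.le (fun x => ⟨le_min (hαp x g).le hSpos.le, min_le_right _ _⟩)
    (fun y => ⟨le_min (hβp y g).le hSpos.le, min_le_right _ _⟩)
  refine ⟨A', hA', B', hB', ?_⟩
  rw [e_tot] at hg
  have h_all := (h_low.trans hg).trans hv'
  have hS2 : S ^ 2 = Real.exp (L * D) * (64 * Real.exp (2 * L * (D + R))) := by
    rw [hS, mul_pow, ← Real.exp_nat_mul]
    have : Real.exp (L * D) * (64 * Real.exp (2 * L * (D + R)))
        = 64 * Real.exp (L * D + 2 * L * (D + R)) := by rw [Real.exp_add]; ring
    rw [this]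
    norm_num
    ring
  rw [hS2, mul_assoc] at h_all
  exact le_of_mul_le_mul_left h_all (Real.exp_pos _)

end

end Pool.Agent.BddInt
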