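import Pool.Agent.BddInt.Norm

/-!
Variance reduction at large scales.
-/

namespace Pool.Agent.BddInt

open Finset

/-- mean value theorem for the tilted mean: some tilt has small variance -/
lemma exists_tilt {ι : Type} (P : Finset ι) (hP : P.Nonempty) (f : ι → ℝ) (a c L0 : ℝ)
    (hf : ∀ i ∈ P, a ≤ f i ∧ f i ≤ c) (hL0 : 0 < L0) :
    ∃ L : ℝ, 0 < L ∧ L < L0 ∧ 0 < ∑ i ∈ P, Real.exp (L * f i) ∧
      (∑ i ∈ P, f i ^ 2 * Real.exp (L * f i)) / (∑ i ∈ P, Real.exp (L * f i)) -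
        ((∑ i ∈ P, f i * Real.exp (L * f i)) / (∑ i ∈ P, Real.exp (L * f i))) ^ 2 ≤
        (c - a) / L0 := by
  have hZ : ∀ L : ℝ, 0 < ∑ i ∈ P, Real.exp (L * f i) := fun L =>
    Finset.sum_pos (fun i _ => Real.exp_pos _) hP
  have hdZ : ∀ L : ℝ, HasDerivAt (fun L => ∑ i ∈ P, Real.exp (L * f i))
      (∑ i ∈ P, f i * Real.exp (L * f i)) L := by
    intro L
    apply HasDerivAt.fun_sum
    intro i _
    have h1 : HasDerivAt (fun L : ℝ => L * f i) (1 * f i) L := (hasDerivAt_id L).mul_const _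
    refine h1.exp.congr_deriv ?_
    ring
  have hdS : ∀ L : ℝ, HasDerivAt (fun L => ∑ i ∈ P, f i * Real.exp (L * f i))
      (∑ i ∈ P, f i ^ 2 * Real.exp (L * f i)) L := by
    intro L
    apply HasDerivAt.fun_sum
    intro i _
    have h1 : HasDerivAt (fun L : ℝ => L * f i) (1 * f i) L := (hasDerivAt_id L).mul_const _
    refine (h1.exp.const_mul (f i)).congr_deriv ?_
    ring
  have hdm : ∀ L : ℝ, HasDerivAt
      (fun L => (∑ i ∈ P, f i * Real.exp (L * f i)) / (∑ i ∈ P, Real.exp (L * f i)))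
      ((∑ i ∈ P, f i ^ 2 * Real.exp (L * f i)) / (∑ i ∈ P, Real.exp (L * f i)) -
        ((∑ i ∈ P, f i * Real.exp (L * f i)) / (∑ i ∈ P, Real.exp (L * f i))) ^ 2) L := by
    intro L
    refine ((hdS L).fun_div (hdZ L) (hZ L).ne').congr_deriv ?_
    have := (hZ L).ne'
    generalize (∑ i ∈ P, f i ^ 2 * Real.exp (L * f i)) = s2
    generalize (∑ i ∈ P, f i * Real.exp (L * f i)) = s1
    generalize (∑ i ∈ P, Real.exp (L * f i)) = z at this ⊢
    field_simp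
  obtain ⟨L, hL, heq⟩ := exists_hasDerivAt_eq_slope
    (fun L => (∑ i ∈ P, f i * Real.exp (L * f i)) / (∑ i ∈ P, Real.exp (L * f i)))
    (fun L => (∑ i ∈ P, f i ^ 2 * Real.exp (L * f i)) / (∑ i ∈ P, Real.exp (L * f i)) -
        ((∑ i ∈ P, f i * Real.exp (L * f i)) / (∑ i ∈ P, Real.exp (L * f i))) ^ 2)
    hL0 (fun L _ => (hdm L).continuousAt.continuousWithinAt) (fun L _ => hdm L)
  refine ⟨L, hL.1, hL.2, hZ L, ?_⟩
  rw [heq, sub_zero]
  have hup : (∑ i ∈ P, f i * Real.exp (L0 * f i)) / (∑ i ∈ P, Real.exp (L0 * f i)) ≤ c := by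
    rw [div_le_iff₀ (hZ L0), Finset.mul_sum]
    exact Finset.sum_le_sum fun i hi => mul_le_mul_of_nonneg_right (hf i hi).2 (Real.exp_pos _).le
  have hlow : a ≤ (∑ i ∈ P, f i * Real.exp (0 * f i)) / (∑ i ∈ P, Real.exp (0 * f i)) := by
    rw [le_div_iff₀ (hZ 0), Finset.mul_sum]
    exact Finset.sum_le_sum fun i hi => mul_le_mul_of_nonneg_right (hf i hi).1 (Real.exp_pos _).le
  gcongr

theorem VR_proof : Stmt_Norm → Stmt_Conc → Stmt_VR := by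
  intro hNorm hConc
  refine ⟨8000, by norm_num, ?_⟩
  intro X Y N A B K r b σ hK hr hA hB hBdd hb hrk hσ3 hσK hmom
  obtain ⟨ι, hι, u, v, A₁, hA₁, B₁, hB₁, hcA, hcB, huv, hu, hv⟩ :=
    hNorm X Y N A B r b σ hr hA hB hrk (by linarith) hmom
  have hK1 : (1 : ℝ) ≤ K := by exact_mod_cast hK
  have hr1 : (1 : ℝ) ≤ r := by exact_mod_cast hr
  have hAc : (0 : ℝ) < A.card := by exact_mod_cast hA.card_pos
  have hBc : (0 : ℝ) < B.card := by exact_mod_cast hB.card_pos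
  have hA₁c : (0 : ℝ) < A₁.card := by linarith
  have hB₁c : (0 : ℝ) < B₁.card := by linarith
  have hA₁n : A₁.Nonempty := by rw [← Finset.card_pos]; exact_mod_cast hA₁c
  have hB₁n : B₁.Nonempty := by rw [← Finset.card_pos]; exact_mod_cast hB₁c
  have hσ0 : 0 < σ := by linarith
  obtain ⟨L, hL0, hL1, hZ, hvar⟩ := exists_tilt (A₁ ×ˢ B₁) (hA₁n.product hB₁n)
    (fun p => (N p.1 p.2 : ℝ) - b) (-K - b) (K - b) (64 * K / σ ^ 2) (by
      intro p hp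
      rw [Finset.mem_product] at hp
      have h1 := abs_le.mp (hBdd p.1 (hA₁ hp.1) p.2 (hB₁ hp.2))
      have h2 : -(K : ℝ) ≤ N p.1 p.2 := by exact_mod_cast h1.1
      have h3 : (N p.1 p.2 : ℝ) ≤ K := by exact_mod_cast h1.2
      constructor <;> linarith) (by positivity)
  obtain ⟨Z, hZd⟩ : ∃ Z : ℝ, Z = ∑ p ∈ A₁ ×ˢ B₁, Real.exp (L * ((N p.1 p.2 : ℝ) - b)) := ⟨_, rfl⟩
  obtain ⟨S1, hS1⟩ : ∃ S1 : ℝ, S1 = ∑ p ∈ A₁ ×ˢ B₁,
    ((N p.1 p.2 : ℝ) - b) * Real.exp (L * ((N p.1 p.2 : ℝ) - b)) := ⟨_, rfl⟩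
  obtain ⟨S2, hS2⟩ : ∃ S2 : ℝ, S2 = ∑ p ∈ A₁ ×ˢ B₁,
    ((N p.1 p.2 : ℝ) - b) ^ 2 * Real.exp (L * ((N p.1 p.2 : ℝ) - b)) := ⟨_, rfl⟩
  rw [← hZd] at hZ hvar
  rw [← hS1, ← hS2] at hvar
  obtain ⟨μ, hμ⟩ : ∃ μ : ℝ, μ = S1 / Z := ⟨_, rfl⟩
  rw [← hμ] at hvar
  have hvar' : S2 / Z - μ ^ 2 ≤ σ ^ 2 / 32 := by
    refine hvar.trans (le_of_eq ?_)
    field_simp
    ring
  have hμlow : -(K : ℝ) - b ≤ μ := by
    rw [hμ, le_div_iff₀ hZ, hZd, hS1, Finset.mul_sum]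
    refine Finset.sum_le_sum fun p hp => mul_le_mul_of_nonneg_right ?_ (Real.exp_pos _).le
    rw [Finset.mem_product] at hp
    have h1 := abs_le.mp (hBdd p.1 (hA₁ hp.1) p.2 (hB₁ hp.2))
    have h2 : -(K : ℝ) ≤ N p.1 p.2 := by exact_mod_cast h1.1
    linarith
  have hμup : μ ≤ (K : ℝ) - b := by
    rw [hμ, div_le_iff₀ hZ, hZd, hS1, Finset.mul_sum]
    refine Finset.sum_le_sum fun p hp => mul_le_mul_of_nonneg_right ?_ (Real.exp_pos _).le
    rw [Finset.mem_product] at hp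
    have h1 := abs_le.mp (hBdd p.1 (hA₁ hp.1) p.2 (hB₁ hp.2))
    have h3 : (N p.1 p.2 : ℝ) ≤ K := by exact_mod_cast h1.2
    linarith
  obtain ⟨m, hm⟩ : ∃ m : ℤ, m = round μ := ⟨_, rfl⟩
  have hround : |μ - m| ≤ 1 / 2 := by rw [hm]; exact abs_sub_round μ
  have hr2 := abs_le.mp hround
  have hb' : |b + m| ≤ (K : ℤ) := by
    rw [abs_le]
    constructor
    · have h1 : (-(K : ℝ) - b - 1) < m := by linarith
      have h2 : (-(K : ℤ) - b - 1) < m := by exact_mod_cast h1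
      omega
    · have h1 : (m : ℝ) < (K : ℝ) - b + 1 := by linarith
      have h2 : m < (K : ℤ) - b + 1 := by exact_mod_cast h1
      omega
  have hsq : (μ - m) ^ 2 ≤ 1 / 4 := by
    have := sq_abs (μ - m)
    nlinarith [abs_nonneg (μ - m)]
  have hkey : ∑ p ∈ A₁ ×ˢ B₁, ((N p.1 p.2 : ℝ) - (b + m : ℤ)) ^ 2 *
      Real.exp (L * ((N p.1 p.2 : ℝ) - b)) ≤ (σ / 2) ^ 2 / 4 * Z := by
    have h1 : ∑ p ∈ A₁ ×ˢ B₁, ((N p.1 p.2 : ℝ) - (b + m : ℤ)) ^ 2 *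
      Real.exp (L * ((N p.1 p.2 : ℝ) - b)) = S2 - 2 * m * S1 + m ^ 2 * Z := by
      rw [hS2, hS1, hZd, Finset.mul_sum, Finset.mul_sum, ← Finset.sum_sub_distrib,
        ← Finset.sum_add_distrib]
      refine Finset.sum_congr rfl fun p _ => ?_
      push_cast
      ring
    have h2 : S2 - 2 * m * S1 + m ^ 2 * Z = (S2 / Z - μ ^ 2 + (μ - m) ^ 2) * Z := by
      rw [hμ]
      field_simp
      ring
    rw [h1, h2]
    apply mul_le_mul_of_nonneg_right _ hZ.le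
    nlinarith
  obtain ⟨D, hD⟩ : ∃ D : ℝ, D = 16 * √(2 * r) * σ := ⟨_, rfl⟩
  obtain ⟨A', hA', B', hB', hA'n, hB'n, hmom', hsz⟩ := hConc X Y ι N A₁ B₁ b (b + m) u v D L
    ((σ / 2) ^ 2) hA₁n hB₁n (by rw [hD]; positivity) hL0.le (by positivity) huv
    (by rw [hD]; exact hu) (by rw [hD]; exact hv) (by
      have := hkey
      rw [hZd, Finset.sum_product, Finset.sum_product] at this
      exact this)
  refine ⟨b + m, hb', A', hA'.trans hA₁, B', hB'.trans hB₁, hA'n, hB'n, hmom', ?_⟩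
  refine le_trans ?_ hsz
  have h256 : Real.exp (-1) * ((A.card : ℝ) * B.card) ≤ (A₁.card : ℝ) * B₁.card := by
    have h1 : Real.exp (-1) ≤ 225 / 256 := by
      have := Real.exp_neg_one_lt_d9
      linarith
    calc Real.exp (-1) * ((A.card : ℝ) * B.card) ≤ 225 / 256 * ((A.card : ℝ) * B.card) := by
          gcongr
      _ = (15 / 16 * (A.card : ℝ)) * (15 / 16 * (B.card : ℝ)) := by ring
      _ ≤ (A₁.card : ℝ) * B₁.card := by gcongr
  have hs2 : √(2 * (r : ℝ)) ≤ 1.415 * √r := by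
    rw [Real.sqrt_mul (by norm_num)]
    have h2 : √(2 : ℝ) ≤ 1.415 := by
      rw [Real.sqrt_le_iff]; norm_num
    gcongr
  have hsr : 1 ≤ √(r : ℝ) := by rw [Real.one_le_sqrt]; exact hr1
  have hcost : 1 + (6 + 5 * L * D) ≤ 8000 * K * √r / σ := by
    rw [le_div_iff₀ hσ0]
    have h1 : L * σ ^ 2 ≤ 64 * K := by
      rw [lt_div_iff₀ (by positivity)] at hL1
      exact hL1.le
    have h2 : 5 * L * D * σ ≤ 5 * 64 * 16 * 1.415 * (K * √r) := by
      rw [hD]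
      calc 5 * L * (16 * √(2 * r) * σ) * σ = 5 * 16 * (L * σ ^ 2) * √(2 * (r : ℝ)) := by ring
        _ ≤ 5 * 16 * (64 * K) * (1.415 * √r) := by gcongr
        _ = _ := by ring
    have h3 : σ ≤ 2 * (K * √r) := by
      calc σ ≤ 2 * (K * 1) := by linarith
        _ ≤ 2 * (K * √r) := by gcongr
    nlinarith
  calc Real.exp (-(8000 * K * √r / σ)) * ((A.card : ℝ) * B.card)
      ≤ Real.exp (-(1 + (6 + 5 * L * D))) * ((A.card : ℝ) * B.card) := by gcongr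
    _ = Real.exp (-(6 + 5 * L * D)) * (Real.exp (-1) * ((A.card : ℝ) * B.card)) := by
        rw [show -(1 + (6 + 5 * L * D)) = -(6 + 5 * L * D) + -1 by ring, Real.exp_add]; ring
    _ ≤ Real.exp (-(6 + 5 * L * D)) * ((A₁.card : ℝ) * B₁.card) := by gcongr

end Pool.Agent.BddInt
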